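import Pool.Agent.Helper55.UG.Contact
import Pool.Agent.Helper2.PG.DichG

/-!
Project UT (MP_b8862a_ag): the contact case, the operators `u v Xᴴ` on the top eigenspace.
-/

set_option linter.unusedSectionVars false

open Matrix

namespace MH

variable {n : Type*} [Fintype n] [DecidableEq n]
variable {h : Matrix n n ℂ} {E : ℝ → Matrix n n ℂ} {Λ : Finset ℝ}
variable {τ : Matrix n n ℂ →ₗ[ℂ] Matrix n n ℂ} {L : Submodule ℂ (Matrix n n ℂ)}

/-- the operator `u v Xᴴ` on the top eigenspace -/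
def bb55 (X u v : Matrix n n ℂ) : Matrix n n ℂ := u * v * Xᴴ

lemma bb55_addl (X u u' v : Matrix n n ℂ) : bb55 X (u + u') v = bb55 X u v + bb55 X u' v := by
  unfold bb55
  rw [add_mul, add_mul]

lemma bb55_addr (X u v v' : Matrix n n ℂ) : bb55 X u (v + v') = bb55 X u v + bb55 X u v' := by
  unfold bb55
  rw [mul_add, add_mul]

lemma bb55_smull (X u v : Matrix n n ℂ) (c : ℂ) : bb55 X (c • u) v = c • bb55 X u v := by
  unfold bb55
  rw [smul_mul_assoc, smul_mul_assoc]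

lemma bb55_smulr (X u v : Matrix n n ℂ) (c : ℂ) : bb55 X u (c • v) = c • bb55 X u v := by
  unfold bb55
  rw [mul_smul_comm, smul_mul_assoc]

/-- the maps `V_0 → V_1` given by the elements of degree one -/
def ZZ55 (L : Submodule ℂ (Matrix n n ℂ)) (h : Matrix n n ℂ) (E : ℝ → Matrix n n ℂ) :
    Submodule ℂ (Matrix n n ℂ) := (Ld L h 1).map (LinearMap.mulLeft ℂ (E 1))

lemma mem_ZZ55 {w : Matrix n n ℂ} : w ∈ ZZ55 L h E ↔ ∃ u ∈ Ld L h 1, E 1 * u = w := by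
  rw [ZZ55, Submodule.mem_map]
  rfl

namespace Ct55

variable {X : Matrix n n ℂ} (C : Ct55 L h E X) (D : Dat τ L h E Λ) (T : Three27 E)
include C D T

lemma X_E : E 1 * X = X ∧ X * E (-1) = X ∧ X * E 0 = 0 ∧ X * E 1 = 0 ∧ E 0 * X = 0 ∧ E (-1) * X = 0 := by
  have h3 := D.Ld227 T C.mem
  have hE : ∀ μ, E μ * E μ = E μ := fun μ => by rw [D.spec.mul, if_pos rfl]
  refine ⟨?_, ?_, (C.X_E0 D T).1, ?_, (C.X_E0 D T).2, ?_⟩
  · conv_lhs => rw [← h3]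
    rw [← mul_assoc, ← mul_assoc, hE, h3]
  · conv_lhs => rw [← h3]
    rw [mul_assoc, hE, h3]
  · rw [← h3, mul_assoc, D.spec.mul, if_neg (by norm_num), mul_zero]
  · rw [← h3, ← mul_assoc, ← mul_assoc, D.spec.mul, if_neg (by norm_num), zero_mul, zero_mul]

lemma Y_E : Xᴴ * E 1 = Xᴴ ∧ E (-1) * Xᴴ = Xᴴ ∧ E 0 * Xᴴ = 0 ∧ E 1 * Xᴴ = 0 ∧ Xᴴ * E 0 = 0 ∧ Xᴴ * E (-1) = 0 := by
  obtain ⟨h1, h2, h3, h4, h5, h6⟩ := C.X_E D T
  have hs := D.spec.star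
  refine ⟨?_, ?_, ?_, ?_, ?_, ?_⟩
  · rw [← hs 1, ← conjTranspose_mul, h1]
  · rw [← hs (-1), ← conjTranspose_mul, h2]
  · rw [← hs 0, ← conjTranspose_mul, h3, conjTranspose_zero]
  · rw [← hs 1, ← conjTranspose_mul, h4, conjTranspose_zero]
  · rw [← hs 0, ← conjTranspose_mul, h5, conjTranspose_zero]
  · rw [← hs (-1), ← conjTranspose_mul, h6, conjTranspose_zero]

lemma X_mem : X ∈ L := C.mem.1

lemma Y_mem : Xᴴ ∈ Ld L h (-2) := D.Ld_star27 C.mem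

lemma tau_X : τ X = -X := D.sk X C.mem.1

lemma tau_Y : τ Xᴴ = -Xᴴ := D.sk _ (C.Y_mem D T).1

/-- the bracket of two elements of degree one -/
lemma br_one {u v : Matrix n n ℂ} (hu : u ∈ Ld L h 1) (hv : v ∈ Ld L h 1) : ∃ c : ℂ, u * v - v * u = c • X := by
  have h1 := Dat.Ld_bracket D.br hu hv
  rw [show (1 : ℝ) + 1 = 2 by norm_num] at h1
  exact C.line _ h1

lemma bb_E {u v : Matrix n n ℂ} (hu : u ∈ Ld L h 1) (hv : v ∈ Ld L h 1) :
    E 1 * bb55 X u v = bb55 X u v ∧ bb55 X u v * E 1 = bb55 X u v := by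
  obtain ⟨-, -, a3, -, -⟩ := shape55 D T hu
  obtain ⟨-, -, -, b4, -⟩ := shape55 D T hv
  obtain ⟨y1, y2, -⟩ := C.Y_E D T
  unfold bb55
  constructor
  · have e1 : E 1 * (u * v * Xᴴ) = E 1 * u * v * Xᴴ := by noncomm_ring
    rw [e1, ← a3, mul_assoc u, ← b4, mul_assoc, mul_assoc, y2, ← mul_assoc]
  · rw [mul_assoc, y1]

lemma bb_sub {u v : Matrix n n ℂ} {c : ℂ} (hc : u * v - v * u = c • X) : bb55 X u v - bb55 X v u = c • E 1 := by
  unfold bb55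
  rw [← sub_mul, hc, smul_mul_assoc, C.right]

/-- the element `[y, [Xᴴ, z]]` -/
lemma kk_mem {y z : Matrix n n ℂ} (hy : y ∈ Ld L h 1) (hz : z ∈ Ld L h 1) :
    y * (Xᴴ * z - z * Xᴴ) - (Xᴴ * z - z * Xᴴ) * y ∈ Ld L h 0 := by
  have h1 := Dat.Ld_bracket D.br (C.Y_mem D T) hz
  have h2 := Dat.Ld_bracket D.br hy h1
  rwa [show (1 : ℝ) + (-2 + 1) = 0 by norm_num] at h2

/-- **The triple product.** -/
lemma triple {x y z : Matrix n n ℂ} (hx : x ∈ Ld L h 1) (hy : y ∈ Ld L h 1) (hz : z ∈ Ld L h 1) :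
    bb55 X y z * x + bb55 X x y * z + bb55 X x z * y ∈ ZZ55 L h E := by
  obtain ⟨x1, x2, x3, x4, x5⟩ := shape55 D T hx
  obtain ⟨y1, y2, y3, y4, y5⟩ := shape55 D T hy
  obtain ⟨z1, z2, z3, z4, z5⟩ := shape55 D T hz
  obtain ⟨Y1, Y2, Y3, Y4, Y5, Y6⟩ := C.Y_E D T
  have hk := C.kk_mem D T hy hz
  obtain ⟨k, hke⟩ : ∃ k, k = y * (Xᴴ * z - z * Xᴴ) - (Xᴴ * z - z * Xᴴ) * y := ⟨_, rfl⟩
  rw [← hke] at hk
  have h1 := D.br_one55 hk hx
  rw [mem_ZZ55]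
  refine ⟨-(k * x - x * k), neg_mem h1, ?_⟩
  have e1 : E 1 * (k * x) = -(bb55 X y z * x) := by
    have f1 : E 1 * (k * x) = (E 1 * y) * Xᴴ * z * x - (E 1 * y) * z * Xᴴ * x - (E 1 * Xᴴ) * z * y * x +
        (E 1 * z) * Xᴴ * y * x := by
      rw [hke]
      noncomm_ring
    have f2 : y * E 0 * Xᴴ = 0 := by rw [mul_assoc, Y3, mul_zero]
    have f3 : z * E 0 * Xᴴ = 0 := by rw [mul_assoc, Y3, mul_zero]
    rw [f1, ← y3, ← z3, f2, f3, Y4]
    have f4 : y * E 0 * z * Xᴴ = y * z * Xᴴ := by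
      rw [mul_assoc y, ← z4]
      calc y * (z * E (-1)) * Xᴴ = y * z * (E (-1) * Xᴴ) := by noncomm_ring
        _ = _ := by rw [Y2]
    rw [f4]
    unfold bb55
    simp
  have e2 : E 1 * (x * k) = bb55 X x y * z + bb55 X x z * y := by
    have f1 : E 1 * (x * k) = (E 1 * x) * (y * Xᴴ) * z - (E 1 * x) * y * z * Xᴴ - (E 1 * x) * Xᴴ * z * y +
        (E 1 * x) * (z * Xᴴ) * y := by
      rw [hke]
      noncomm_ring
    have f2 : x * E 0 * Xᴴ = 0 := by rw [mul_assoc, Y3, mul_zero]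
    have f3 : E 0 * y * z = 0 := by
      rw [← y4, mul_assoc, z2, mul_zero]
    have f4 : x * E 0 * y * z * Xᴴ = 0 := by
      have : x * E 0 * y * z * Xᴴ = x * (E 0 * y * z) * Xᴴ := by noncomm_ring
      rw [this, f3, mul_zero, zero_mul]
    have f5 : ∀ v, v ∈ Ld L h 1 → x * E 0 * (v * Xᴴ) = x * v * Xᴴ := by
      intro v hv
      obtain ⟨-, -, -, v4, -⟩ := shape55 D T hv
      have : x * E 0 * (v * Xᴴ) = x * (E 0 * v) * Xᴴ := by noncomm_ring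
      rw [this, ← v4]
      calc x * (v * E (-1)) * Xᴴ = x * v * (E (-1) * Xᴴ) := by noncomm_ring
        _ = _ := by rw [Y2]
    rw [f1, ← x3, f2, f4, f5 y hy, f5 z hz]
    unfold bb55
    simp
  rw [mul_neg, mul_sub, e1, e2]
  abel

end Ct55

end MH
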