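import Pool.Agent.Helper55.UT.Top

/-!
Project UT (MP_b8862a_ag): the element `T = ∑ [u, uᴴ]` has its largest eigenvalue on the top eigenspace of `h`.
-/

set_option linter.unusedSectionVars false

open Matrix

namespace MH

variable {n : Type*} [Fintype n] [DecidableEq n]
variable {h : Matrix n n ℂ} {E : ℝ → Matrix n n ℂ} {Λ : Finset ℝ}
variable {τ : Matrix n n ℂ →ₗ[ℂ] Matrix n n ℂ} {L : Submodule ℂ (Matrix n n ℂ)}

section
variable {δ : ℝ} {M : Submodule ℂ (Matrix n n ℂ)} {d : ℕ} {u : Fin d → Matrix n n ℂ}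
variable (D : Dat τ L h E Λ) (U : Tb55 L h δ M u)
include D U

/-- the scalar on the top eigenspace -/
theorem al55 {t : ℝ} (htop : ∀ μ, E μ ≠ 0 → μ ≤ t) (ht : E t ≠ 0) :
    ∃ α : ℝ, 0 ≤ α ∧ SA55 u * E t = (α : ℂ) • E t ∧ SB55 u * E t = 0 ∧
      SB55 u * E (-t) = (α : ℂ) • E (-t) ∧ SA55 u * E (-t) = 0 := by
  have hEE : E t * E t = E t := by rw [D.spec.mul, if_pos rfl]
  have hB : SB55 u * E t = 0 := by
    rw [SB55, Finset.sum_mul]
    refine Finset.sum_eq_zero fun i _ => ?_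
    have h1 := mulE2_55 D (U.le (U.mem i)) t
    have h2 : E (t + δ) = 0 := by
      by_contra hcon
      have := htop _ hcon
      have := U.pos
      linarith
    rw [h2, zero_mul] at h1
    rw [mul_assoc, h1, mul_zero]
  obtain ⟨κ, hκ⟩ := D.top_scalar98 htop (T := SA55 u * E t)
    (by rw [SA_E2_55 D U, ← mul_assoc, hEE]) (by rw [mul_assoc, hEE]) (by
      intro x hx
      rw [mul_assoc, D.Ld_comm_E98 hx, ← mul_assoc, SA_comm2_55 D U hx, mul_assoc])
  have hs : (0 : ℝ) < ((E t)ᴴ * E t).trace.re := trace_pos ht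
  have e1 : ((E t)ᴴ * (SA55 u * E t)).trace = κ * ((E t)ᴴ * E t).trace := by
    rw [hκ, mul_smul_comm, trace_smul, smul_eq_mul]
  have e2 : ((E t)ᴴ * (SA55 u * E t)).trace = ∑ i, (((u i)ᴴ * E t)ᴴ * ((u i)ᴴ * E t)).trace := by
    rw [SA55, Finset.sum_mul, Finset.mul_sum, trace_sum]
    refine Finset.sum_congr rfl fun i _ => ?_
    rw [conjTranspose_mul, conjTranspose_conjTranspose]
    simp only [mul_assoc]
  have e3 : 0 ≤ ((E t)ᴴ * (SA55 u * E t)).trace.re := by
    rw [e2, Complex.re_sum]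
    exact Finset.sum_nonneg fun i _ => trace_nonneg _
  have e4 : ((E t)ᴴ * (SA55 u * E t)).trace.im = 0 := by
    rw [e2, Complex.im_sum]
    exact Finset.sum_eq_zero fun i _ => trace_im _
  have e5 : ((E t)ᴴ * E t).trace = (((E t)ᴴ * E t).trace.re : ℂ) := by
    apply Complex.ext
    · simp
    · simpa using trace_im (E t)
  have e6 : κ.im = 0 := by
    rw [e1, e5] at e4
    rw [Complex.mul_im, Complex.ofReal_re, Complex.ofReal_im, mul_zero, zero_add] at e4
    rcases mul_eq_zero.1 e4 with h1 | h1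
    · exact h1
    · exact absurd h1 hs.ne'
  have e7 : κ = (κ.re : ℂ) := by
    apply Complex.ext
    · simp
    · simpa using e6
  have e8 : 0 ≤ κ.re := by
    rw [e1, e5, Complex.mul_re, Complex.ofReal_re, Complex.ofReal_im, mul_zero, sub_zero] at e3
    by_contra hcon
    push Not at hcon
    have := mul_neg_of_neg_of_pos hcon hs
    linarith
  refine ⟨κ.re, e8, by rw [← e7]; exact hκ, hB, ?_, ?_⟩
  · have h1 := congrArg τ hκ
    rw [D.inv.mul, D.tauE, tau_SA2_55 D U, map_smul, D.tauE, ← SB_E2_55 D U] at h1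
    rw [← e7]
    exact h1
  · have h1 := congrArg τ hB
    rw [D.inv.mul, D.tauE, tau_SB2_55 D U, map_zero, ← SA_E2_55 D U] at h1
    exact h1

/-- **The largest eigenvalue of `T`** is its eigenvalue on the top eigenspace of `h`. -/
theorem TT_le55 {t : ℝ} (htop : ∀ μ, E μ ≠ 0 → μ ≤ t) (ht : E t ≠ 0) {α : ℝ}
    (hα : TT55 u * E t = (α : ℂ) • E t) (Y : Matrix n n ℂ) :
    (Yᴴ * (TT55 u * Y)).trace.re ≤ α * (Yᴴ * Y).trace.re := by
  classical
  have hT0 := TT_zero55 D U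
  obtain ⟨η, X, _, hX0, hTX, hbd⟩ := max55 (TT_star55 u) ⊤ (fun _ _ => Submodule.mem_top) (by
    intro h0
    apply ht
    have : E t ∈ (⊤ : Submodule ℂ (Matrix n n ℂ)) := Submodule.mem_top
    rwa [h0, Submodule.mem_bot] at this)
  suffices hη : η = α by
    rw [← hη]
    exact hbd Y Submodule.mem_top
  -- the largest level
  have hnon : (Λ.filter fun μ => ∃ Z : Matrix n n ℂ, E μ * Z = Z ∧ Z ≠ 0 ∧ TT55 u * Z = (η : ℂ) • Z).Nonempty := by
    obtain ⟨μ, hμ, hμ0⟩ : ∃ μ ∈ Λ, E μ * X ≠ 0 := by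
      by_contra! hcon
      apply hX0
      rw [← one_mul X, ← D.spec.sum, Finset.sum_mul]
      exact Finset.sum_eq_zero hcon
    refine ⟨μ, Finset.mem_filter.2 ⟨hμ, E μ * X, ?_, hμ0, ?_⟩⟩
    · rw [← mul_assoc, D.spec.mul, if_pos rfl]
    · rw [← mul_assoc, ← D.Ld_comm_E98 hT0, mul_assoc, hTX, mul_smul_comm]
  obtain ⟨μ, hμe⟩ : ∃ μ, μ = (Λ.filter fun μ => ∃ Z : Matrix n n ℂ, E μ * Z = Z ∧ Z ≠ 0 ∧
    TT55 u * Z = (η : ℂ) • Z).max' hnon := ⟨_, rfl⟩
  have hμ1 := (Λ.filter fun μ => ∃ Z : Matrix n n ℂ, E μ * Z = Z ∧ Z ≠ 0 ∧ TT55 u * Z = (η : ℂ) • Z).max'_mem hnon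
  rw [← hμe, Finset.mem_filter] at hμ1
  obtain ⟨_, Z, hZ1, hZ2, hZ3⟩ := hμ1
  have hlast : ∀ ν : ℝ, 0 < ν → ∀ Z' : Matrix n n ℂ, E (μ + ν) * Z' = Z' → TT55 u * Z' = (η : ℂ) • Z' → Z' = 0 := by
    intro ν hν Z' h1 h2
    by_contra hcon
    have h3 : μ + ν ∈ Λ := by
      by_contra h4
      rw [D.spec.supp _ h4, zero_mul] at h1
      exact hcon h1.symm
    have h4 := (Λ.filter fun μ => ∃ Z : Matrix n n ℂ, E μ * Z = Z ∧ Z ≠ 0 ∧ TT55 u * Z = (η : ℂ) • Z).le_max' (μ + ν)
      (Finset.mem_filter.2 ⟨h3, Z', h1, hcon, h2⟩)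
    rw [← hμe] at h4
    linarith
  -- the decomposition for `T`
  obtain ⟨F, ΛT, hF, hadj⟩ := exists_spec98 (TT_star55 u)
  have DT : Dat τ L (TT55 u) F ΛT := ⟨D.inv, hF, D.sk, D.br, D.st, D.irr, hT0.1⟩
  have hhT : h * TT55 u = TT55 u * h := by
    have := hT0.2
    rw [Complex.ofReal_zero, zero_smul] at this
    exact sub_eq_zero.1 this
  have hhF : ∀ ν, h * F ν = F ν * h := by
    intro ν
    have key : ∀ a ∈ Algebra.adjoin ℂ ({TT55 u} : Set (Matrix n n ℂ)), h * a = a * h := by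
      intro a ha
      induction ha using Algebra.adjoin_induction with
      | mem x hx =>
        rw [Set.mem_singleton_iff] at hx
        rw [hx, hhT]
      | algebraMap r =>
        rw [Algebra.algebraMap_eq_smul_one]
        simp
      | add x y _ _ hx hy => rw [mul_add, add_mul, hx, hy]
      | mul x y _ _ hx hy => rw [← mul_assoc, hx, mul_assoc, hy, mul_assoc]
    exact key _ (hadj ν)
  have hcmp : ∀ (e ν : ℝ) (z : Matrix n n ℂ), z ∈ Ld L h ν → cmp F ΛT e z ∈ Ld L h ν := by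
    intro e ν z hz
    refine ⟨DT.cmp_mem hz.1 e, ?_⟩
    have e1 : h * cmp F ΛT e z - cmp F ΛT e z * h = cmp F ΛT e (h * z - z * h) := by
      apply hF.ext
      intro ρ ρ'
      have e2 : ∀ c : Matrix n n ℂ, F ρ * (h * c - c * h) * F ρ' = h * (F ρ * c * F ρ') - (F ρ * c * F ρ') * h := by
        intro c
        have e3 : F ρ * (h * c - c * h) * F ρ' = (F ρ * h) * c * F ρ' - F ρ * c * (h * F ρ') := by noncomm_ring
        rw [e3, ← hhF ρ, hhF ρ']
        noncomm_ring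
      rw [e2, hF.block_cmp, hF.block_cmp, e2]
      split_ifs
      · rfl
      · simp
    rw [e1, hz.2, cmp_smul]
  have hk : ∀ ν : ℝ, 0 < ν → ∀ z ∈ Ld L h ν, z * Z = 0 := by
    intro ν hν z hz
    rw [hF.sum_cmp z, Finset.sum_mul]
    refine Finset.sum_eq_zero fun e _ => ?_
    have c1 := DT.cmp_mem_Ld hz.1 e
    have c2 := hcmp e ν z hz
    obtain ⟨c, hc⟩ : ∃ c, c = cmp F ΛT e z := ⟨_, rfl⟩
    rw [← hc] at c1 c2 ⊢
    have hTc : TT55 u * (c * Z) = ((η + e : ℝ) : ℂ) • (c * Z) := by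
      have e1 : TT55 u * (c * Z) = (TT55 u * c - c * TT55 u) * Z + c * (TT55 u * Z) := by noncomm_ring
      rw [e1, c1.2, hZ3, smul_mul_assoc, mul_smul_comm, ← add_smul]
      congr 1
      push_cast
      ring
    rcases lt_trichotomy e 0 with h1 | h1 | h1
    · have h2 := TT_pos55 D U hν c2
      rw [c1.2, mul_smul_comm, trace_smul, smul_eq_mul, Complex.re_ofReal_mul] at h2
      have h3 : c = 0 := by
        apply eq_zero_of_trace
        have h4 := trace_nonneg c
        by_contra h5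
        have h6 : 0 < (cᴴ * c).trace.re := lt_of_le_of_ne h4 (Ne.symm h5)
        have := mul_neg_of_neg_of_pos h1 h6
        linarith
      rw [h3, zero_mul]
    · subst h1
      rw [add_zero] at hTc
      apply hlast ν hν _ _ hTc
      rw [← mul_assoc, ← mulE2_55 D c2, mul_assoc, hZ1]
    · have h2 := hbd (c * Z) Submodule.mem_top
      rw [hTc, mul_smul_comm, trace_smul, smul_eq_mul, Complex.re_ofReal_mul] at h2
      apply eq_zero_of_trace
      have h4 := trace_nonneg (c * Z)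
      by_contra h5
      have h6 : 0 < ((c * Z)ᴴ * (c * Z)).trace.re := lt_of_le_of_ne h4 (Ne.symm h5)
      have := mul_pos h1 h6
      nlinarith
  by_cases hμt : μ = t
  · have e1 : TT55 u * Z = (α : ℂ) • Z := by
      have e2 : Z = E t * Z := by rw [← hμt, hZ1]
      conv_lhs => rw [e2]
      rw [← mul_assoc, hα, smul_mul_assoc, ← e2]
    rw [hZ3] at e1
    have e3 : ((η : ℂ) - α) • Z = 0 := by rw [sub_smul, e1, sub_self]
    have e4 := (smul_eq_zero.1 e3).resolve_right hZ2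
    have e5 : ((η - α : ℝ) : ℂ) = 0 := by
      push_cast
      exact e4
    have e6 : η - α = 0 := by exact_mod_cast e5
    linarith
  · exact absurd (D.sing55 htop ht hμt hZ1 hk) hZ2

/-- The scalar on the top eigenspace is positive. -/
theorem al_pos55 (hne : M ≠ ⊥) {t : ℝ} (htop : ∀ μ, E μ ≠ 0 → μ ≤ t) (ht : E t ≠ 0) {α : ℝ}
    (hα : TT55 u * E t = (α : ℂ) • E t) : 0 < α := by
  classical
  have hT0 := TT_zero55 D U
  by_contra hcon
  push Not at hcon
  have htr : (TT55 u).trace = 0 := D.tr_tau_odd (tau_TT55 D U)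
  -- all eigenvalues of `T` are zero
  obtain ⟨F, ΛT, hF, -⟩ := exists_spec98 (TT_star55 u)
  have hFF : ∀ ν, F ν * F ν = F ν := fun ν => by rw [hF.mul, if_pos rfl]
  have hneg : ∀ ν ∈ ΛT, ν * ((F ν)ᴴ * F ν).trace.re ≤ 0 := by
    intro ν _
    have h1 := TT_le55 D U htop ht hα (F ν)
    rw [hF.h_mul, mul_smul_comm, trace_smul, smul_eq_mul, Complex.re_ofReal_mul] at h1
    have h2 := mul_nonpos_of_nonpos_of_nonneg hcon (trace_nonneg (F ν))
    linarith
  have hsum : ∑ ν ∈ ΛT, ν * ((F ν)ᴴ * F ν).trace.re = 0 := by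
    have e1 : (TT55 u).trace.re = 0 := by rw [htr]; rfl
    rw [hF.eq, trace_sum, Complex.re_sum] at e1
    rw [← e1]
    refine Finset.sum_congr rfl fun ν _ => ?_
    rw [trace_smul, smul_eq_mul, Complex.re_ofReal_mul, hF.star, hFF]
  have hall := (Finset.sum_eq_zero_iff_of_nonpos hneg).1 hsum
  have hT : TT55 u = 0 := by
    rw [hF.eq]
    refine Finset.sum_eq_zero fun ν hν => ?_
    rcases mul_eq_zero.1 (hall ν hν) with h1 | h1
    · rw [h1]
      simp
    · rw [eq_zero_of_trace h1, smul_zero]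
  -- but `tr (T h)` is positive
  have e1 : (TT55 u * h).trace = (δ : ℂ) * d := by
    rw [TT55, SA55, SB55, ← Finset.sum_sub_distrib, Finset.sum_mul, trace_sum]
    have e2 : ∀ i, ((u i * (u i)ᴴ - (u i)ᴴ * u i) * h).trace = δ := by
      intro i
      have e3 : ((u i * (u i)ᴴ - (u i)ᴴ * u i) * h).trace = ((u i)ᴴ * (h * u i - u i * h)).trace := by
        rw [sub_mul, mul_sub, trace_sub, trace_sub]
        congr 1
        · rw [mul_assoc, trace_mul_comm, mul_assoc]
        · rw [mul_assoc]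
      rw [e3, (U.le (U.mem i)).2, mul_smul_comm, trace_smul, U.orth, if_pos rfl, smul_eq_mul, mul_one]
    simp only [e2, Finset.sum_const, Finset.card_univ, Fintype.card_fin, nsmul_eq_mul]
    ring
  rw [hT, zero_mul, trace_zero] at e1
  have e2 : (δ : ℂ) ≠ 0 := by exact_mod_cast U.pos.ne'
  have e3 : d = 0 := by
    have := (mul_eq_zero.1 e1.symm).resolve_left e2
    exact_mod_cast this
  apply hne
  rw [eq_bot_iff]
  intro m hm
  subst e3
  rw [U.span m hm]
  simp

end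

end MH
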