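import Pool.Agent.Helper55.UT.Bb
import Pool.Agent.Helper55.UT.Top2

/-!
Project UT (MP_b8862a_ag): the contact case, two different eigenvalues on the elements of degree one.
-/

set_option linter.unusedSectionVars false

open Matrix

namespace MH

variable {n : Type*} [Fintype n] [DecidableEq n]
variable {h : Matrix n n ℂ} {E : ℝ → Matrix n n ℂ} {Λ : Finset ℝ}
variable {τ : Matrix n n ℂ →ₗ[ℂ] Matrix n n ℂ} {L : Submodule ℂ (Matrix n n ℂ)}

/-- An element of degree `ν` is a sum of elements of degree `ν` that are eigenvectors of a hermitian element of degree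
zero. -/
theorem Dat.two_deg55 (D : Dat τ L h E Λ) {g : Matrix n n ℂ} (hg : g ∈ Ld L h 0) (hgs : gᴴ = g) {ν : ℝ}
    {u : Matrix n n ℂ} (hu : u ∈ Ld L h ν) :
    u ∈ Submodule.span ℂ {v | v ∈ Ld L h ν ∧ ∃ e : ℝ, g * v - v * g = (e : ℂ) • v} := by
  classical
  obtain ⟨F, ΛT, hF, hadj⟩ := exists_spec98 hgs
  have DT : Dat τ L g F ΛT := ⟨D.inv, hF, D.sk, D.br, D.st, D.irr, hg.1⟩
  have hhT : h * g = g * h := by
    have := hg.2
    rw [Complex.ofReal_zero, zero_smul] at this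
    exact sub_eq_zero.1 this
  have hhF : ∀ ν, h * F ν = F ν * h := by
    intro ν
    have key : ∀ a ∈ Algebra.adjoin ℂ ({g} : Set (Matrix n n ℂ)), h * a = a * h := by
      intro a ha
      induction ha using Algebra.adjoin_induction with
      | mem x hx =>
        rw [Set.mem_singleton_iff] at hx
        rw [hx, hhT]
      | algebraMap r =>
        rw [Algebra.algebraMap_eq_smul_one]
        simp
      | add x y _ _ hx hy => rw [mul_add, add_mul, hx, hy]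
      | mul x y _ _ hx hy => rw [← mul_assoc, hx, mul_assoc, hy, mul_assoc]
    exact key _ (hadj ν)
  have hcmp : ∀ e : ℝ, cmp F ΛT e u ∈ Ld L h ν := by
    intro e
    refine ⟨DT.cmp_mem hu.1 e, ?_⟩
    have e1 : h * cmp F ΛT e u - cmp F ΛT e u * h = cmp F ΛT e (h * u - u * h) := by
      apply hF.ext
      intro ρ ρ'
      have e2 : ∀ c : Matrix n n ℂ, F ρ * (h * c - c * h) * F ρ' = h * (F ρ * c * F ρ') - (F ρ * c * F ρ') * h := by
        intro c
        have e3 : F ρ * (h * c - c * h) * F ρ' = (F ρ * h) * c * F ρ' - F ρ * c * (h * F ρ') := by noncomm_ring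
        rw [e3, ← hhF ρ, hhF ρ']
        noncomm_ring
      rw [e2, hF.block_cmp, hF.block_cmp, e2]
      split_ifs
      · rfl
      · simp
    rw [e1, hu.2, cmp_smul]
  rw [hF.sum_cmp u]
  exact Submodule.sum_mem _ fun e _ => Submodule.subset_span ⟨hcmp e, e, (DT.cmp_mem_Ld hu.1 e).2⟩

/-- `g` is an element that lives on the middle eigenspace -/
structure Md55 (L : Submodule ℂ (Matrix n n ℂ)) (h : Matrix n n ℂ) (E : ℝ → Matrix n n ℂ) (g : Matrix n n ℂ) :
    Prop where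
  mem : g ∈ Ld L h 0
  star : gᴴ = g
  left : E 1 * g = 0
  right : g * E 1 = 0
  leftm : E (-1) * g = 0
  rightm : g * E (-1) = 0

/-- the elements of degree one and degree `e` for `g` -/
def Ze55 (L : Submodule ℂ (Matrix n n ℂ)) (h g : Matrix n n ℂ) (e : ℝ) : Submodule ℂ (Matrix n n ℂ) where
  carrier := {v | v ∈ Ld L h 1 ∧ g * v - v * g = (e : ℂ) • v}
  add_mem' := by
    rintro a b ⟨h1, h2⟩ ⟨h3, h4⟩
    refine ⟨add_mem h1 h3, ?_⟩
    rw [mul_add, add_mul, smul_add, ← h2, ← h4]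
    abel
  zero_mem' := ⟨zero_mem _, by simp⟩
  smul_mem' := by
    rintro c a ⟨h1, h2⟩
    refine ⟨Submodule.smul_mem _ c h1, ?_⟩
    rw [mul_smul_comm, smul_mul_assoc, smul_comm, ← h2, smul_sub]

lemma mem_Ze55 {g v : Matrix n n ℂ} {e : ℝ} :
    v ∈ Ze55 L h g e ↔ v ∈ Ld L h 1 ∧ g * v - v * g = (e : ℂ) • v := Iff.rfl

namespace Ct55

variable {X g : Matrix n n ℂ} (C : Ct55 L h E X) (D : Dat τ L h E Λ) (T : Three27 E) (G : Md55 L h E g)
include C D T G

/-- products of elements with degrees that do not cancel are zero -/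
lemma mul_zero55 {e f : ℝ} (hef : e + f ≠ 0) {u v : Matrix n n ℂ} (hu : u ∈ Ze55 L h g e) (hv : v ∈ Ze55 L h g f) :
    u * v = 0 := by
  obtain ⟨u1, u2, u3, u4, u5⟩ := shape55 D T hu.1
  obtain ⟨v1, v2, v3, v4, v5⟩ := shape55 D T hv.1
  have hl : E 1 * (u * v) = u * v := by
    have e1 : u * v = (E 1 * u + u * E (-1)) * v := by rw [u5]
    rw [add_mul, mul_assoc u, v2, mul_zero, add_zero] at e1
    rw [← mul_assoc]
    exact e1.symm
  have hr : u * v * E (-1) = u * v := by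
    have e1 : u * v = u * (E 1 * v + v * E (-1)) := by rw [v5]
    rw [mul_add, ← mul_assoc u (E 1), u1, zero_mul, zero_add, ← mul_assoc] at e1
    exact e1.symm
  have e1 : g * (u * v) - u * v * g = ((e + f : ℝ) : ℂ) • (u * v) := by
    have e2 : g * (u * v) - u * v * g = (g * u - u * g) * v + u * (g * v - v * g) := by noncomm_ring
    rw [e2, hu.2, hv.2, smul_mul_assoc, mul_smul_comm, ← add_smul]
    push_cast
    rfl
  rw [← hl, ← mul_assoc, G.right, zero_mul, hl, ← hr, mul_assoc (u * v), G.leftm, mul_zero, sub_zero, hr] at e1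
  have e3 : ((e + f : ℝ) : ℂ) ≠ 0 := by exact_mod_cast hef
  exact (smul_eq_zero.1 e1.symm).resolve_left e3

lemma bb_zero55 {e f : ℝ} (hef : e + f ≠ 0) {u v : Matrix n n ℂ} (hu : u ∈ Ze55 L h g e) (hv : v ∈ Ze55 L h g f) :
    bb55 X u v = 0 := by
  rw [bb55, C.mul_zero55 D T G hef hu hv, zero_mul]

/-- the element `k(y, z)` for degrees that do not cancel, and its action from the right -/
lemma kk_right55 {e f : ℝ} (hef : e + f ≠ 0) {y z : Matrix n n ℂ} (hy : y ∈ Ze55 L h g e) (hz : z ∈ Ze55 L h g f) :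
    ∃ k ∈ Ld L h 0, E 1 * k = 0 ∧ ∀ x ∈ Ld L h 1, E 1 * x * k = bb55 X x y * z + bb55 X x z * y := by
  obtain ⟨y1, y2, y3, y4, y5⟩ := shape55 D T hy.1
  obtain ⟨z1, z2, z3, z4, z5⟩ := shape55 D T hz.1
  obtain ⟨Y1, Y2, Y3, Y4, Y5, Y6⟩ := C.Y_E D T
  have hk := C.kk_mem D T hy.1 hz.1
  have hyz := C.mul_zero55 D T G hef hy hz
  have hzy := C.mul_zero55 D T G (by rw [add_comm]; exact hef) hz hy
  have e1 : y * (Xᴴ * z - z * Xᴴ) - (Xᴴ * z - z * Xᴴ) * y = y * Xᴴ * z + z * Xᴴ * y := by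
    have : y * (Xᴴ * z - z * Xᴴ) - (Xᴴ * z - z * Xᴴ) * y = y * Xᴴ * z - (y * z) * Xᴴ - Xᴴ * (z * y) + z * Xᴴ * y := by
      noncomm_ring
    rw [this, hyz, hzy]
    simp
  rw [e1] at hk
  refine ⟨_, hk, ?_, ?_⟩
  · have f1 : E 1 * (y * Xᴴ * z + z * Xᴴ * y) = (E 1 * y) * Xᴴ * z + (E 1 * z) * Xᴴ * y := by noncomm_ring
    rw [f1, ← y3, ← z3, mul_assoc y, Y3, mul_assoc z, Y3]
    simp
  · intro x hx
    obtain ⟨x1, x2, x3, x4, x5⟩ := shape55 D T hx
    have f5 : ∀ v, v ∈ Ld L h 1 → x * E 0 * (v * Xᴴ) = x * v * Xᴴ := by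
      intro v hv
      obtain ⟨-, -, -, v4, -⟩ := shape55 D T hv
      have : x * E 0 * (v * Xᴴ) = x * (E 0 * v) * Xᴴ := by noncomm_ring
      rw [this, ← v4]
      calc x * (v * E (-1)) * Xᴴ = x * v * (E (-1) * Xᴴ) := by noncomm_ring
        _ = _ := by rw [Y2]
    have f6 : E 1 * x * (y * Xᴴ * z + z * Xᴴ * y) = (E 1 * x) * (y * Xᴴ) * z + (E 1 * x) * (z * Xᴴ) * y := by
      noncomm_ring
    rw [f6, ← x3, f5 y hy.1, f5 z hz.1]
    rfl

/-- the action of a product of two such elements on a map in `ZZ55` -/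
lemma kk_act55 {k k' : Matrix n n ℂ} (hk : k ∈ Ld L h 0) (hk1 : E 1 * k = 0) (hk' : k' ∈ Ld L h 0)
    (hk1' : E 1 * k' = 0) {x : Matrix n n ℂ} (hx : x ∈ Ld L h 1) :
    E 1 * x * (k * k' - k' * k) ∈ ZZ55 L h E := by
  have h1 := D.Ld_comm_E98 hk 1
  have h2 := Dat.Ld_bracket D.br hk hk'
  rw [add_zero] at h2
  have h3 := D.br_one55 h2 hx
  rw [mem_ZZ55]
  refine ⟨-((k * k' - k' * k) * x - x * (k * k' - k' * k)), neg_mem h3, ?_⟩
  have e1 : E 1 * -((k * k' - k' * k) * x - x * (k * k' - k' * k)) =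
      E 1 * x * (k * k' - k' * k) - (E 1 * k) * k' * x + (E 1 * k') * k * x := by noncomm_ring
  rw [e1, hk1, hk1']
  simp

/-- **Left multiplication, different degrees.** -/
lemma left_ne55 {e f : ℝ} (hef : e + f ≠ 0) (hef' : f - e ≠ 0) {x y z : Matrix n n ℂ} (hx : x ∈ Ze55 L h g f)
    (hz : z ∈ Ze55 L h g e) (hy : y ∈ Ze55 L h g (-e)) : bb55 X y z * x ∈ ZZ55 L h E := by
  have h1 := C.triple D T hx.1 hy.1 hz.1
  rw [C.bb_zero55 D T G (by rwa [← sub_eq_add_neg]) hx hy, C.bb_zero55 D T G (by rwa [add_comm]) hx hz, zero_mul,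
    zero_mul, add_zero, add_zero] at h1
  exact h1

/-- **Left multiplication, the same degree.** -/
lemma left_eq55 {e f : ℝ} (hef : e + f ≠ 0) (hef' : f - e ≠ 0) {z z' : Matrix n n ℂ} (hz : z ∈ Ze55 L h g e)
    (hz' : z' ∈ Ze55 L h g (-e)) {ω : ℂ} (hω : z * z' - z' * z = ω • X) (hω0 : ω ≠ 0)
    {x y y' : Matrix n n ℂ} (hx : x ∈ Ze55 L h g f) (hy : y ∈ Ze55 L h g f) (hy' : y' ∈ Ze55 L h g (-f)) :
    bb55 X y y' * x ∈ ZZ55 L h E := by
  have n1 : f + e ≠ 0 := by rwa [add_comm]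
  have n2 : -f + -e ≠ 0 := by
    intro h0
    apply n1
    linarith
  have n3 : f + -e ≠ 0 := by rwa [← sub_eq_add_neg]
  have n4 : -f + e ≠ 0 := by
    intro h0
    apply n3
    linarith
  obtain ⟨k1, k1m, k1E, k1r⟩ := C.kk_right55 D T G n1 hy hz
  obtain ⟨k2, k2m, k2E, k2r⟩ := C.kk_right55 D T G n2 hy' hz'
  obtain ⟨k3, k3m, k3E, k3r⟩ := C.kk_right55 D T G n3 hy hz'
  obtain ⟨k4, k4m, k4E, k4r⟩ := C.kk_right55 D T G n4 hy' hz
  have b1 : bb55 X x z = 0 := C.bb_zero55 D T G n1 hx hz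
  have b2 : bb55 X x z' = 0 := C.bb_zero55 D T G n3 hx hz'
  have b3 : bb55 X z y' = 0 := C.bb_zero55 D T G (by rwa [add_comm]) hz hy'
  have b4 : bb55 X z' y = 0 := C.bb_zero55 D T G (by rwa [add_comm]) hz' hy
  have b5 : bb55 X z y = 0 := C.bb_zero55 D T G hef hz hy
  have b6 : bb55 X z' y' = 0 := C.bb_zero55 D T G (by rwa [add_comm]) hz' hy'
  have hE : ∀ {u v : Matrix n n ℂ}, u ∈ Ld L h 1 → v ∈ Ld L h 1 → ∀ w, bb55 X u v * w = bb55 X u v * (E 1 * w) := by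
    intro u v hu hv w
    rw [← mul_assoc, (C.bb_E D T hu hv).2]
  -- the first commutator
  have c1 : E 1 * x * (k1 * k2 - k2 * k1) = bb55 X x y * (bb55 X z z' * y') - bb55 X x y' * (bb55 X z' z * y) := by
    have f1 : E 1 * x * k1 * k2 = bb55 X x y * (bb55 X z z' * y') := by
      rw [k1r x hx.1, b1, zero_mul, add_zero, hE hx.1 hy.1 z, mul_assoc, k2r z hz.1, b3, zero_mul, zero_add]
    have f2 : E 1 * x * k2 * k1 = bb55 X x y' * (bb55 X z' z * y) := by
      rw [k2r x hx.1, b2, zero_mul, add_zero, hE hx.1 hy'.1 z', mul_assoc, k1r z' hz'.1, b4, zero_mul, zero_add]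
    rw [mul_sub, ← mul_assoc, ← mul_assoc, f1, f2]
  have c2 : E 1 * x * (k3 * k4 - k4 * k3) = bb55 X x y * (bb55 X z' z * y') - bb55 X x y' * (bb55 X z z' * y) := by
    have f1 : E 1 * x * k3 * k4 = bb55 X x y * (bb55 X z' z * y') := by
      rw [k3r x hx.1, b2, zero_mul, add_zero, hE hx.1 hy.1 z', mul_assoc, k4r z' hz'.1, b6, zero_mul, zero_add]
    have f2 : E 1 * x * k4 * k3 = bb55 X x y' * (bb55 X z z' * y) := by
      rw [k4r x hx.1, b1, zero_mul, add_zero, hE hx.1 hy'.1 z, mul_assoc, k3r z hz.1, b5, zero_mul, zero_add]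
    rw [mul_sub, ← mul_assoc, ← mul_assoc, f1, f2]
  have d1 := C.kk_act55 D T G k1m k1E k2m k2E hx.1
  have d2 := C.kk_act55 D T G k3m k3E k4m k4E hx.1
  rw [c1] at d1
  rw [c2] at d2
  have hzz := C.bb_sub D T hω
  have hP : ∀ w, w ∈ Ld L h 1 → ∀ v, v ∈ Ld L h 1 → bb55 X x w * (E 1 * v) = bb55 X x w * v :=
    fun w hw v _ => by rw [← mul_assoc, (C.bb_E D T hx.1 hw).2]
  have d3 := sub_mem d1 d2
  have d4 : bb55 X x y * (bb55 X z z' * y') - bb55 X x y' * (bb55 X z' z * y) -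
      (bb55 X x y * (bb55 X z' z * y') - bb55 X x y' * (bb55 X z z' * y)) =
      ω • (bb55 X x y * y' + bb55 X x y' * y) := by
    have g1 : bb55 X x y * (bb55 X z z' * y') - bb55 X x y' * (bb55 X z' z * y) -
      (bb55 X x y * (bb55 X z' z * y') - bb55 X x y' * (bb55 X z z' * y)) =
      bb55 X x y * ((bb55 X z z' - bb55 X z' z) * y') + bb55 X x y' * ((bb55 X z z' - bb55 X z' z) * y) := by
      noncomm_ring
    rw [g1, hzz, smul_mul_assoc, smul_mul_assoc, mul_smul_comm, mul_smul_comm, hP y hy.1 y' hy'.1,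
      hP y' hy'.1 y hy.1, smul_add]
  rw [d4] at d3
  have d5 : bb55 X x y * y' + bb55 X x y' * y ∈ ZZ55 L h E := by
    have := Submodule.smul_mem _ ω⁻¹ d3
    rwa [smul_smul, inv_mul_cancel₀ hω0, one_smul] at this
  have d6 := C.triple D T hx.1 hy.1 hy'.1
  have d7 := sub_mem d6 d5
  have d8 : bb55 X y y' * x + bb55 X x y * y' + bb55 X x y' * y - (bb55 X x y * y' + bb55 X x y' * y) =
      bb55 X y y' * x := by abel
  rwa [d8] at d7

end Ct55

end MH
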