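import Pool.Agent.Helper55.UT.Bb2

/-!
Project UT (MP_b8862a_ag): the contact case, the span of the operators `u v Xᴴ + v u Xᴴ`.
-/

set_option linter.unusedSectionVars false

open Matrix

namespace MH

variable {n : Type*} [Fintype n] [DecidableEq n]
variable {h : Matrix n n ℂ} {E : ℝ → Matrix n n ℂ} {Λ : Finset ℝ}
variable {τ : Matrix n n ℂ →ₗ[ℂ] Matrix n n ℂ} {L : Submodule ℂ (Matrix n n ℂ)}

/-- the span of the operators `u v Xᴴ + v u Xᴴ` -/
def Sy55 (L : Submodule ℂ (Matrix n n ℂ)) (h X : Matrix n n ℂ) : Submodule ℂ (Matrix n n ℂ) :=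
  Submodule.span ℂ {a | ∃ u ∈ Ld L h 1, ∃ v ∈ Ld L h 1, a = bb55 X u v + bb55 X v u}

namespace Ct55

variable {X g : Matrix n n ℂ} (C : Ct55 L h E X) (D : Dat τ L h E Λ) (T : Three27 E)
include C D T

lemma th_Ze (G : Md55 L h E g) {e : ℝ} {u : Matrix n n ℂ} (hu : u ∈ Ze55 L h g e) : th55 X u ∈ Ze55 L h g (-e) := by
  refine ⟨C.th_mem D T hu.1, ?_⟩
  obtain ⟨x1, x2, -⟩ := C.X_E D T
  have h1 : g * X = 0 := by rw [← x1, ← mul_assoc, G.right, zero_mul]
  have h2 : X * g = 0 := by rw [← x2, mul_assoc, G.leftm, mul_zero]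
  have h3 := congrArg conjTranspose hu.2
  rw [conjTranspose_sub, conjTranspose_mul, conjTranspose_mul, G.star, conjTranspose_smul] at h3
  have h4 : star (e : ℂ) = e := Complex.conj_ofReal e
  rw [h4] at h3
  have h5 : g * uᴴ - uᴴ * g = -((e : ℂ) • uᴴ) := by rw [← h3]; abel
  unfold th55
  have h6 : g * (X * uᴴ - uᴴ * X) - (X * uᴴ - uᴴ * X) * g = (g * X) * uᴴ - (X * g) * uᴴ + X * (g * uᴴ - uᴴ * g) -
      (g * uᴴ - uᴴ * g) * X - uᴴ * (g * X) + uᴴ * (X * g) := by noncomm_ring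
  rw [h6, h1, h2, h5]
  simp only [zero_mul, mul_zero, sub_zero, zero_add, add_zero, mul_neg, neg_mul, mul_smul_comm, smul_mul_assoc]
  push_cast
  module

/-- the bracket of `θ u` and `u` -/
lemma th_br {u : Matrix n n ℂ} (hu : u ∈ Ld L h 1) (hu0 : u ≠ 0) :
    ∃ ω : ℂ, ω ≠ 0 ∧ th55 X u * u - u * th55 X u = ω • X := by
  obtain ⟨c, hc⟩ := C.br_one D T (C.th_mem D T hu) hu
  refine ⟨c, ?_, hc⟩
  rintro rfl
  rw [zero_smul] at hc
  have h1 : (Xᴴ * (th55 X u * u - u * th55 X u)).trace = ((th55 X u)ᴴ * th55 X u).trace := by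
    rw [th55_star, mul_sub, sub_mul, trace_sub, trace_sub]
    congr 1
    · rw [← mul_assoc, trace_mul_comm, ← mul_assoc]
    · rw [← mul_assoc]
  rw [hc, mul_zero, trace_zero] at h1
  have h2 : th55 X u = 0 := by
    apply eq_zero_of_trace
    rw [← h1]
    rfl
  have h3 := C.th_th D T hu
  rw [h2] at h3
  apply hu0
  have h4 : th55 X (0 : Matrix n n ℂ) = 0 := by simp [th55]
  rw [h4] at h3
  exact (neg_eq_zero.1 h3.symm)

/-- **The space `ZZ55` is stable under left multiplication** if there are two eigenvalues that are different up to the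
sign. -/
theorem left_all55 (G : Md55 L h E g) {e1 e2 : ℝ} (h1 : Ze55 L h g e1 ≠ ⊥) (h2 : Ze55 L h g e2 ≠ ⊥)
    (h12 : e1 + e2 ≠ 0) (h12' : e1 - e2 ≠ 0) {x y y' : Matrix n n ℂ} (hx : x ∈ Ld L h 1) (hy : y ∈ Ld L h 1)
    (hy' : y' ∈ Ld L h 1) : bb55 X y y' * x ∈ ZZ55 L h E := by
  -- a second eigenvalue
  have hcl : ∀ f : ℝ, ∃ e : ℝ, e + f ≠ 0 ∧ f - e ≠ 0 ∧ ∃ z ∈ Ze55 L h g e, ∃ z' ∈ Ze55 L h g (-e), ∃ ω : ℂ, ω ≠ 0 ∧
      z * z' - z' * z = ω • X := by
    intro f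
    have key : ∀ e : ℝ, Ze55 L h g e ≠ ⊥ → ∃ z ∈ Ze55 L h g e, ∃ z' ∈ Ze55 L h g (-e), ∃ ω : ℂ, ω ≠ 0 ∧
        z * z' - z' * z = ω • X := by
      intro e he
      obtain ⟨z, hz, hz0⟩ := Submodule.exists_mem_ne_zero_of_ne_bot he
      obtain ⟨ω, hω, h3⟩ := C.th_br D T hz.1 hz0
      refine ⟨z, hz, th55 X z, C.th_Ze D T G hz, -ω, neg_ne_zero.2 hω, ?_⟩
      rw [neg_smul, ← h3]
      abel
    by_cases hf : e1 + f ≠ 0 ∧ f - e1 ≠ 0
    · exact ⟨e1, hf.1, hf.2, key e1 h1⟩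
    · refine ⟨e2, ?_, ?_, key e2 h2⟩
      · intro h3
        apply hf
        refine ⟨fun h4 => h12' (by linarith), fun h4 => h12 (by linarith)⟩
      · intro h3
        apply hf
        refine ⟨fun h4 => h12 (by linarith), fun h4 => h12' (by linarith)⟩
  have hE1 : ∀ x ∈ Ld L h 1, E 1 * x ∈ ZZ55 L h E := fun x hx => mem_ZZ55.2 ⟨x, hx, rfl⟩
  have hall : ∀ (f a b : ℝ), ∀ x ∈ Ze55 L h g f, ∀ y ∈ Ze55 L h g a, ∀ y' ∈ Ze55 L h g b,
      bb55 X y y' * x ∈ ZZ55 L h E := by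
    intro f a b x hx y hy y' hy'
    by_cases hab : a + b = 0
    swap
    · rw [C.bb_zero55 D T G hab hy hy', zero_mul]
      exact zero_mem _
    have hb : b = -a := by linarith
    subst hb
    by_cases h3 : f = a
    · subst h3
      obtain ⟨e, n1, n2, z, hz, z', hz', ω, hω, h4⟩ := hcl f
      exact C.left_eq55 D T G n1 n2 hz hz' h4 hω hx hy hy'
    by_cases h4 : f = -a
    · have ha : a = -f := by linarith
      subst ha
      rw [neg_neg] at hy'
      obtain ⟨e, n1, n2, z, hz, z', hz', ω, hω, h5⟩ := hcl f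
      have h6 := C.left_eq55 D T G n1 n2 hz hz' h5 hω hx hy' hy
      obtain ⟨c, hc⟩ := C.br_one D T hy.1 hy'.1
      have h7 := C.bb_sub D T hc
      have h8 : bb55 X y y' * x = bb55 X y' y * x + c • (E 1 * x) := by
        rw [sub_eq_iff_eq_add] at h7
        rw [h7, add_mul, smul_mul_assoc, add_comm]
      rw [h8]
      exact add_mem h6 (Submodule.smul_mem _ _ (hE1 x hx.1))
    · exact C.left_ne55 D T G (e := -a) (by intro h5; apply h3; linarith) (by intro h5; apply h4; linarith) hx hy'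
        (by rwa [neg_neg])
  -- the span
  have hsp : ∀ x ∈ Ld L h 1, x ∈ Submodule.span ℂ {v | v ∈ Ld L h 1 ∧ ∃ e : ℝ, g * v - v * g = (e : ℂ) • v} :=
    fun x hx => D.two_deg55 G.mem G.star hx
  have s1 : ∀ (f a : ℝ), ∀ x ∈ Ze55 L h g f, ∀ y ∈ Ze55 L h g a, ∀ y' ∈ Ld L h 1, bb55 X y y' * x ∈ ZZ55 L h E := by
    intro f a x hx y hy y' hy'
    have := hsp y' hy'
    induction this using Submodule.span_induction with
    | mem v hv =>
      obtain ⟨hv1, e, he⟩ := hv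
      exact hall f a e x hx y hy v ⟨hv1, he⟩
    | zero =>
      have : bb55 X y 0 * x = 0 := by simp [bb55]
      rw [this]
      exact zero_mem _
    | add v w hv' hw' hv hw =>
      have m1 : v ∈ Ld L h 1 := (Submodule.span_le.2 fun v hv => hv.1 : _ ≤ Ld L h 1) hv'
      have m2 : w ∈ Ld L h 1 := (Submodule.span_le.2 fun v hv => hv.1 : _ ≤ Ld L h 1) hw'
      rw [bb55_addr, add_mul]
      exact add_mem (hv m1) (hw m2)
    | smul c v hv' hv =>
      have m1 : v ∈ Ld L h 1 := (Submodule.span_le.2 fun v hv => hv.1 : _ ≤ Ld L h 1) hv'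
      rw [bb55_smulr, smul_mul_assoc]
      exact Submodule.smul_mem _ _ (hv m1)
  have s2 : ∀ f : ℝ, ∀ x ∈ Ze55 L h g f, ∀ y ∈ Ld L h 1, ∀ y' ∈ Ld L h 1, bb55 X y y' * x ∈ ZZ55 L h E := by
    intro f x hx y hy y' hy'
    have := hsp y hy
    induction this using Submodule.span_induction with
    | mem v hv =>
      obtain ⟨hv1, e, he⟩ := hv
      exact s1 f e x hx v ⟨hv1, he⟩ y' hy'
    | zero =>
      have : bb55 X 0 y' * x = 0 := by simp [bb55]
      rw [this]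
      exact zero_mem _
    | add v w hv' hw' hv hw =>
      have m1 : v ∈ Ld L h 1 := (Submodule.span_le.2 fun v hv => hv.1 : _ ≤ Ld L h 1) hv'
      have m2 : w ∈ Ld L h 1 := (Submodule.span_le.2 fun v hv => hv.1 : _ ≤ Ld L h 1) hw'
      rw [bb55_addl, add_mul]
      exact add_mem (hv m1) (hw m2)
    | smul c v hv' hv =>
      have m1 : v ∈ Ld L h 1 := (Submodule.span_le.2 fun v hv => hv.1 : _ ≤ Ld L h 1) hv'
      rw [bb55_smull, smul_mul_assoc]
      exact Submodule.smul_mem _ _ (hv m1)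
  have := hsp x hx
  induction this using Submodule.span_induction with
  | mem v hv =>
    obtain ⟨hv1, e, he⟩ := hv
    exact s2 e v ⟨hv1, he⟩ y hy y' hy'
  | zero =>
    rw [mul_zero]
    exact zero_mem _
  | add v w hv' hw' hv hw =>
    have m1 : v ∈ Ld L h 1 := (Submodule.span_le.2 fun v hv => hv.1 : _ ≤ Ld L h 1) hv'
    have m2 : w ∈ Ld L h 1 := (Submodule.span_le.2 fun v hv => hv.1 : _ ≤ Ld L h 1) hw'
    rw [mul_add]
    exact add_mem (hv m1) (hw m2)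
  | smul c v hv' hv =>
    have m1 : v ∈ Ld L h 1 := (Submodule.span_le.2 fun v hv => hv.1 : _ ≤ Ld L h 1) hv'
    rw [mul_smul_comm]
    exact Submodule.smul_mem _ _ (hv m1)

/-- the twisted commutator -/
lemma twist55 {c x x' u : Matrix n n ℂ} (hx : x ∈ Ld L h 1) (hx' : x' ∈ Ld L h 1) (hu : u ∈ Ld L h 1)
    (huc : E 1 * u = c * x) : ∃ ω : ℂ, c * bb55 X x x' - bb55 X x' x * (X * τ c * Xᴴ) = ω • E 1 := by
  obtain ⟨x1, x2, x3, x4, x5⟩ := shape55 D T hx
  obtain ⟨a1, a2, a3, a4, a5⟩ := shape55 D T hx'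
  obtain ⟨u1, u2, u3, u4, u5⟩ := shape55 D T hu
  obtain ⟨Y1, Y2, Y3, Y4, Y5, Y6⟩ := C.Y_E D T
  obtain ⟨ω, hω⟩ := C.br_one D T hu hx'
  refine ⟨ω, ?_⟩
  rw [← C.bb_sub D T hω]
  have e1 : bb55 X u x' = c * bb55 X x x' := by
    unfold bb55
    have f1 : u * x' = E 1 * u * x' := by
      conv_lhs => rw [← u5]
      rw [add_mul, mul_assoc u, a2, mul_zero, add_zero]
    rw [f1, huc]
    simp only [mul_assoc]
  have e2 : u * E (-1) = x * τ c := by
    have f1 := congrArg τ huc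
    rw [D.inv.mul, D.inv.mul, D.tauE, D.sk u hu.1, D.sk x hx.1, neg_mul, neg_mul] at f1
    exact neg_inj.1 f1
  have e3 : bb55 X x' u = bb55 X x' x * (X * τ c * Xᴴ) := by
    unfold bb55
    have f1 : x' * u * Xᴴ = x' * (u * E (-1)) * Xᴴ := by
      rw [← mul_assoc, mul_assoc (x' * u), Y2]
    have f2 : x' * x * E (-1) = x' * x := by
      have g1 : x' * x = x' * (E 1 * x + x * E (-1)) := by rw [x5]
      rw [mul_add, ← mul_assoc x' (E 1), a1, zero_mul, zero_add, ← mul_assoc] at g1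
      exact g1.symm
    rw [f1, e2]
    calc x' * (x * τ c) * Xᴴ = x' * x * τ c * Xᴴ := by simp only [mul_assoc]
      _ = x' * x * E (-1) * τ c * Xᴴ := by rw [f2]
      _ = x' * x * (Xᴴ * X) * τ c * Xᴴ := by rw [C.left]
      _ = _ := by simp only [mul_assoc]
  rw [e1, e3]

/-- the twist of `bb` -/
lemma twist_bb55 {u v : Matrix n n ℂ} (hu : u ∈ Ld L h 1) (hv : v ∈ Ld L h 1) :
    X * τ (bb55 X u v) * Xᴴ = -bb55 X v u := by
  have h1 := (C.bb_E D T hv hu).1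
  unfold bb55 at h1 ⊢
  rw [D.inv.mul, D.inv.mul, C.tau_Y D T, D.sk u hu.1, D.sk v hv.1]
  have e1 : X * (-Xᴴ * (-v * -u)) * Xᴴ = -(X * Xᴴ * (v * u * Xᴴ)) := by noncomm_ring
  rw [e1, C.right, h1]

/-- the adjoint of `bb` -/
lemma star_bb55 {u v : Matrix n n ℂ} (hu : u ∈ Ld L h 1) (hv : v ∈ Ld L h 1) :
    (bb55 X u v)ᴴ = -bb55 X (th55 X v) (th55 X u) := by
  obtain ⟨u1, u2, u3, u4, u5⟩ := shape55 D T hu
  obtain ⟨v1, v2, v3, v4, v5⟩ := shape55 D T hv
  obtain ⟨Xu, uX⟩ := C.X_u D T hu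
  obtain ⟨Xv, vX⟩ := C.X_u D T hv
  obtain ⟨x1, x2, x3, x4, x5, x6⟩ := C.X_E D T
  have hXvX : X * vᴴ * X = 0 := by
    have f1 : E 0 * vᴴ = vᴴ * E 1 := by
      have := congrArg conjTranspose v3
      rwa [conjTranspose_mul, conjTranspose_mul, D.spec.star, D.spec.star] at this
    rw [mul_assoc, ← x1, ← mul_assoc vᴴ, ← f1, ← mul_assoc, ← mul_assoc, x1, x3, zero_mul, zero_mul]
  have hXuX : X * uᴴ * X = 0 := by
    have f1 : E 0 * uᴴ = uᴴ * E 1 := by
      have := congrArg conjTranspose u3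
      rwa [conjTranspose_mul, conjTranspose_mul, D.spec.star, D.spec.star] at this
    rw [mul_assoc, ← x1, ← mul_assoc uᴴ, ← f1, ← mul_assoc, ← mul_assoc, x1, x3, zero_mul, zero_mul]
  have hXX : X * X = 0 := by
    calc X * X = X * (E 1 * X) := by rw [x1]
      _ = X * E 1 * X := by rw [mul_assoc]
      _ = 0 := by rw [x4, zero_mul]
  have hE : X * vᴴ * uᴴ * E 1 = X * vᴴ * uᴴ := by
    have f1 : uᴴ = E (-1) * uᴴ + uᴴ * E 1 := by
      have := congrArg conjTranspose u5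
      rw [conjTranspose_add, conjTranspose_mul, conjTranspose_mul, D.spec.star, D.spec.star, add_comm] at this
      exact this.symm
    have f2 : vᴴ * E (-1) = 0 := by
      have := congrArg conjTranspose v2
      rwa [conjTranspose_mul, D.spec.star, conjTranspose_zero] at this
    have f3 : X * vᴴ * uᴴ = X * vᴴ * (E (-1) * uᴴ + uᴴ * E 1) := by rw [← f1]
    rw [f3, mul_add, ← mul_assoc (X * vᴴ) (E (-1)), mul_assoc X vᴴ (E (-1)), f2, mul_zero, zero_mul, zero_add,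
      ← mul_assoc, mul_assoc (X * vᴴ * uᴴ) (E 1) (E 1), D.spec.mul, if_pos rfl]
  have e1 : bb55 X (th55 X v) (th55 X u) = (X * vᴴ * X) * uᴴ * Xᴴ - X * vᴴ * uᴴ * (X * Xᴴ) -
      vᴴ * (X * X) * uᴴ * Xᴴ + vᴴ * (X * uᴴ * X) * Xᴴ := by
    unfold bb55 th55
    noncomm_ring
  rw [e1, hXvX, hXX, hXuX, C.right, hE]
  unfold bb55
  rw [conjTranspose_mul, conjTranspose_mul, conjTranspose_conjTranspose]
  simp only [zero_mul, mul_zero, sub_zero, zero_sub, add_zero, neg_neg, mul_assoc]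

end Ct55

end MH
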