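import Pool.Agent.Helper55.UT.Bb3

/-!
Project UT (MP_b8862a_ag): the contact case, the operators `u v Xᴴ + v u Xᴴ` anticommute up to scalars.
-/

set_option linter.unusedSectionVars false

open Matrix

namespace MH

variable {n : Type*} [Fintype n] [DecidableEq n]
variable {h : Matrix n n ℂ} {E : ℝ → Matrix n n ℂ} {Λ : Finset ℝ}
variable {τ : Matrix n n ℂ →ₗ[ℂ] Matrix n n ℂ} {L : Submodule ℂ (Matrix n n ℂ)}

namespace Ct55

variable {X g : Matrix n n ℂ} (C : Ct55 L h E X) (D : Dat τ L h E Λ) (T : Three27 E)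
include C D T

lemma Sy_E {a : Matrix n n ℂ} (ha : a ∈ Sy55 L h X) : E 1 * a = a ∧ a * E 1 = a := by
  induction ha using Submodule.span_induction with
  | mem a ha =>
    obtain ⟨u, hu, v, hv, rfl⟩ := ha
    obtain ⟨h1, h2⟩ := C.bb_E D T hu hv
    obtain ⟨h3, h4⟩ := C.bb_E D T hv hu
    exact ⟨by rw [mul_add, h1, h3], by rw [add_mul, h2, h4]⟩
  | zero => exact ⟨by rw [mul_zero], by rw [zero_mul]⟩
  | add a b _ _ ha hb => exact ⟨by rw [mul_add, ha.1, hb.1], by rw [add_mul, ha.2, hb.2]⟩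
  | smul c a _ ha => exact ⟨by rw [mul_smul_comm, ha.1], by rw [smul_mul_assoc, ha.2]⟩

lemma Sy_star {a : Matrix n n ℂ} (ha : a ∈ Sy55 L h X) : aᴴ ∈ Sy55 L h X := by
  induction ha using Submodule.span_induction with
  | mem a ha =>
    obtain ⟨u, hu, v, hv, rfl⟩ := ha
    rw [conjTranspose_add, C.star_bb55 D T hu hv, C.star_bb55 D T hv hu, ← neg_add]
    exact neg_mem (Submodule.subset_span ⟨_, C.th_mem D T hv, _, C.th_mem D T hu, rfl⟩)
  | zero => rw [conjTranspose_zero]; exact zero_mem _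
  | add a b _ _ ha hb => rw [conjTranspose_add]; exact add_mem ha hb
  | smul c a _ ha => rw [conjTranspose_smul]; exact Submodule.smul_mem _ _ ha

lemma Sy_twist {a : Matrix n n ℂ} (ha : a ∈ Sy55 L h X) : X * τ a * Xᴴ = -a := by
  induction ha using Submodule.span_induction with
  | mem a ha =>
    obtain ⟨u, hu, v, hv, rfl⟩ := ha
    rw [map_add, mul_add, add_mul, C.twist_bb55 D T hu hv, C.twist_bb55 D T hv hu]
    abel
  | zero => rw [map_zero, mul_zero, zero_mul, neg_zero]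
  | add a b _ _ ha hb =>
    rw [map_add, mul_add, add_mul, ha, hb]
    abel
  | smul c a _ ha => rw [map_smul, mul_smul_comm, smul_mul_assoc, ha, smul_neg]

/-- `bb u v` is in the span of `Sy55` and the identity -/
lemma bb_Sy {u v : Matrix n n ℂ} (hu : u ∈ Ld L h 1) (hv : v ∈ Ld L h 1) :
    ∃ t ∈ Sy55 L h X, ∃ c : ℂ, bb55 X u v = t + c • E 1 := by
  obtain ⟨c, hc⟩ := C.br_one D T hu hv
  have h1 := C.bb_sub D T hc
  refine ⟨(1 / 2 : ℂ) • (bb55 X u v + bb55 X v u),
    Submodule.smul_mem _ _ (Submodule.subset_span ⟨u, hu, v, hv, rfl⟩), c / 2, ?_⟩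
  have h2 : (c / 2) • E 1 = (1 / 2 : ℂ) • (bb55 X u v - bb55 X v u) := by
    rw [h1, smul_smul]
    congr 1
    ring
  rw [h2]
  module

section
variable (hleft : ∀ x ∈ Ld L h 1, ∀ y ∈ Ld L h 1, ∀ y' ∈ Ld L h 1, bb55 X y y' * x ∈ ZZ55 L h E)
include hleft

lemma Sy_left {a x : Matrix n n ℂ} (ha : a ∈ Sy55 L h X) (hx : x ∈ Ld L h 1) : a * x ∈ ZZ55 L h E := by
  induction ha using Submodule.span_induction with
  | mem a ha =>
    obtain ⟨u, hu, v, hv, rfl⟩ := ha
    rw [add_mul]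
    exact add_mem (hleft x hx u hu v hv) (hleft x hx v hv u hu)
  | zero => rw [zero_mul]; exact zero_mem _
  | add a b _ _ ha hb => rw [add_mul]; exact add_mem ha hb
  | smul c a _ ha => rw [smul_mul_assoc]; exact Submodule.smul_mem _ _ ha

/-- **The elements anticommute up to scalars.** -/
theorem Sy_anti {a b : Matrix n n ℂ} (ha : a ∈ Sy55 L h X) (hb : b ∈ Sy55 L h X) :
    ∃ c : ℂ, a * b + b * a = c • E 1 := by
  induction hb using Submodule.span_induction with
  | mem b hb =>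
    obtain ⟨x, hx, x', hx', rfl⟩ := hb
    have ht := C.Sy_twist D T ha
    obtain ⟨u, hu, hu1⟩ := mem_ZZ55.1 (C.Sy_left D T hleft ha hx)
    obtain ⟨u', hu', hu1'⟩ := mem_ZZ55.1 (C.Sy_left D T hleft ha hx')
    obtain ⟨ω, hω⟩ := C.twist55 D T hx hx' hu hu1
    obtain ⟨ω', hω'⟩ := C.twist55 D T hx' hx hu' hu1'
    rw [ht] at hω hω'
    refine ⟨ω + ω', ?_⟩
    rw [add_smul, ← hω, ← hω']
    noncomm_ring
  | zero => exact ⟨0, by simp⟩
  | add b c _ _ hb hc =>
    obtain ⟨c1, h1⟩ := hb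
    obtain ⟨c2, h2⟩ := hc
    refine ⟨c1 + c2, ?_⟩
    rw [add_smul, ← h1, ← h2]
    noncomm_ring
  | smul c b _ hb =>
    obtain ⟨c1, h1⟩ := hb
    refine ⟨c * c1, ?_⟩
    rw [mul_smul, ← h1, mul_smul_comm, smul_mul_assoc, smul_add]

/-- **The span with the identity is closed under multiplication.** -/
theorem Sy_mul {a b : Matrix n n ℂ} (ha : a ∈ Sy55 L h X) (hb : b ∈ Sy55 L h X) :
    ∃ t ∈ Sy55 L h X, ∃ c : ℂ, a * b = t + c • E 1 := by
  have key : ∀ x ∈ Ld L h 1, ∀ x' ∈ Ld L h 1, ∃ t ∈ Sy55 L h X, ∃ c : ℂ, a * bb55 X x x' = t + c • E 1 := by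
    intro x hx x' hx'
    obtain ⟨u, hu, hu1⟩ := mem_ZZ55.1 (C.Sy_left D T hleft ha hx)
    obtain ⟨t, ht, c, hc⟩ := C.bb_Sy D T hu hx'
    refine ⟨t, ht, c, ?_⟩
    rw [← hc]
    obtain ⟨-, -, -, -, u5⟩ := shape55 D T hu
    obtain ⟨-, a2, -⟩ := shape55 D T hx'
    unfold bb55
    have f1 : u * x' = E 1 * u * x' := by
      conv_lhs => rw [← u5]
      rw [add_mul, mul_assoc u, a2, mul_zero, add_zero]
    rw [f1, hu1]
    simp only [mul_assoc]
  induction hb using Submodule.span_induction with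
  | mem b hb =>
    obtain ⟨x, hx, x', hx', rfl⟩ := hb
    obtain ⟨t, ht, c, hc⟩ := key x hx x' hx'
    obtain ⟨t', ht', c', hc'⟩ := key x' hx' x hx
    refine ⟨t + t', add_mem ht ht', c + c', ?_⟩
    rw [mul_add, hc, hc', add_smul]
    abel
  | zero => exact ⟨0, zero_mem _, 0, by simp⟩
  | add b c _ _ hb hc =>
    obtain ⟨t, ht, c1, h1⟩ := hb
    obtain ⟨t', ht', c2, h2⟩ := hc
    refine ⟨t + t', add_mem ht ht', c1 + c2, ?_⟩
    rw [mul_add, h1, h2, add_smul]
    abel
  | smul c b _ hb =>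
    obtain ⟨t, ht, c1, h1⟩ := hb
    refine ⟨c • t, Submodule.smul_mem _ _ ht, c * c1, ?_⟩
    rw [mul_smul_comm, h1, smul_add, smul_smul]

end

/-- If `L` is simple, the elements of degree zero act on the top eigenspace by elements of `Sy55` and scalars. -/
theorem zero_Sy (hsmp : ∀ K ≤ L, (∀ X ∈ L, ∀ Y ∈ K, X * Y - Y * X ∈ K) → K = ⊥ ∨ K = L) (hE1 : E 1 ≠ 0)
    {z : Matrix n n ℂ} (hz : z ∈ Ld L h 0) : ∃ t ∈ Sy55 L h X, ∃ c : ℂ, E 1 * z = t + c • E 1 := by
  have hX0 : X ≠ 0 := by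
    intro h0
    apply hE1
    rw [← C.right, h0, zero_mul]
  have hhX : h * X - X * h = (2 : ℂ) • X := by
    have := C.mem.2
    simpa using this
  have hXh : X * Xᴴ - Xᴴ * X = h := by rw [C.right, C.left, h_eq55 D T]
  -- the span of the brackets
  obtain ⟨S, hS⟩ : ∃ S : Submodule ℂ (Matrix n n ℂ), S =
    Submodule.span ℂ ({w | ∃ u ∈ Ld L h 1, ∃ v ∈ Ld L h 1, w = u * vᴴ - vᴴ * u} ∪ {h}) := ⟨_, rfl⟩
  have hSL : S ≤ Ld L h 0 := by
    rw [hS, Submodule.span_le]
    rintro w (⟨u, hu, v, hv, rfl⟩ | hw)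
    · exact D.br_zero55 hu hv
    · rw [Set.mem_singleton_iff] at hw
      rw [hw]
      exact ⟨D.mem, by simp⟩
  obtain ⟨z1, hz1, hp⟩ := decomp (I := S) z
  have hz2 : z - z1 ∈ Ld L h 0 := sub_mem hz (hSL hz1)
  obtain ⟨y, hy⟩ : ∃ y, y = z - z1 := ⟨_, rfl⟩
  rw [← hy] at hp hz2
  -- `y` commutes with everything of degree different from zero
  have hp1 : ∀ u ∈ Ld L h 1, ∀ v ∈ Ld L h 1, ((u * vᴴ - vᴴ * u) * y).trace = 0 := by
    intro u hu v hv
    have h1 := hp (v * uᴴ - uᴴ * v) (by rw [hS]; exact Submodule.subset_span (Or.inl ⟨v, hv, u, hu, rfl⟩))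
    rw [conjTranspose_sub, conjTranspose_mul, conjTranspose_mul, conjTranspose_conjTranspose] at h1
    exact h1
  have hp2 : (h * y).trace = 0 := by
    have h1 := hp h (by rw [hS]; exact Submodule.subset_span (Or.inr rfl))
    rwa [D.spec.hh] at h1
  have hp1' : ∀ u ∈ Ld L h 1, ∀ v ∈ Ld L h 1, ((u * vᴴ - vᴴ * u) * yᴴ).trace = 0 := by
    intro u hu v hv
    have h1 := congrArg star (hp1 v hv u hu)
    rw [← trace_conjTranspose, conjTranspose_mul, conjTranspose_sub, conjTranspose_mul, conjTranspose_mul,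
      conjTranspose_conjTranspose, trace_mul_comm, star_zero] at h1
    exact h1
  have hp2' : (h * yᴴ).trace = 0 := by
    have h1 := congrArg star hp2
    rw [← trace_conjTranspose, conjTranspose_mul, D.spec.hh, trace_mul_comm, star_zero] at h1
    exact h1
  have hcom : ∀ w ∈ Ld L h 0, (∀ u ∈ Ld L h 1, ∀ v ∈ Ld L h 1, ((u * vᴴ - vᴴ * u) * w).trace = 0) →
      (h * w).trace = 0 → (∀ u ∈ Ld L h 1, w * u - u * w = 0) ∧ w * X - X * w = 0 := by
    intro w hw h1 h2
    constructor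
    · intro u hu
      have h3 := D.br_one55 hw hu
      apply eq_zero_of_trace
      have h4 : ((w * u - u * w)ᴴ * (w * u - u * w)).trace =
          ((u * (w * u - u * w)ᴴ - (w * u - u * w)ᴴ * u) * w).trace := by
        rw [mul_sub, sub_mul, trace_sub, trace_sub, ← mul_assoc, ← mul_assoc, trace_mul_comm _ u]
        congr 2
        simp only [mul_assoc]
      rw [h4, h1 u hu _ h3]
      rfl
    · have h3 := Dat.Ld_bracket D.br hw C.mem
      rw [zero_add] at h3
      obtain ⟨c, hc⟩ := C.line _ h3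
      have h4 : (Xᴴ * (w * X - X * w)).trace = (h * w).trace := by
        rw [← hXh, mul_sub, sub_mul, trace_sub, trace_sub, ← mul_assoc, ← mul_assoc, trace_mul_comm _ X]
        congr 2
        simp only [mul_assoc]
      rw [h2, hc, mul_smul_comm, trace_smul, smul_eq_mul] at h4
      have h5 : (Xᴴ * X).trace ≠ 0 := by
        intro h0
        have := trace_pos hX0
        rw [h0] at this
        simp at this
      rw [hc, (mul_eq_zero.1 h4).resolve_right h5, zero_smul]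
  have hy1 := hcom y hz2 hp1 hp2
  have hy2 := hcom yᴴ (D.star_zero55 hz2) hp1' hp2'
  -- the ideal
  obtain ⟨K, hK⟩ : ∃ K : Submodule ℂ (Matrix n n ℂ), ∀ w, w ∈ K ↔ w ∈ Ld L h 0 ∧
      (∀ u ∈ Ld L h 1, w * u - u * w = 0 ∧ w * uᴴ - uᴴ * w = 0) ∧ w * X - X * w = 0 ∧ w * Xᴴ - Xᴴ * w = 0 := by
    refine ⟨{ carrier := {w | w ∈ Ld L h 0 ∧
                (∀ u ∈ Ld L h 1, w * u - u * w = 0 ∧ w * uᴴ - uᴴ * w = 0) ∧ w * X - X * w = 0 ∧ w * Xᴴ - Xᴴ * w = 0}
              add_mem' := ?_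
              zero_mem' := ?_
              smul_mem' := ?_ }, fun w => Iff.rfl⟩
    · rintro a b ⟨a1, a2, a3, a4⟩ ⟨b1, b2, b3, b4⟩
      have e1 : ∀ c : Matrix n n ℂ, (a + b) * c - c * (a + b) = (a * c - c * a) + (b * c - c * b) := by
        intro c
        noncomm_ring
      refine ⟨add_mem a1 b1, fun u hu => ⟨?_, ?_⟩, ?_, ?_⟩
      · rw [e1, (a2 u hu).1, (b2 u hu).1, add_zero]
      · rw [e1, (a2 u hu).2, (b2 u hu).2, add_zero]
      · rw [e1, a3, b3, add_zero]
      · rw [e1, a4, b4, add_zero]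
    · exact ⟨zero_mem _, fun u hu => ⟨by simp, by simp⟩, by simp, by simp⟩
    · rintro c a ⟨a1, a2, a3, a4⟩
      have e1 : ∀ d : Matrix n n ℂ, (c • a) * d - d * (c • a) = c • (a * d - d * a) := by
        intro d
        rw [smul_mul_assoc, mul_smul_comm, smul_sub]
      refine ⟨Submodule.smul_mem _ _ a1, fun u hu => ⟨?_, ?_⟩, ?_, ?_⟩
      · rw [e1, (a2 u hu).1, smul_zero]
      · rw [e1, (a2 u hu).2, smul_zero]
      · rw [e1, a3, smul_zero]
      · rw [e1, a4, smul_zero]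
  have hst : ∀ w ∈ Ld L h 0, ∀ u, wᴴ * u - u * wᴴ = 0 → w * uᴴ - uᴴ * w = 0 := by
    intro w _ u h1
    have h2 := congrArg conjTranspose h1
    rw [conjTranspose_sub, conjTranspose_mul, conjTranspose_mul, conjTranspose_conjTranspose,
      conjTranspose_zero] at h2
    rw [← neg_eq_zero, ← h2]
    abel
  have hyK : y ∈ K := by
    rw [hK]
    exact ⟨hz2, fun u hu => ⟨hy1.1 u hu, hst y hz2 u (hy2.1 u hu)⟩, hy1.2, hst y hz2 X hy2.2⟩
  have hKid : ∀ x ∈ L, ∀ w ∈ K, x * w - w * x ∈ K := by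
    intro x hx w hw
    obtain ⟨w1, w2, w3, w4⟩ := (hK w).1 hw
    obtain ⟨a, ha, b, hb, c, hc, e, he, f, hf, rfl⟩ := D.five27 T hx
    obtain ⟨ca, hca⟩ := C.line a ha
    have hf' : fᴴ ∈ Ld L h 2 := by
      have := D.Ld_star27 hf
      rwa [neg_neg] at this
    obtain ⟨cf, hcf⟩ := C.line _ hf'
    have hf2 : f = star cf • Xᴴ := by
      have := congrArg conjTranspose hcf
      rwa [conjTranspose_conjTranspose, conjTranspose_smul] at this
    have q1 : a * w - w * a = 0 := by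
      rw [hca, smul_mul_assoc, mul_smul_comm, ← smul_sub, ← neg_sub (w * X), w3, neg_zero, smul_zero]
    have q2 : b * w - w * b = 0 := by rw [← neg_sub, (w2 b hb).1, neg_zero]
    have q3 : e * w - w * e = 0 := by
      have := (w2 eᴴ (D.star_mone55 he)).2
      rw [conjTranspose_conjTranspose] at this
      rw [← neg_sub, this, neg_zero]
    have q4 : f * w - w * f = 0 := by
      rw [hf2, smul_mul_assoc, mul_smul_comm, ← smul_sub, ← neg_sub (w * Xᴴ), w4, neg_zero, smul_zero]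
    have q5 : (a + b + c + e + f) * w - w * (a + b + c + e + f) = c * w - w * c := by
      have : (a + b + c + e + f) * w - w * (a + b + c + e + f) = (a * w - w * a) + (b * w - w * b) +
        (c * w - w * c) + (e * w - w * e) + (f * w - w * f) := by noncomm_ring
      rw [this, q1, q2, q3, q4]
      abel
    rw [q5, hK]
    have hcw := Dat.Ld_bracket D.br hc w1
    rw [add_zero] at hcw
    have jac : ∀ d : Matrix n n ℂ, (c * w - w * c) * d - d * (c * w - w * c) =
        (c * (w * d - d * w) - (w * d - d * w) * c) - (w * (c * d - d * c) - (c * d - d * c) * w) := by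
      intro d
      noncomm_ring
    refine ⟨hcw, fun u hu => ⟨?_, ?_⟩, ?_, ?_⟩
    · rw [jac, (w2 u hu).1, (w2 _ (D.br_one55 hc hu)).1]
      simp
    · have h1 : c * uᴴ - uᴴ * c = (u * cᴴ - cᴴ * u)ᴴ := by
        rw [conjTranspose_sub, conjTranspose_mul, conjTranspose_mul, conjTranspose_conjTranspose]
      have h2 := D.br_one55 (D.star_zero55 hc) hu
      have h3 := (w2 _ (neg_mem h2)).2
      rw [neg_sub, ← h1] at h3
      rw [jac, (w2 u hu).2, h3]
      simp
    · have h1 := Dat.Ld_bracket D.br hc C.mem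
      rw [zero_add] at h1
      obtain ⟨c1, hc1⟩ := C.line _ h1
      rw [jac, w3, hc1, mul_smul_comm, smul_mul_assoc, ← smul_sub, w3]
      simp
    · have h1 := Dat.Ld_bracket D.br (D.star_zero55 hc) C.mem
      rw [zero_add] at h1
      obtain ⟨c1, hc1⟩ := C.line _ h1
      have h2 := congrArg conjTranspose hc1
      rw [conjTranspose_sub, conjTranspose_mul, conjTranspose_mul, conjTranspose_conjTranspose,
        conjTranspose_smul] at h2
      have h3 : c * Xᴴ - Xᴴ * c = -(star c1 • Xᴴ) := by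
        rw [← h2]
        abel
      rw [jac, w4, h3, mul_neg, neg_mul, mul_smul_comm, smul_mul_assoc, sub_neg_eq_add, neg_add_eq_sub,
        ← smul_sub, ← neg_sub (w * Xᴴ), w4]
      simp
  have hy0 : y = 0 := by
    rcases hsmp K (fun w hw => ((hK w).1 hw).1.1) hKid with h1 | h1
    · rw [h1, Submodule.mem_bot] at hyK
      exact hyK
    · exfalso
      have h2 : h ∈ K := by rw [h1]; exact D.mem
      have h3 := ((hK h).1 h2).2.2.1
      rw [hhX] at h3
      exact hX0 ((smul_eq_zero.1 h3).resolve_left two_ne_zero)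
  have hzz : z = z1 := by
    rw [hy] at hy0
    exact sub_eq_zero.1 hy0
  rw [hzz]
  clear hp hp1 hp2 hp1' hp2' hy1 hy2 hyK hy0 hzz hz2 hcom hy
  rw [hS] at hz1
  induction hz1 using Submodule.span_induction with
  | mem w hw =>
    rcases hw with ⟨u, hu, v, hv, rfl⟩ | hw
    · have hq := C.th_mem D T hv
      obtain ⟨t, ht, c, hc⟩ := C.bb_Sy D T hu hq
      refine ⟨-t, neg_mem ht, -c, ?_⟩
      have h1 := C.th_th D T hv
      have h2 : vᴴ = Xᴴ * th55 X v - th55 X v * Xᴴ := by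
        have h3 := congrArg conjTranspose h1
        rw [th55_star, conjTranspose_neg] at h3
        rw [← neg_inj, ← h3]
        abel
      obtain ⟨u1, u2, u3, u4, u5⟩ := shape55 D T hu
      obtain ⟨Y1, Y2, Y3, Y4, Y5, Y6⟩ := C.Y_E D T
      have h3 : E 1 * vᴴ = 0 := by
        obtain ⟨v1, -⟩ := shape55 D T hv
        have := congrArg conjTranspose v1
        rwa [conjTranspose_mul, D.spec.star, conjTranspose_zero] at this
      have h4 : E 1 * u * Xᴴ = 0 := by
        rw [← u3, mul_assoc, Y3, mul_zero]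
      have h5 : E 1 * (u * vᴴ - vᴴ * u) = -bb55 X u (th55 X v) := by
        rw [mul_sub, ← mul_assoc, ← mul_assoc (E 1) vᴴ, h3, zero_mul, sub_zero, h2]
        have h6 : E 1 * u * (Xᴴ * th55 X v - th55 X v * Xᴴ) =
            E 1 * u * Xᴴ * th55 X v - E 1 * bb55 X u (th55 X v) := by
          unfold bb55
          noncomm_ring
        rw [h6, h4, zero_mul, zero_sub, (C.bb_E D T hu hq).1]
      rw [h5, hc, neg_add, neg_smul]
    · rw [Set.mem_singleton_iff] at hw
      refine ⟨0, zero_mem _, 1, ?_⟩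
      rw [hw, D.spec.mul_h]
      simp
  | zero => exact ⟨0, zero_mem _, 0, by simp⟩
  | add a b _ _ ha hb =>
    obtain ⟨t, ht, c1, h1⟩ := ha
    obtain ⟨t', ht', c2, h2⟩ := hb
    refine ⟨t + t', add_mem ht ht', c1 + c2, ?_⟩
    rw [mul_add, h1, h2, add_smul]
    abel
  | smul c a _ ha =>
    obtain ⟨t, ht, c1, h1⟩ := ha
    refine ⟨c • t, Submodule.smul_mem _ _ ht, c * c1, ?_⟩
    rw [mul_smul_comm, h1, smul_add, smul_smul]

end Ct55

end MH
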