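import Pool.Agent.Helper55.UT.Bb4

/-!
Project UT (MP_b8862a_ag): the contact case, two different eigenvalues: the top eigenspace has dimension at most two.
-/

set_option linter.unusedSectionVars false

open Matrix

namespace MH

variable {n : Type*} [Fintype n] [DecidableEq n]
variable {h : Matrix n n ℂ} {E : ℝ → Matrix n n ℂ} {Λ : Finset ℝ}
variable {τ : Matrix n n ℂ →ₗ[ℂ] Matrix n n ℂ} {L : Submodule ℂ (Matrix n n ℂ)}

/-- a matrix with image in a span of at most `k` vectors -/
lemma rank_le_span55 {A : Matrix n n ℂ} {s : Finset (n → ℂ)} (hA : ∀ u, A *ᵥ u ∈ Submodule.span ℂ (s : Set (n → ℂ))) :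
    A.rank ≤ s.card := by
  have h1 : LinearMap.range (Matrix.mulVecLin A) ≤ Submodule.span ℂ (s : Set (n → ℂ)) := by
    rintro _ ⟨u, rfl⟩
    exact hA u
  exact (Submodule.finrank_mono h1).trans (finrank_span_finset_le_card s)

namespace Ct55

variable {X g : Matrix n n ℂ} (C : Ct55 L h E X) (D : Dat τ L h E Λ) (T : Three27 E)
include C D T

/-- If `L` is simple and `ZZ55` is stable under left multiplication, the top eigenspace has dimension at most two. -/
theorem rank_two (hsmp : ∀ K ≤ L, (∀ X ∈ L, ∀ Y ∈ K, X * Y - Y * X ∈ K) → K = ⊥ ∨ K = L) (hE1 : E 1 ≠ 0)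
    (hleft : ∀ x ∈ Ld L h 1, ∀ y ∈ Ld L h 1, ∀ y' ∈ Ld L h 1, bb55 X y y' * x ∈ ZZ55 L h E) : (E 1).rank ≤ 2 := by
  classical
  have hEE : E 1 * E 1 = E 1 := by rw [D.spec.mul, if_pos rfl]
  -- irreducibility
  have hirr : ∀ W : Submodule ℂ (n → ℂ), W ≠ ⊥ → (∀ w ∈ W, E 1 *ᵥ w = w) → (∀ a ∈ Sy55 L h X, ∀ w ∈ W, a *ᵥ w ∈ W) →
      ∀ u, E 1 *ᵥ u ∈ W := by
    intro W h1 h2 h3 u
    refine D.top_irr98 (top27_55 D T) h1 h2 (fun x hx w hw => ?_) u
    obtain ⟨t, ht, c, hc⟩ := C.zero_Sy D T hsmp hE1 hx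
    have h4 : x *ᵥ w = t *ᵥ w + c • w := by
      have e1 : x *ᵥ w = (x * E 1) *ᵥ w := by rw [← mulVec_mulVec, h2 w hw]
      rw [e1, ← D.Ld_comm_E98 hx, hc, add_mulVec, smul_mulVec, h2 w hw]
    rw [h4]
    exact W.add_mem (h3 t ht w hw) (W.smul_mem _ hw)
  have hmove : ∀ x : Matrix n n ℂ, x ≠ 0 → ∃ u, x *ᵥ u ≠ 0 := by
    intro x hx
    by_contra hcon
    push Not at hcon
    apply hx
    apply Matrix.toLin'.injective
    apply LinearMap.ext
    intro v
    rw [Matrix.toLin'_apply, hcon v, map_zero, LinearMap.zero_apply]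
  -- squares
  have hsq : ∀ a ∈ Sy55 L h X, aᴴ = a → a ≠ 0 → ∃ q : ℂ, q ≠ 0 ∧ a * a = q • E 1 := by
    intro a ha has ha0
    obtain ⟨c, hc⟩ := C.Sy_anti D T hleft ha ha
    refine ⟨c / 2, ?_, ?_⟩
    · intro h0
      have h1 : c = 0 := by
        have := div_eq_zero_iff.1 h0
        simpa using this
      rw [h1, zero_smul, ← two_smul ℂ] at hc
      have h2 := (smul_eq_zero.1 hc).resolve_left two_ne_zero
      apply ha0
      apply eq_zero_of_mul
      rw [has, h2]
    · have h1 : a * a = (1 / 2 : ℂ) • (a * a + a * a) := by module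
      rw [h1, hc, smul_smul]
      congr 1
      ring
  have hSE := fun {a : Matrix n n ℂ} (ha : a ∈ Sy55 L h X) => C.Sy_E D T ha
  -- hermitian elements
  by_cases h0 : ∀ a ∈ Sy55 L h X, a = 0
  · obtain ⟨v, hv⟩ := hmove _ hE1
    have h1 := hirr (Submodule.span ℂ {E 1 *ᵥ v}) (by
      intro h2
      apply hv
      have : E 1 *ᵥ v ∈ Submodule.span ℂ {E 1 *ᵥ v} := Submodule.mem_span_singleton_self _
      rwa [h2, Submodule.mem_bot] at this) (by
      intro w hw
      obtain ⟨c, rfl⟩ := Submodule.mem_span_singleton.1 hw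
      rw [mulVec_smul, mulVec_mulVec, hEE]) (by
      intro a ha w _
      rw [h0 a ha, zero_mulVec]
      exact zero_mem _)
    have h2 := rank_le_span55 (A := E 1) (s := {E 1 *ᵥ v}) (by
      intro u
      rw [Finset.coe_singleton]
      exact h1 u)
    rw [Finset.card_singleton] at h2
    omega
  push Not at h0
  obtain ⟨a0, ha0, ha0n⟩ := h0
  obtain ⟨a, ha, has, han⟩ : ∃ a ∈ Sy55 L h X, aᴴ = a ∧ a ≠ 0 := by
    by_cases h1 : a0 + a0ᴴ = 0
    · refine ⟨Complex.I • a0, Submodule.smul_mem _ _ ha0, ?_, ?_⟩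
      · rw [conjTranspose_smul]
        have h2 : a0ᴴ = -a0 := by
          rw [← add_eq_zero_iff_neg_eq.1 h1]
        have h3 : star Complex.I = -Complex.I := Complex.conj_I
        rw [h2, h3, smul_neg, neg_smul, neg_neg]
      · intro h2
        exact ha0n ((smul_eq_zero.1 h2).resolve_left Complex.I_ne_zero)
    · refine ⟨a0 + a0ᴴ, add_mem ha0 (C.Sy_star D T ha0), ?_, h1⟩
      rw [conjTranspose_add, conjTranspose_conjTranspose, add_comm]
  obtain ⟨q, hq, haa⟩ := hsq a ha has han
  -- an eigenvector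
  obtain ⟨w, lam, hlam, hw0, hwE, hwa⟩ : ∃ w : n → ℂ, ∃ lam : ℂ, lam ≠ 0 ∧ w ≠ 0 ∧ E 1 *ᵥ w = w ∧ a *ᵥ w = lam • w := by
    obtain ⟨l, hl⟩ : ∃ l : ℂ, l * l = q := by
      obtain ⟨z, hz⟩ := IsAlgClosed.exists_pow_nat_eq q (n := 2) (by norm_num)
      exact ⟨z, by rw [← sq, hz]⟩
    have hl0 : l ≠ 0 := by
      rintro rfl
      apply hq
      rw [← hl, mul_zero]
    obtain ⟨v, hv⟩ := hmove a han
    have haE : a *ᵥ (E 1 *ᵥ v) = a *ᵥ v := by rw [mulVec_mulVec, (hSE ha).2]
    have hEa : E 1 *ᵥ (a *ᵥ v) = a *ᵥ v := by rw [mulVec_mulVec, (hSE ha).1]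
    have haav : a *ᵥ (a *ᵥ v) = q • (E 1 *ᵥ v) := by rw [mulVec_mulVec, haa, smul_mulVec]
    by_cases h1 : a *ᵥ v + l • (E 1 *ᵥ v) = 0
    · refine ⟨E 1 *ᵥ v, -l, neg_ne_zero.2 hl0, ?_, ?_, ?_⟩
      · intro h2
        apply hv
        rw [← haE, h2, mulVec_zero]
      · rw [mulVec_mulVec, hEE]
      · rw [haE, neg_smul]
        exact eq_neg_of_add_eq_zero_left h1
    · refine ⟨a *ᵥ v + l • (E 1 *ᵥ v), l, hl0, h1, ?_, ?_⟩
      · rw [mulVec_add, mulVec_smul, hEa, mulVec_mulVec, hEE]
      · rw [mulVec_add, mulVec_smul, haav, haE, smul_add, smul_smul, hl, add_comm]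
  by_cases hB : ∀ b ∈ Sy55 L h X, bᴴ = b → a * b + b * a = 0 → b = 0
  · -- only multiples of `a`
    have hmul : ∀ c ∈ Sy55 L h X, ∃ e : ℂ, c = e • a := by
      intro c hc
      obtain ⟨κ, hκ⟩ := C.Sy_anti D T hleft hc ha
      obtain ⟨c', hc'⟩ : ∃ c', c' = c - (κ / (2 * q)) • a := ⟨_, rfl⟩
      have hc'm : c' ∈ Sy55 L h X := by
        rw [hc']
        exact sub_mem hc (Submodule.smul_mem _ _ ha)
      have h1 : c' * a + a * c' = 0 := by
        have e1 : c' * a + a * c' = (c * a + a * c) - (κ / (2 * q)) • (a * a + a * a) := by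
          rw [hc', sub_mul, mul_sub, smul_mul_assoc, mul_smul_comm]
          module
        rw [e1, hκ, haa, ← two_smul ℂ (q • E 1), smul_smul, smul_smul, ← sub_smul]
        have : κ - κ / (2 * q) * 2 * q = 0 := by
          field_simp
          ring
        rw [this, zero_smul]
      have h2 : a * c'ᴴ + c'ᴴ * a = 0 := by
        have := congrArg conjTranspose h1
        rwa [conjTranspose_add, conjTranspose_mul, conjTranspose_mul, has, conjTranspose_zero] at this
      have h3 := hB (c' + c'ᴴ) (add_mem hc'm (C.Sy_star D T hc'm)) (by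
        rw [conjTranspose_add, conjTranspose_conjTranspose, add_comm]) (by
        have : a * (c' + c'ᴴ) + (c' + c'ᴴ) * a = (c' * a + a * c') + (a * c'ᴴ + c'ᴴ * a) := by noncomm_ring
        rw [this, h1, h2, add_zero])
      have h4 := hB (Complex.I • (c' - c'ᴴ)) (Submodule.smul_mem _ _ (sub_mem hc'm (C.Sy_star D T hc'm))) (by
        rw [conjTranspose_smul, conjTranspose_sub, conjTranspose_conjTranspose]
        have h3 : star Complex.I = -Complex.I := Complex.conj_I
        rw [h3, neg_smul, ← smul_neg, neg_sub]) (by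
        have : a * (Complex.I • (c' - c'ᴴ)) + (Complex.I • (c' - c'ᴴ)) * a =
            Complex.I • ((c' * a + a * c') - (a * c'ᴴ + c'ᴴ * a)) := by
          rw [mul_smul_comm, smul_mul_assoc, ← smul_add]
          congr 1
          noncomm_ring
        rw [this, h1, h2, sub_zero, smul_zero])
      have h5 := (smul_eq_zero.1 h4).resolve_left Complex.I_ne_zero
      have h6 : c' = (1 / 2 : ℂ) • ((c' + c'ᴴ) + (c' - c'ᴴ)) := by module
      rw [h3, h5, add_zero, smul_zero] at h6
      refine ⟨κ / (2 * q), ?_⟩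
      rw [hc'] at h6
      exact sub_eq_zero.1 h6
    have h1 := hirr (Submodule.span ℂ {w}) (by
      intro h2
      apply hw0
      have : w ∈ Submodule.span ℂ {w} := Submodule.mem_span_singleton_self _
      rwa [h2, Submodule.mem_bot] at this) (by
      intro w' hw'
      obtain ⟨c, rfl⟩ := Submodule.mem_span_singleton.1 hw'
      rw [mulVec_smul, hwE]) (by
      intro c hc w' hw'
      obtain ⟨e, rfl⟩ := hmul c hc
      obtain ⟨f, rfl⟩ := Submodule.mem_span_singleton.1 hw'
      rw [mulVec_smul, smul_mulVec, hwa]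
      exact Submodule.smul_mem _ _ (Submodule.smul_mem _ _ (Submodule.smul_mem _ _
        (Submodule.mem_span_singleton_self _))))
    have h2 := rank_le_span55 (A := E 1) (s := {w}) (by
      intro u
      rw [Finset.coe_singleton]
      exact h1 u)
    rw [Finset.card_singleton] at h2
    omega
  push Not at hB
  obtain ⟨b, hb, hbs, hab, hbn⟩ := hB
  obtain ⟨r, hr, hbb⟩ := hsq b hb hbs hbn
  have hba : b * a = -(a * b) := by
    rw [eq_neg_iff_add_eq_zero, add_comm]
    exact hab
  -- all elements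
  have hmul : ∀ c ∈ Sy55 L h X, ∃ e f k : ℂ, c = e • a + f • b + k • (b * a) := by
    intro c hc
    obtain ⟨κ, hκ⟩ := C.Sy_anti D T hleft hc ha
    obtain ⟨κ', hκ'⟩ := C.Sy_anti D T hleft hc hb
    obtain ⟨c', hc'⟩ : ∃ c', c' = c - (κ / (2 * q)) • a - (κ' / (2 * r)) • b := ⟨_, rfl⟩
    have hc'm : c' ∈ Sy55 L h X := by
      rw [hc']
      exact sub_mem (sub_mem hc (Submodule.smul_mem _ _ ha)) (Submodule.smul_mem _ _ hb)
    have h1 : c' * a + a * c' = 0 := by
      have e1 : c' * a + a * c' = (c * a + a * c) - (κ / (2 * q)) • (a * a + a * a) -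
          (κ' / (2 * r)) • (a * b + b * a) := by
        rw [hc', sub_mul, mul_sub, sub_mul, mul_sub, smul_mul_assoc, mul_smul_comm, smul_mul_assoc, mul_smul_comm]
        module
      rw [e1, hκ, haa, hab, smul_zero, sub_zero, ← two_smul ℂ (q • E 1), smul_smul, smul_smul, ← sub_smul]
      have : κ - κ / (2 * q) * 2 * q = 0 := by
        field_simp
        ring
      rw [this, zero_smul]
    have h2 : c' * b + b * c' = 0 := by
      have e1 : c' * b + b * c' = (c * b + b * c) - (κ / (2 * q)) • (a * b + b * a) -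
          (κ' / (2 * r)) • (b * b + b * b) := by
        rw [hc', sub_mul, mul_sub, sub_mul, mul_sub, smul_mul_assoc, mul_smul_comm, smul_mul_assoc, mul_smul_comm]
        module
      rw [e1, hκ', hbb, hab, smul_zero, sub_zero, ← two_smul ℂ (r • E 1), smul_smul, smul_smul, ← sub_smul]
      have : κ' - κ' / (2 * r) * 2 * r = 0 := by
        field_simp
        ring
      rw [this, zero_smul]
    have h1' : c' * a = -(a * c') := eq_neg_of_add_eq_zero_left h1
    have h2' : c' * b = -(b * c') := eq_neg_of_add_eq_zero_left h2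
    obtain ⟨t, ht, lam0, hlam0⟩ := C.Sy_mul D T hleft ha hb
    obtain ⟨μ, hμ⟩ := C.Sy_anti D T hleft hc'm ht
    have hcE := hSE hc'm
    have h3 : c' * (a * b) = a * b * c' := by
      calc c' * (a * b) = c' * a * b := by rw [mul_assoc]
        _ = -(a * (c' * b)) := by rw [h1', neg_mul, mul_assoc]
        _ = a * (b * c') := by rw [h2', mul_neg, neg_neg]
        _ = _ := by rw [mul_assoc]
    have htt : t = a * b - lam0 • E 1 := by rw [hlam0, add_sub_cancel_right]
    have h4 : c' * t = t * c' := by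
      rw [htt, mul_sub, sub_mul, h3, mul_smul_comm, smul_mul_assoc, hcE.1, hcE.2]
    have h5 : c' * (a * b) - lam0 • c' = (μ / 2) • E 1 := by
      have e1 : c' * (a * b) - lam0 • c' = c' * t := by
        rw [htt, mul_sub, mul_smul_comm, hcE.2]
      rw [e1]
      have e2 : c' * t = (1 / 2 : ℂ) • (c' * t + t * c') := by
        rw [← h4]
        module
      rw [e2, hμ, smul_smul]
      congr 1
      ring
    have h6 : c' * (a * b) + lam0 • c' = (μ / 2) • E 1 := by
      have e1 : a * (c' * (a * b) - lam0 • c') * a = q • (c' * (a * b) + lam0 • c') := by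
        have f1 : a * (c' * (a * b)) * a = q • (c' * (a * b)) := by
          calc a * (c' * (a * b)) * a = -(c' * a) * (a * b) * a := by
                rw [h1', neg_neg]
                simp only [mul_assoc]
            _ = -(c' * (a * a) * (b * a)) := by noncomm_ring
            _ = q • (c' * (a * b)) := by
                rw [haa, hba, mul_smul_comm, hcE.2, smul_mul_assoc, mul_neg, smul_neg, neg_neg]
        have f2 : a * (lam0 • c') * a = -(q • (lam0 • c')) := by
          calc a * (lam0 • c') * a = lam0 • (a * (c' * a)) := by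
                rw [mul_smul_comm, smul_mul_assoc, mul_assoc]
            _ = -(lam0 • (a * a * c')) := by rw [h1', mul_neg, smul_neg, mul_assoc]
            _ = _ := by rw [haa, smul_mul_assoc, hcE.1, smul_comm]
        rw [mul_sub, sub_mul, f1, f2, smul_add, sub_neg_eq_add]
      rw [h5, mul_smul_comm, (hSE ha).2, smul_mul_assoc, haa, smul_comm] at e1
      have e2 := congrArg (fun x => q⁻¹ • x) e1
      simp only [smul_smul, inv_mul_cancel₀ hq, inv_mul_cancel_left₀ hq, one_smul] at e2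
      exact e2.symm
    have h7 : c' * (a * b) = (μ / 2) • E 1 := by
      have e1 : (2 : ℂ) • (c' * (a * b)) = (2 : ℂ) • ((μ / 2) • E 1) := by
        have : (2 : ℂ) • (c' * (a * b)) = (c' * (a * b) - lam0 • c') + (c' * (a * b) + lam0 • c') := by module
        rw [this, h5, h6]
        module
      exact smul_right_injective _ (two_ne_zero : (2 : ℂ) ≠ 0) e1
    have h8 : (r * q) • c' = (μ / 2) • (b * a) := by
      have e1 : c' * (a * b) * (b * a) = ((μ / 2) • E 1) * (b * a) := by rw [h7]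
      have e2 : c' * (a * b) * (b * a) = c' * (a * (b * b) * a) := by noncomm_ring
      rw [e2, hbb, mul_smul_comm, (hSE ha).2, smul_mul_assoc, haa, smul_smul, mul_smul_comm, hcE.2, smul_mul_assoc,
        ← mul_assoc (E 1), (hSE hb).1] at e1
      exact e1
    refine ⟨κ / (2 * q), κ' / (2 * r), μ / 2 / (r * q), ?_⟩
    have h9 : c' = (μ / 2 / (r * q)) • (b * a) := by
      have hrq : r * q ≠ 0 := mul_ne_zero hr hq
      have e1 := congrArg (fun x => (r * q)⁻¹ • x) h8
      simp only [smul_smul, inv_mul_cancel₀ hrq, one_smul] at e1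
      rw [e1]
      congr 1
      field_simp
    rw [← h9, hc']
    abel
  have hbwE : E 1 *ᵥ (b *ᵥ w) = b *ᵥ w := by rw [mulVec_mulVec, (hSE hb).1]
  have hbbw : b *ᵥ (b *ᵥ w) = r • w := by rw [mulVec_mulVec, hbb, smul_mulVec, hwE]
  have habw : a *ᵥ (b *ᵥ w) = -(lam • (b *ᵥ w)) := by
    have e1 : a * b = -(b * a) := by rw [hba, neg_neg]
    rw [mulVec_mulVec, e1, neg_mulVec, ← mulVec_mulVec, hwa, mulVec_smul]
  have hmem : ∀ v, v ∈ Submodule.span ℂ ({w, b *ᵥ w} : Set (n → ℂ)) ↔ ∃ x y : ℂ, x • w + y • (b *ᵥ w) = v :=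
    fun v => Submodule.mem_span_pair
  have h1 := hirr (Submodule.span ℂ {w, b *ᵥ w}) (by
    intro h2
    apply hw0
    have : w ∈ Submodule.span ℂ {w, b *ᵥ w} := Submodule.subset_span (Set.mem_insert _ _)
    rwa [h2, Submodule.mem_bot] at this) (by
    intro w' hw'
    obtain ⟨x, y, rfl⟩ := (hmem w').1 hw'
    rw [mulVec_add, mulVec_smul, mulVec_smul, hwE, hbwE]) (by
    intro c hc w' hw'
    obtain ⟨e, f, k, rfl⟩ := hmul c hc
    obtain ⟨x, y, rfl⟩ := (hmem w').1 hw'
    have hab2 : (b * a) *ᵥ w = lam • (b *ᵥ w) := by rw [← mulVec_mulVec, hwa, mulVec_smul]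
    have hab3 : (b * a) *ᵥ (b *ᵥ w) = -(lam • (r • w)) := by
      rw [← mulVec_mulVec, habw, mulVec_neg, mulVec_smul, hbbw]
    rw [hmem]
    refine ⟨e * lam * x + f * r * y - k * lam * r * y, f * x + k * lam * x - e * lam * y, ?_⟩
    rw [add_mulVec, add_mulVec, smul_mulVec, smul_mulVec, smul_mulVec, mulVec_add, mulVec_add, mulVec_add,
      mulVec_smul, mulVec_smul, mulVec_smul, mulVec_smul, mulVec_smul, mulVec_smul, hwa, hbbw, habw, hab2, hab3]
    module)
  have h2 := rank_le_span55 (A := E 1) (s := {w, b *ᵥ w}) (by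
    intro u
    have := h1 u
    rw [Finset.coe_insert, Finset.coe_singleton]
    exact this)
  exact h2.trans (Finset.card_le_two)

end Ct55

end MH
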