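import Pool.Agent.Helper55.UT.Chain

/-!
Project UT (MP_b8862a_ag): if there are no elements of the extreme degree, an inner eigenspace is at least as large as the
top eigenspace.
-/

set_option linter.unusedSectionVars false

open Matrix

namespace MH

variable {n : Type*} [Fintype n] [DecidableEq n]
variable {h : Matrix n n ℂ} {E : ℝ → Matrix n n ℂ} {Λ : Finset ℝ}
variable {τ : Matrix n n ℂ →ₗ[ℂ] Matrix n n ℂ} {L : Submodule ℂ (Matrix n n ℂ)}

namespace Dat

variable (D : Dat τ L h E Λ)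
include D

/-- a degree that occurs is a difference of two levels -/
lemma deg_lev55 {ν : ℝ} (hν : Ld L h ν ≠ ⊥) : ∃ μ ∈ Λ, ∃ μ' ∈ Λ, ν = μ - μ' ∧ E μ ≠ 0 ∧ E μ' ≠ 0 := by
  obtain ⟨x, hx, hx0⟩ := Submodule.exists_mem_ne_zero_of_ne_bot hν
  obtain ⟨μ, μ', hne⟩ : ∃ μ μ', E μ * x * E μ' ≠ 0 := by
    by_contra! hcon
    apply hx0
    apply D.spec.ext
    intro μ μ'
    rw [hcon μ μ']
    simp
  have h1 : E μ ≠ 0 := by
    intro h0
    apply hne
    rw [h0, zero_mul, zero_mul]
  have h2 : E μ' ≠ 0 := by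
    intro h0
    apply hne
    rw [h0, mul_zero]
  refine ⟨μ, ?_, μ', ?_, ?_, h1, h2⟩
  · by_contra h3
    exact h1 (D.spec.supp _ h3)
  · by_contra h3
    exact h2 (D.spec.supp _ h3)
  · by_contra h3
    exact hne (D.Ld_block hx fun h4 => h3 h4.symm)

/-- **An inner eigenspace is large.** If the top eigenvalue `t` of `h` is positive and there are no elements of degree
`2 t`, then some eigenspace of `h` strictly between the two ends has at least the dimension of the top eigenspace. -/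
theorem big55 {t : ℝ} (ht0 : 0 < t) (htop : ∀ μ, E μ ≠ 0 → μ ≤ t) (ht : E t ≠ 0) (h2 : Ld L h (2 * t) = ⊥) :
    ∃ c : ℝ, -t < c ∧ c < t ∧ (E t).rank ≤ (E c).rank := by
  classical
  have hsym : ∀ μ, E μ ≠ 0 → -t ≤ μ := by
    intro μ hμ
    have h3 : E (-μ) ≠ 0 := by
      intro h0
      apply hμ
      have := congrArg τ h0
      rwa [D.tauE, neg_neg, map_zero] at this
    have := htop _ h3
    linarith
  have hEm : E (-t) ≠ 0 := by
    intro h0
    apply ht
    have := congrArg τ h0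
    rwa [D.tauE, neg_neg, map_zero] at this
  have hnn : Nonempty n := by
    by_contra hcon
    rw [not_nonempty_iff] at hcon
    exact ht (Subsingleton.elim _ _)
  -- the top degree
  have hnon : (((Λ ×ˢ Λ).image (fun p => p.1 - p.2)).filter fun ν => 0 < ν ∧ Ld L h ν ≠ ⊥).Nonempty := by
    by_contra hcon
    rw [Finset.not_nonempty_iff_eq_empty, Finset.filter_eq_empty_iff] at hcon
    have h3 : ∀ ν : ℝ, 0 < ν → Ld L h ν = ⊥ := by
      intro ν hν
      by_contra h4
      obtain ⟨μ, hμ, μ', hμ', h5, -, -⟩ := D.deg_lev55 h4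
      exact hcon (Finset.mem_image.2 ⟨(μ, μ'), Finset.mem_product.2 ⟨hμ, hμ'⟩, h5.symm⟩) ⟨hν, h4⟩
    have h4 : ∀ ν : ℝ, ν ≠ 0 → Ld L h ν = ⊥ := by
      intro ν hν
      rcases lt_or_gt_of_ne hν with h5 | h5
      · rw [eq_bot_iff]
        intro x hx
        have h6 := D.Ld_star27 hx
        rw [h3 (-ν) (by linarith), Submodule.mem_bot] at h6
        rw [Submodule.mem_bot, ← conjTranspose_conjTranspose x, h6, conjTranspose_zero]
      · exact h3 ν h5
    obtain ⟨c, hc⟩ := D.irr h (by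
      intro x hx
      have e1 : ∀ ν ∈ (Λ ×ˢ Λ).image (fun p => p.1 - p.2), h * cmp E Λ ν x = cmp E Λ ν x * h := by
        intro ν _
        have e2 := D.cmp_mem_Ld hx ν
        by_cases hν : ν = 0
        · subst hν
          have e3 := e2.2
          rw [Complex.ofReal_zero, zero_smul] at e3
          exact sub_eq_zero.1 e3
        · rw [h4 ν hν, Submodule.mem_bot] at e2
          rw [e2, mul_zero, zero_mul]
      rw [D.spec.sum_cmp x, Finset.mul_sum, Finset.sum_mul]
      exact Finset.sum_congr rfl e1)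
    have f1 : h * E t = c • E t := by rw [hc, smul_mul_assoc, one_mul]
    have f2 : h * E (-t) = c • E (-t) := by rw [hc, smul_mul_assoc, one_mul]
    rw [D.spec.h_mul] at f1 f2
    have g1 : ((t : ℂ) - c) • E t = 0 := by rw [sub_smul, f1, sub_self]
    have g2 : (((-t : ℝ) : ℂ) - c) • E (-t) = 0 := by rw [sub_smul, f2, sub_self]
    have k1 := (smul_eq_zero.1 g1).resolve_right ht
    have k2 := (smul_eq_zero.1 g2).resolve_right hEm
    have k3 : ((2 * t : ℝ) : ℂ) = 0 := by
      push_cast at k2 ⊢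
      linear_combination k1 - k2
    have : 2 * t = 0 := by exact_mod_cast k3
    linarith
  obtain ⟨δ, hδe⟩ : ∃ δ, δ = (((Λ ×ˢ Λ).image (fun p => p.1 - p.2)).filter fun ν =>
    0 < ν ∧ Ld L h ν ≠ ⊥).max' hnon := ⟨_, rfl⟩
  have hδ1 := (((Λ ×ˢ Λ).image (fun p => p.1 - p.2)).filter fun ν => 0 < ν ∧ Ld L h ν ≠ ⊥).max'_mem hnon
  rw [← hδe, Finset.mem_filter] at hδ1
  obtain ⟨_, hδ0, hδ⟩ := hδ1
  have hmax : ∀ ν : ℝ, δ < ν → Ld L h ν = ⊥ := by
    intro ν hν
    by_contra h4
    obtain ⟨μ, hμ, μ', hμ', h5, -, -⟩ := D.deg_lev55 h4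
    have h6 := (((Λ ×ˢ Λ).image (fun p => p.1 - p.2)).filter fun ν => 0 < ν ∧ Ld L h ν ≠ ⊥).le_max' ν
      (Finset.mem_filter.2 ⟨Finset.mem_image.2 ⟨(μ, μ'), Finset.mem_product.2 ⟨hμ, hμ'⟩, h5.symm⟩,
        by linarith, h4⟩)
    rw [← hδe] at h6
    linarith
  have hδt : δ < 2 * t := by
    obtain ⟨μ, _, μ', _, h5, h6, h7⟩ := D.deg_lev55 hδ
    have h8 := htop _ h6
    have h9 := hsym _ h7
    have h10 : δ ≠ 2 * t := by
      rintro rfl
      exact hδ h2
    exact lt_of_le_of_ne (by linarith) h10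
  -- a minimal stable subspace
  obtain ⟨M, ⟨hM1, hM2, hM3⟩, hmin⟩ := wellFounded_lt.has_min
    {M : Submodule ℂ (Matrix n n ℂ) | M ≤ Ld L h δ ∧ M ≠ ⊥ ∧ ∀ z ∈ Ld L h 0, ∀ m ∈ M, z * m - m * z ∈ M}
    ⟨Ld L h δ, le_rfl, hδ, fun z hz m hm => by
      have := Ld_bracket D.br hz hm
      rwa [zero_add] at this⟩
  obtain ⟨u, hu1, hu2, hu3⟩ := exists_onb98 M
  have U : Tb55 L h δ M u :=
    { le := hM1
      st := hM3
      mem := hu1
      orth := hu2
      span := hu3
      pos := hδ0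
      comm := by
        intro ν hν x hx m hm
        have h3 := Ld_bracket D.br (hM1 hm) hx
        rw [hmax (δ + ν) (by linarith), Submodule.mem_bot] at h3
        exact sub_eq_zero.1 h3 }
  obtain ⟨ν, hν⟩ := nu55 D U hM2 (by
    intro M' h3 h4 h5
    by_contra h6
    exact hmin M' ⟨h3.trans hM1, h4, h5⟩ (lt_of_le_of_ne h3 h6))
  obtain ⟨α, -, a1, a2, a3, a4⟩ := al55 D U htop ht
  have hα : TT55 u * E t = (α : ℂ) • E t := by rw [TT55, sub_mul, a1, a2, sub_zero]
  have hαm : TT55 u * E (-t) = ((-α : ℝ) : ℂ) • E (-t) := by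
    rw [TT55, sub_mul, a3, a4, zero_sub, ← neg_smul]
    push_cast
    rfl
  have hα0 := al_pos55 D U hM2 htop ht hα
  refine ⟨-t + δ, by linarith, by linarith, ?_⟩
  -- the bound on the first level
  obtain ⟨V, hV⟩ : ∃ V : Submodule ℂ (Matrix n n ℂ), ∀ X, X ∈ V ↔ E (-t + δ) * X = X :=
    ⟨{ carrier := {X | E (-t + δ) * X = X}
       add_mem' := fun {a b} ha hb => by
         change E (-t + δ) * (a + b) = a + b
         rw [mul_add, ha, hb]
       zero_mem' := by
         change E (-t + δ) * 0 = 0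
         rw [mul_zero]
       smul_mem' := fun c a ha => by
         change E (-t + δ) * (c • a) = c • a
         rw [mul_smul_comm, ha] }, fun X => Iff.rfl⟩
  have hEE : ∀ μ, E μ * E μ = E μ := fun μ => by rw [D.spec.mul, if_pos rfl]
  have hE1 : E (-t + δ) ≠ 0 := by
    intro h0
    have h3 : ∀ i, u i * E (-t) = 0 := by
      intro i
      rw [mulE2_55 D (U.le (U.mem i)), h0, zero_mul]
    have h4 : SB55 u * E (-t) = 0 := by
      rw [SB55, Finset.sum_mul]
      refine Finset.sum_eq_zero fun i _ => ?_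
      rw [mul_assoc, h3, mul_zero]
    rw [a3] at h4
    have h5 := (smul_eq_zero.1 h4).resolve_right hEm
    have h6 : α = 0 := by exact_mod_cast h5
    linarith
  have hbound : ∀ X ∈ V, (Xᴴ * (SA55 u * X)).trace.re ≤ α * (Xᴴ * X).trace.re := by
    obtain ⟨a, X, hX, hX0, hXa, hXb⟩ := max55 (SA_star55 (u := u)) V (by
      intro y hy
      rw [hV] at hy ⊢
      rw [← mul_assoc, ← SA_E2_55 D U, mul_assoc, hy]) (by
      intro h0
      apply hE1
      have h3 : E (-t + δ) ∈ V := (hV _).2 (hEE _)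
      rwa [h0, Submodule.mem_bot] at h3)
    suffices ha : a ≤ α by
      intro Y hY
      exact (hXb Y hY).trans (mul_le_mul_of_nonneg_right ha (trace_nonneg _))
    by_contra hcon
    push Not at hcon
    have hXV := (hV X).1 hX
    -- `X` is in the first level of `T`
    have h3 : ∀ i, (u i)ᴴ * X = E (-t) * ((u i)ᴴ * X) := by
      intro i
      have e1 := mulE2_55 D (Tb_star55 D U i) (-t + δ)
      rw [add_neg_cancel_right] at e1
      calc (u i)ᴴ * X = (u i)ᴴ * (E (-t + δ) * X) := by rw [hXV]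
        _ = (u i)ᴴ * E (-t + δ) * X := by rw [mul_assoc]
        _ = _ := by rw [e1, mul_assoc]
    have h4 : TT55 u * (SA55 u * X) = ((-α + ν : ℝ) : ℂ) • (SA55 u * X) := by
      rw [SA55, Finset.sum_mul, Finset.mul_sum, Finset.smul_sum]
      refine Finset.sum_congr rfl fun i _ => ?_
      have e1 : (u i)ᴴ * X ∈ Yy55 E u (-t) (-α) := by
        refine ⟨(h3 i).symm, ?_⟩
        rw [h3 i, ← mul_assoc, hαm, smul_mul_assoc]
      have e2 := (Yy_up55 D U hν e1 i).2
      rw [mul_assoc]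
      exact e2
    have hXX : X ∈ Yy55 E u (-t + δ) (-α + ν) := by
      refine ⟨hXV, ?_⟩
      rw [hXa, mul_smul_comm, smul_comm] at h4
      have e1 : (a : ℂ) ≠ 0 := by
        have : (0 : ℝ) < a := by linarith
        exact_mod_cast this.ne'
      exact smul_right_injective _ e1 h4
    exact absurd (chain55 D U htop ht hα0 hα a3 hν hXX hX0 hXa (fun Y hY => hXb Y ((hV Y).2 hY.1)))
      (not_le.2 hcon)
  -- the trace
  have e1 := hbound _ ((hV _).2 (hEE (-t + δ)))
  rw [D.spec.star, hEE, ← mul_assoc, ← SA_E2_55 D U, mul_assoc, hEE, ← rank_eq_trace (hEE _)] at e1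
  have e2 : (SA55 u * E (-t + δ)).trace = (α : ℂ) * (E t).rank := by
    have e3 : (SA55 u * E (-t + δ)).trace = (SB55 u * E (-t)).trace := by
      rw [SA55, SB55, Finset.sum_mul, Finset.sum_mul, trace_sum, trace_sum]
      refine Finset.sum_congr rfl fun i _ => ?_
      have f1 := mulE2_55 D (U.le (U.mem i)) (-t)
      rw [mul_assoc ((u i)ᴴ), f1, trace_mul_comm ((u i)ᴴ), mul_assoc (E (-t + δ)), trace_mul_comm (E (-t + δ))]
    rw [e3, a3, trace_smul, smul_eq_mul, ← D.tauE, D.inv.tr, rank_eq_trace (hEE t)]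
  rw [e2, Complex.re_ofReal_mul, Complex.natCast_re, Complex.natCast_re] at e1
  have e3 := le_of_mul_le_mul_left e1 hα0
  exact_mod_cast e3

end Dat

end MH
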