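import Pool.Agent.Helper55.UT.Top2

/-!
Project UT (MP_b8862a_ag): the chain of levels.
-/

set_option linter.unusedSectionVars false

open Matrix

namespace MH

variable {n : Type*} [Fintype n] [DecidableEq n]
variable {h : Matrix n n ℂ} {E : ℝ → Matrix n n ℂ} {Λ : Finset ℝ}
variable {τ : Matrix n n ℂ →ₗ[ℂ] Matrix n n ℂ} {L : Submodule ℂ (Matrix n n ℂ)}

/-- the matrices with columns in the eigenspace `c` of `h` and the eigenspace `ρ` of `T` -/
def Yy55 (E : ℝ → Matrix n n ℂ) {d : ℕ} (u : Fin d → Matrix n n ℂ) (c ρ : ℝ) : Submodule ℂ (Matrix n n ℂ) where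
  carrier := {X | E c * X = X ∧ TT55 u * X = (ρ : ℂ) • X}
  add_mem' := by
    rintro a b ⟨h1, h2⟩ ⟨h3, h4⟩
    exact ⟨by rw [mul_add, h1, h3], by rw [mul_add, h2, h4, smul_add]⟩
  zero_mem' := ⟨by rw [mul_zero], by rw [mul_zero, smul_zero]⟩
  smul_mem' := by
    rintro e a ⟨h1, h2⟩
    exact ⟨by rw [mul_smul_comm, h1], by rw [mul_smul_comm, h2, smul_comm]⟩

lemma mem_Yy55 {d : ℕ} {u : Fin d → Matrix n n ℂ} {c ρ : ℝ} {X : Matrix n n ℂ} :
    X ∈ Yy55 E u c ρ ↔ E c * X = X ∧ TT55 u * X = (ρ : ℂ) • X := Iff.rfl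

section
variable {δ : ℝ} {M : Submodule ℂ (Matrix n n ℂ)} {d : ℕ} {u : Fin d → Matrix n n ℂ}
variable (D : Dat τ L h E Λ) (U : Tb55 L h δ M u)
include D U

lemma Yy_up55 {ν : ℝ} (hν : ∀ m ∈ M, TT55 u * m - m * TT55 u = (ν : ℂ) • m) {c ρ : ℝ} {X : Matrix n n ℂ}
    (hX : X ∈ Yy55 E u c ρ) (i : Fin d) : u i * X ∈ Yy55 E u (c + δ) (ρ + ν) := by
  refine ⟨?_, ?_⟩
  · rw [← mul_assoc, ← mulE2_55 D (U.le (U.mem i)), mul_assoc, hX.1]
  · have e1 : TT55 u * (u i * X) = (TT55 u * u i - u i * TT55 u) * X + u i * (TT55 u * X) := by noncomm_ring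
    rw [e1, hν _ (U.mem i), hX.2, smul_mul_assoc, mul_smul_comm, ← add_smul]
    congr 1
    push_cast
    ring

lemma Yy_down55 {ν : ℝ} (hν : ∀ m ∈ M, TT55 u * m - m * TT55 u = (ν : ℂ) • m) {c ρ : ℝ} {X : Matrix n n ℂ}
    (hX : X ∈ Yy55 E u c ρ) (i : Fin d) : (u i)ᴴ * X ∈ Yy55 E u (c - δ) (ρ - ν) := by
  refine ⟨?_, ?_⟩
  · rw [← mul_assoc, sub_eq_add_neg, ← mulE2_55 D (Tb_star55 D U i), mul_assoc, hX.1]
  · have e0 := congrArg conjTranspose (hν _ (U.mem i))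
    rw [conjTranspose_sub, conjTranspose_mul, conjTranspose_mul, TT_star55, conjTranspose_smul] at e0
    have e2 : star (ν : ℂ) = ν := Complex.conj_ofReal ν
    rw [e2] at e0
    have e1 : TT55 u * ((u i)ᴴ * X) = -(((u i)ᴴ * TT55 u - TT55 u * (u i)ᴴ) * X) + (u i)ᴴ * (TT55 u * X) := by
      noncomm_ring
    rw [e1, e0, hX.2, smul_mul_assoc, mul_smul_comm, ← neg_smul, ← add_smul]
    congr 1
    push_cast
    ring

lemma Yy_SA55 {c ρ : ℝ} {X : Matrix n n ℂ} (hX : X ∈ Yy55 E u c ρ) : SA55 u * X ∈ Yy55 E u c ρ := by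
  refine ⟨?_, ?_⟩
  · rw [← mul_assoc, ← SA_E2_55 D U, mul_assoc, hX.1]
  · rw [← mul_assoc, ← SA_comm2_55 D U (TT_zero55 D U), mul_assoc, hX.2, mul_smul_comm]

omit D U in
lemma Yy_SB55 {c ρ : ℝ} {X : Matrix n n ℂ} (hX : X ∈ Yy55 E u c ρ) : SB55 u * X = SA55 u * X - (ρ : ℂ) • X := by
  have h1 := hX.2
  rw [TT55, sub_mul] at h1
  rw [← h1, sub_sub_cancel]

omit D U in
lemma tr_SB55 (X : Matrix n n ℂ) : (Xᴴ * (SB55 u * X)).trace.re = ∑ i, ((u i * X)ᴴ * (u i * X)).trace.re := by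
  rw [SB55, Finset.sum_mul, Finset.mul_sum, trace_sum, Complex.re_sum]
  refine Finset.sum_congr rfl fun i _ => ?_
  rw [conjTranspose_mul]
  simp only [mul_assoc]

omit D U in
lemma tr_SA55 (X : Matrix n n ℂ) : (Xᴴ * (SA55 u * X)).trace.re = ∑ i, (((u i)ᴴ * X)ᴴ * ((u i)ᴴ * X)).trace.re := by
  rw [SA55, Finset.sum_mul, Finset.mul_sum, trace_sum, Complex.re_sum]
  refine Finset.sum_congr rfl fun i _ => ?_
  rw [conjTranspose_mul, conjTranspose_conjTranspose]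
  simp only [mul_assoc]

/-- **The inequality for three levels.** -/
theorem gram55 {ν : ℝ} (hν : ∀ m ∈ M, TT55 u * m - m * TT55 u = (ν : ℂ) • m) {c ρ : ℝ} {X : Matrix n n ℂ}
    (hX : X ∈ Yy55 E u c ρ) (hX0 : X ≠ 0) {a a' b' : ℝ} (ha : SA55 u * X = (a : ℂ) • X)
    (ha' : ∀ Y ∈ Yy55 E u (c + δ) (ρ + ν), (Yᴴ * (SA55 u * Y)).trace.re ≤ a' * (Yᴴ * Y).trace.re)
    (hb' : ∀ Y ∈ Yy55 E u (c - δ) (ρ - ν), (Yᴴ * (SB55 u * Y)).trace.re ≤ b' * (Yᴴ * Y).trace.re)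
    (hb0 : 0 < a - ρ) (hb'0 : 0 < b') : a * (a - ρ) ≤ a' * b' := by
  obtain ⟨b, hb⟩ : ∃ b, b = a - ρ := ⟨_, rfl⟩
  rw [← hb] at hb0 ⊢
  have hSB : SB55 u * X = (b : ℂ) • X := by
    rw [Yy_SB55 hX, ha, ← sub_smul, hb]
    congr 1
    push_cast
    ring
  have hc : ∀ i l, u l * u i = u i * u l := fun i l => U.comm δ U.pos _ (U.le (U.mem i)) _ (U.mem l)
  obtain ⟨N, hN⟩ : ∃ N, N = (Xᴴ * X).trace.re := ⟨_, rfl⟩
  have hN0 : 0 < N := by rw [hN]; exact trace_pos hX0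
  -- the three sums
  have s1 : ∑ l, ∑ i, (((u i)ᴴ * (u l * X))ᴴ * ((u i)ᴴ * (u l * X))).trace.re ≤ a' * (b * N) := by
    have e1 : ∀ l, ∑ i, (((u i)ᴴ * (u l * X))ᴴ * ((u i)ᴴ * (u l * X))).trace.re ≤
        a' * ((u l * X)ᴴ * (u l * X)).trace.re := by
      intro l
      rw [← tr_SA55]
      exact ha' _ (Yy_up55 D U hν hX l)
    refine (Finset.sum_le_sum fun l _ => e1 l).trans (le_of_eq ?_)
    rw [← Finset.mul_sum, ← tr_SB55, hSB, mul_smul_comm, trace_smul, smul_eq_mul, Complex.re_ofReal_mul, ← hN]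
  have s2 : ∑ l, ∑ i, ((u l * ((u i)ᴴ * X))ᴴ * (u l * ((u i)ᴴ * X))).trace.re ≤ b' * (a * N) := by
    rw [Finset.sum_comm]
    have e1 : ∀ i, ∑ l, ((u l * ((u i)ᴴ * X))ᴴ * (u l * ((u i)ᴴ * X))).trace.re ≤
        b' * (((u i)ᴴ * X)ᴴ * ((u i)ᴴ * X)).trace.re := by
      intro i
      rw [← tr_SB55]
      exact hb' _ (Yy_down55 D U hν hX i)
    refine (Finset.sum_le_sum fun i _ => e1 i).trans (le_of_eq ?_)
    rw [← Finset.mul_sum, ← tr_SA55, ha, mul_smul_comm, trace_smul, smul_eq_mul, Complex.re_ofReal_mul, ← hN]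
  have s3 : ∑ l, ∑ i, (((u i)ᴴ * (u l * X))ᴴ * (u l * ((u i)ᴴ * X))).trace.re = a * b * N := by
    have e1 : ∑ l, ∑ i, ((u i)ᴴ * (u l * X))ᴴ * (u l * ((u i)ᴴ * X)) = ((a * b : ℝ) : ℂ) • (Xᴴ * X) := by
      have e2 : ∀ l i, ((u i)ᴴ * (u l * X))ᴴ * (u l * ((u i)ᴴ * X)) = Xᴴ * ((u l)ᴴ * u l) * (u i * (u i)ᴴ) * X := by
        intro l i
        rw [conjTranspose_mul, conjTranspose_mul, conjTranspose_conjTranspose]
        have e3 : Xᴴ * (u l)ᴴ * u i * (u l * ((u i)ᴴ * X)) = Xᴴ * (u l)ᴴ * (u i * u l) * (u i)ᴴ * X := by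
          simp only [mul_assoc]
        rw [e3, ← hc]
        simp only [mul_assoc]
      simp only [e2]
      have e3 : ∀ l, ∑ i, Xᴴ * ((u l)ᴴ * u l) * (u i * (u i)ᴴ) * X = (a : ℂ) • (Xᴴ * ((u l)ᴴ * u l) * X) := by
        intro l
        rw [← Finset.sum_mul, ← Finset.mul_sum]
        change Xᴴ * ((u l)ᴴ * u l) * SA55 u * X = _
        rw [mul_assoc, ha, mul_smul_comm]
      simp only [e3]
      rw [← Finset.smul_sum, ← Finset.sum_mul, ← Finset.mul_sum]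
      change (a : ℂ) • (Xᴴ * SB55 u * X) = _
      rw [mul_assoc, hSB, mul_smul_comm, smul_smul]
      push_cast
      rfl
    have e4 := congrArg (fun x => (Matrix.trace x).re) e1
    simp only [trace_sum, Complex.re_sum, trace_smul, smul_eq_mul, Complex.re_ofReal_mul] at e4
    rw [e4, hN]
  -- the sum of squares
  have s4 : 0 ≤ ∑ l, ∑ i, ((((b' : ℂ) • ((u i)ᴴ * (u l * X)) - (b : ℂ) • (u l * ((u i)ᴴ * X)))ᴴ *
      ((b' : ℂ) • ((u i)ᴴ * (u l * X)) - (b : ℂ) • (u l * ((u i)ᴴ * X)))).trace.re) :=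
    Finset.sum_nonneg fun l _ => Finset.sum_nonneg fun i _ => trace_nonneg _
  have e5 : ∀ A B : Matrix n n ℂ, ((((b' : ℂ) • A - (b : ℂ) • B)ᴴ * ((b' : ℂ) • A - (b : ℂ) • B)).trace.re) =
      b' ^ 2 * (Aᴴ * A).trace.re - 2 * (b' * b) * (Aᴴ * B).trace.re + b ^ 2 * (Bᴴ * B).trace.re := by
    intro A B
    have f1 : star (b' : ℂ) = b' := Complex.conj_ofReal b'
    have f2 : star (b : ℂ) = b := Complex.conj_ofReal b
    have f3 : (Bᴴ * A).trace = star (Aᴴ * B).trace := by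
      rw [← trace_conjTranspose, conjTranspose_mul, conjTranspose_conjTranspose]
    have f4 : (((b' : ℂ) • A - (b : ℂ) • B)ᴴ * ((b' : ℂ) • A - (b : ℂ) • B)) =
        ((b' ^ 2 : ℝ) : ℂ) • (Aᴴ * A) - ((b' * b : ℝ) : ℂ) • (Aᴴ * B) - ((b' * b : ℝ) : ℂ) • (Bᴴ * A) +
          ((b ^ 2 : ℝ) : ℂ) • (Bᴴ * B) := by
      rw [conjTranspose_sub, conjTranspose_smul, conjTranspose_smul, f1, f2, sub_mul, mul_sub, mul_sub]
      simp only [smul_mul_assoc, mul_smul_comm, smul_smul]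
      push_cast
      module
    rw [f4, trace_add, trace_sub, trace_sub, trace_smul, trace_smul, trace_smul, trace_smul, f3]
    simp only [smul_eq_mul, Complex.add_re, Complex.sub_re, Complex.re_ofReal_mul]
    have f5 : (star (Aᴴ * B).trace).re = (Aᴴ * B).trace.re := Complex.conj_re _
    rw [f5]
    ring
  simp only [e5] at s4
  simp only [Finset.sum_add_distrib, Finset.sum_sub_distrib, ← Finset.mul_sum] at s4
  rw [s3] at s4
  have e6 : 0 ≤ b' ^ 2 * (a' * (b * N)) - 2 * (b' * b) * (a * b * N) + b ^ 2 * (b' * (a * N)) := by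
    have f1 := mul_le_mul_of_nonneg_left s1 (sq_nonneg b')
    have f2 := mul_le_mul_of_nonneg_left s2 (sq_nonneg b)
    linarith
  have e7 : b' ^ 2 * (a' * (b * N)) - 2 * (b' * b) * (a * b * N) + b ^ 2 * (b' * (a * N)) =
      (b * b' * N) * (a' * b' - a * b) := by ring
  rw [e7] at e6
  have e8 : 0 < b * b' * N := by positivity
  have e9 := nonneg_of_mul_nonneg_right e6 e8
  linarith

/-- **The chain**: the largest eigenvalue of `∑ u uᴴ` on the first level is at most `α`. -/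
theorem chain55 {t : ℝ} (htop : ∀ μ, E μ ≠ 0 → μ ≤ t) (ht : E t ≠ 0) {α : ℝ} (hα0 : 0 < α)
    (hα : TT55 u * E t = (α : ℂ) • E t) (hB : SB55 u * E (-t) = (α : ℂ) • E (-t))
    {ν : ℝ} (hν : ∀ m ∈ M, TT55 u * m - m * TT55 u = (ν : ℂ) • m)
    {a : ℝ} {X : Matrix n n ℂ} (hX : X ∈ Yy55 E u (-t + δ) (-α + ν)) (hX0 : X ≠ 0) (hXa : SA55 u * X = (a : ℂ) • X)
    (hbd : ∀ Y ∈ Yy55 E u (-t + δ) (-α + ν), (Yᴴ * (SA55 u * Y)).trace.re ≤ a * (Yᴴ * Y).trace.re) : a ≤ α := by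
  by_contra hcon
  push Not at hcon
  have key : ∀ j : ℕ, ∃ a b : ℝ, (∃ X ∈ Yy55 E u (-t + (j + 1) * δ) (-α + (j + 1) * ν), X ≠ 0 ∧
      SA55 u * X = (a : ℂ) • X) ∧
      (∀ Y ∈ Yy55 E u (-t + (j + 1) * δ) (-α + (j + 1) * ν), (Yᴴ * (SA55 u * Y)).trace.re ≤ a * (Yᴴ * Y).trace.re) ∧
      (∀ Y ∈ Yy55 E u (-t + j * δ) (-α + j * ν), (Yᴴ * (SB55 u * Y)).trace.re ≤ b * (Yᴴ * Y).trace.re) ∧
      b < a ∧ 0 < b ∧ (j + 1) * α - ν * (j * (j + 1) / 2) ≤ b := by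
    intro j
    induction j with
    | zero =>
      simp only [Nat.cast_zero, zero_add, one_mul, zero_mul, add_zero, zero_div, mul_zero, sub_zero]
      refine ⟨a, α, ⟨X, hX, hX0, hXa⟩, hbd, ?_, hcon, hα0, le_rfl⟩
      intro Y hY
      have e1 : SB55 u * Y = (α : ℂ) • Y := by
        have := hY.1
        rw [← this, ← mul_assoc, hB, smul_mul_assoc]
      rw [e1, mul_smul_comm, trace_smul, smul_eq_mul, Complex.re_ofReal_mul]
    | succ j ih =>
      obtain ⟨a, b, ⟨X, hX, hX0, hXa⟩, h1, h2, h3, h4, h5⟩ := ih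
      have hXX := trace_pos hX0
      obtain ⟨ρ, hρ⟩ : ∃ ρ : ℝ, ρ = -α + (j + 1) * ν := ⟨_, rfl⟩
      rw [← hρ] at hX h1
      have e1 : ρ ≤ α := by
        have e2 := TT_le55 D U htop ht hα X
        rw [hX.2, mul_smul_comm, trace_smul, smul_eq_mul, Complex.re_ofReal_mul] at e2
        exact le_of_mul_le_mul_right e2 hXX
      have hj : (0 : ℝ) ≤ j := Nat.cast_nonneg j
      have e2 : ((j : ℝ) + 1 + 1) * α - ν * (((j : ℝ) + 1) * ((j : ℝ) + 1 + 1) / 2) < a - ρ := by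
        rw [hρ]
        nlinarith
      have e3 : 0 ≤ ((j : ℝ) + 1 + 1) * α - ν * (((j : ℝ) + 1) * ((j : ℝ) + 1 + 1) / 2) := by
        have e4 : 0 ≤ ((j : ℝ) + 1 + 1) * (α - ρ) := mul_nonneg (by linarith) (by linarith)
        rw [hρ] at e4
        nlinarith
      have e4 : 0 < a - ρ := lt_of_le_of_lt e3 e2
      have hSB : SB55 u * X = ((a - ρ : ℝ) : ℂ) • X := by
        rw [Yy_SB55 hX, hXa, ← sub_smul]
        congr 1
        push_cast
        ring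
      have q1 : -t + ((j : ℝ) + 1) * δ + δ = -t + ((j + 1 : ℕ) + 1) * δ := by push_cast; ring
      have q2 : ρ + ν = -α + ((j + 1 : ℕ) + 1) * ν := by rw [hρ]; push_cast; ring
      have q3 : -t + ((j : ℝ) + 1) * δ - δ = -t + j * δ := by ring
      have q4 : ρ - ν = -α + j * ν := by rw [hρ]; ring
      have q5 : -t + ((j + 1 : ℕ) : ℝ) * δ = -t + ((j : ℝ) + 1) * δ := by push_cast; ring
      have q6 : -α + ((j + 1 : ℕ) : ℝ) * ν = ρ := by rw [hρ]; push_cast; ring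
      -- the next level is not zero
      have hne : Yy55 E u (-t + ((j + 1 : ℕ) + 1) * δ) (-α + ((j + 1 : ℕ) + 1) * ν) ≠ ⊥ := by
        intro h0
        have e5 : ∀ i, u i * X = 0 := by
          intro i
          have := Yy_up55 D U hν hX i
          rw [q1, q2, h0, Submodule.mem_bot] at this
          exact this
        have e6 : SB55 u * X = 0 := by
          rw [SB55, Finset.sum_mul]
          refine Finset.sum_eq_zero fun i _ => ?_
          rw [mul_assoc, e5, mul_zero]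
        rw [hSB] at e6
        have e7 := (smul_eq_zero.1 e6).resolve_right hX0
        have e8 : a - ρ = 0 := by exact_mod_cast e7
        linarith
      obtain ⟨a', X', hX', hX'0, hX'a, hX'b⟩ := max55 (SA_star55 (u := u)) _ (fun y hy => Yy_SA55 D U hy) hne
      refine ⟨a', a - ρ, ⟨X', hX', hX'0, hX'a⟩, hX'b, ?_, ?_, e4, ?_⟩
      · intro Y hY
        rw [q5, q6] at hY
        rw [Yy_SB55 hY, mul_sub, trace_sub, Complex.sub_re, mul_smul_comm, trace_smul, smul_eq_mul,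
          Complex.re_ofReal_mul, sub_mul]
        exact sub_le_sub_right (h1 Y hY) _
      · have e5 := gram55 D U hν hX hX0 hXa (a' := a') (b' := b) (by rw [q1, q2]; exact hX'b)
          (by rw [q3, q4]; exact h2) e4 h4
        by_contra h6
        push Not at h6
        have e6 : a' * b ≤ (a - ρ) * b := mul_le_mul_of_nonneg_right h6 h4.le
        have e7 : (a - ρ) * b < (a - ρ) * a := mul_lt_mul_of_pos_left h3 e4
        linarith [mul_comm a (a - ρ)]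
      · push_cast
        exact e2.le
  -- the end
  obtain ⟨j, hj⟩ := exists_nat_gt (2 * t / δ)
  obtain ⟨a, b, ⟨X, hX, hX0, -⟩, -⟩ := key j
  apply hX0
  have e1 : E (-t + (j + 1) * δ) = 0 := by
    by_contra h0
    have e2 := htop _ h0
    have e3 : 2 * t < j * δ := by
      have := mul_lt_mul_of_pos_right hj U.pos
      rwa [div_mul_cancel₀ _ U.pos.ne'] at this
    have e4 := U.pos
    linarith
  have e2 := hX.1
  rw [e1, zero_mul] at e2
  exact e2.symm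

end

end MH
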