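import Pool.Agent.Helper55.UT.Sq

/-!
Project UT (MP_b8862a_ag): the contact case with four eigenvalues, the elements of degree zero that move the two middle
eigenspaces.
-/

set_option linter.unusedSectionVars false

open Matrix

namespace MH

variable {n : Type*} [Fintype n] [DecidableEq n]
variable {h : Matrix n n ℂ} {E : ℝ → Matrix n n ℂ} {Λ : Finset ℝ}
variable {τ : Matrix n n ℂ →ₗ[ℂ] Matrix n n ℂ} {L : Submodule ℂ (Matrix n n ℂ)}

/-- the projection to the eigenspace of `g` for `e` -/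
noncomputable def Fp55 (E : ℝ → Matrix n n ℂ) (g : Matrix n n ℂ) (e : ℝ) : Matrix n n ℂ :=
  (1 / 2 : ℂ) • (E 0 + (e : ℂ)⁻¹ • g)

/-- the projection to the eigenspace of `g` for `-e` -/
noncomputable def Fm55 (E : ℝ → Matrix n n ℂ) (g : Matrix n n ℂ) (e : ℝ) : Matrix n n ℂ :=
  (1 / 2 : ℂ) • (E 0 - (e : ℂ)⁻¹ • g)

/-- the elements of degree zero and degree `f` for `g` -/
def Zc55 (L : Submodule ℂ (Matrix n n ℂ)) (h g : Matrix n n ℂ) (f : ℝ) : Submodule ℂ (Matrix n n ℂ) where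
  carrier := {v | v ∈ Ld L h 0 ∧ g * v - v * g = (f : ℂ) • v}
  add_mem' := by
    rintro a b ⟨h1, h2⟩ ⟨h3, h4⟩
    refine ⟨add_mem h1 h3, ?_⟩
    rw [mul_add, add_mul, smul_add, ← h2, ← h4]
    abel
  zero_mem' := ⟨zero_mem _, by simp⟩
  smul_mem' := by
    rintro c a ⟨h1, h2⟩
    refine ⟨Submodule.smul_mem _ c h1, ?_⟩
    rw [mul_smul_comm, smul_mul_assoc, smul_comm, ← h2, smul_sub]

/-- an element of the middle with the eigenvalues `e` and `-e` on the middle eigenspace -/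
structure Me55 (L : Submodule ℂ (Matrix n n ℂ)) (h : Matrix n n ℂ) (E : ℝ → Matrix n n ℂ) (g : Matrix n n ℂ) (e : ℝ) :
    Prop where
  md : Md55 L h E g
  pos : 0 < e
  sq : g * g = ((e ^ 2 : ℝ) : ℂ) • E 0

section
variable (D : Dat τ L h E Λ) (T : Three27 E) {g : Matrix n n ℂ} {e : ℝ} (M : Me55 L h E g e)
include D T M

lemma Me55.ne : (e : ℂ) ≠ 0 := by exact_mod_cast M.pos.ne'

lemma Me55.gE : g * E 0 = g ∧ E 0 * g = g := by
  have h1 : g * (E 1 + E 0 + E (-1)) = g := by rw [D.sum327 T, mul_one]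
  rw [mul_add, mul_add, M.md.right, M.md.rightm, zero_add, add_zero] at h1
  refine ⟨h1, ?_⟩
  have := congrArg conjTranspose h1
  rwa [conjTranspose_mul, D.spec.star, M.md.star] at this

lemma Me55.sq' : g * g = ((e : ℂ) * e) • E 0 := by
  rw [M.sq]
  push_cast
  rw [pow_two]

lemma Me55.sum : Fp55 E g e + Fm55 E g e = E 0 := by
  unfold Fp55 Fm55
  module

lemma Me55.diff : Fp55 E g e - Fm55 E g e = (e : ℂ)⁻¹ • g := by
  unfold Fp55 Fm55
  module

lemma Me55.gF : g * Fp55 E g e = (e : ℂ) • Fp55 E g e ∧ g * Fm55 E g e = -((e : ℂ) • Fm55 E g e) ∧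
    Fp55 E g e * g = (e : ℂ) • Fp55 E g e ∧ Fm55 E g e * g = -((e : ℂ) • Fm55 E g e) := by
  have h0 := M.ne D T
  obtain ⟨h1, h2⟩ := M.gE D T
  have h3 := M.sq' D T
  have h4 : (e : ℂ)⁻¹ * (e * e) = e := by field_simp
  have hgg : (e : ℂ) • (e : ℂ)⁻¹ • g = g := by rw [smul_smul, mul_inv_cancel₀ h0, one_smul]
  unfold Fp55 Fm55
  refine ⟨?_, ?_, ?_, ?_⟩
  · rw [mul_smul_comm, mul_add, mul_smul_comm, h1, h3, smul_smul (e : ℂ)⁻¹, h4, smul_comm (e : ℂ), smul_add (e : ℂ),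
      hgg, add_comm]
  · rw [mul_smul_comm, mul_sub, mul_smul_comm, h1, h3, smul_smul (e : ℂ)⁻¹, h4, smul_comm (e : ℂ), smul_sub (e : ℂ),
      hgg, ← smul_neg, neg_sub]
  · rw [smul_mul_assoc, add_mul, smul_mul_assoc, h2, h3, smul_smul (e : ℂ)⁻¹, h4, smul_comm (e : ℂ),
      smul_add (e : ℂ), hgg, add_comm]
  · rw [smul_mul_assoc, sub_mul, smul_mul_assoc, h2, h3, smul_smul (e : ℂ)⁻¹, h4, smul_comm (e : ℂ),
      smul_sub (e : ℂ), hgg, ← smul_neg, neg_sub]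

lemma Me55.EF : E 0 * Fp55 E g e = Fp55 E g e ∧ E 0 * Fm55 E g e = Fm55 E g e ∧ Fp55 E g e * E 0 = Fp55 E g e ∧
    Fm55 E g e * E 0 = Fm55 E g e := by
  obtain ⟨h1, h2⟩ := M.gE D T
  have h3 : E 0 * E 0 = E 0 := D.E00
  unfold Fp55 Fm55
  refine ⟨?_, ?_, ?_, ?_⟩
  · rw [mul_smul_comm, mul_add, mul_smul_comm, h2, h3]
  · rw [mul_smul_comm, mul_sub, mul_smul_comm, h2, h3]
  · rw [smul_mul_assoc, add_mul, smul_mul_assoc, h1, h3]
  · rw [smul_mul_assoc, sub_mul, smul_mul_assoc, h1, h3]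

lemma Me55.FF : Fp55 E g e * Fp55 E g e = Fp55 E g e ∧ Fm55 E g e * Fm55 E g e = Fm55 E g e ∧
    Fp55 E g e * Fm55 E g e = 0 ∧ Fm55 E g e * Fp55 E g e = 0 := by
  have h0 := M.ne D T
  obtain ⟨g1, g2, g3, g4⟩ := M.gF D T
  obtain ⟨h1, h2, h3, h4⟩ := M.EF D T
  have h5 : (e : ℂ)⁻¹ * e = 1 := inv_mul_cancel₀ h0
  have e1 : Fp55 E g e = (1 / 2 : ℂ) • (E 0 + (e : ℂ)⁻¹ • g) := rfl
  have e2 : Fm55 E g e = (1 / 2 : ℂ) • (E 0 - (e : ℂ)⁻¹ • g) := rfl
  refine ⟨?_, ?_, ?_, ?_⟩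
  · conv_lhs => arg 1; rw [e1]
    rw [smul_mul_assoc, add_mul, smul_mul_assoc, g1, h1, smul_smul, h5, one_smul]
    module
  · conv_lhs => arg 1; rw [e2]
    rw [smul_mul_assoc, sub_mul, smul_mul_assoc, g2, h2, smul_neg, smul_smul, h5, one_smul]
    module
  · conv_lhs => arg 1; rw [e1]
    rw [smul_mul_assoc, add_mul, smul_mul_assoc, g2, h2, smul_neg, smul_smul, h5, one_smul]
    module
  · conv_lhs => arg 1; rw [e2]
    rw [smul_mul_assoc, sub_mul, smul_mul_assoc, g1, h1, smul_smul, h5, one_smul]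
    module

lemma Me55.starF : (Fp55 E g e)ᴴ = Fp55 E g e ∧ (Fm55 E g e)ᴴ = Fm55 E g e := by
  have h1 : star ((e : ℂ)⁻¹) = (e : ℂ)⁻¹ := by
    rw [star_inv₀]
    congr 1
    exact Complex.conj_ofReal e
  have h2 : star (1 / 2 : ℂ) = 1 / 2 := by
    rw [star_div₀, star_one]
    congr 1
    exact Complex.conj_ofNat 2
  unfold Fp55 Fm55
  constructor
  · rw [conjTranspose_smul, conjTranspose_add, conjTranspose_smul, D.spec.star, M.md.star, h1, h2]
  · rw [conjTranspose_smul, conjTranspose_sub, conjTranspose_smul, D.spec.star, M.md.star, h1, h2]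

lemma Me55.tauF : τ (Fp55 E g e) = Fm55 E g e ∧ τ (Fm55 E g e) = Fp55 E g e := by
  have h1 : τ g = -g := D.sk g M.md.mem.1
  have h2 : τ (E 0) = E 0 := D.tauE0
  unfold Fp55 Fm55
  constructor
  · rw [map_smul, map_add, map_smul, h1, h2]
    module
  · rw [map_smul, map_sub, map_smul, h1, h2]
    module

/-- the two middle eigenspaces have the same dimension -/
lemma Me55.rankF : (Fm55 E g e).rank = (Fp55 E g e).rank := by
  obtain ⟨h1, h2, -, -⟩ := M.FF D T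
  have h3 : ((Fm55 E g e).rank : ℂ) = (Fp55 E g e).rank := by
    rw [rank_eq_trace h1, rank_eq_trace h2, ← (M.tauF D T).1, D.inv.tr]
  exact_mod_cast h3

/-- elements of degree one -/
lemma Me55.Ze {f : ℝ} {u : Matrix n n ℂ} (hu : u ∈ Ze55 L h g f) :
    u * g = -((f : ℂ) • (u * E 0)) ∧ g * u = (f : ℂ) • (E 0 * u) := by
  obtain ⟨u1, u2, u3, u4, u5⟩ := shape55 D T hu.1
  obtain ⟨h1, h2⟩ := M.gE D T
  have h3 := hu.2
  constructor
  · have e1 := congrArg (fun x => x * E 0) h3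
    have e2 : g * u * E 0 = 0 := by rw [mul_assoc, u3, ← mul_assoc, M.md.right, zero_mul]
    rw [sub_mul, e2, mul_assoc, h1, zero_sub, smul_mul_assoc] at e1
    rw [← e1, neg_neg]
  · have e1 := congrArg (fun x => E 0 * x) h3
    have e2 : E 0 * (u * g) = 0 := by rw [← mul_assoc, ← u4, mul_assoc, M.md.leftm, mul_zero]
    rw [mul_sub, e2, ← mul_assoc, h2, sub_zero, mul_smul_comm] at e1
    exact e1

lemma Me55.Zn {u : Matrix n n ℂ} (hu : u ∈ Ze55 L h g (-e)) :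
    u * Fp55 E g e = u * E 0 ∧ u * Fm55 E g e = 0 ∧ Fp55 E g e * u = 0 ∧ Fm55 E g e * u = E 0 * u := by
  have h0 := M.ne D T
  obtain ⟨h1, h2⟩ := M.Ze D T hu
  have h5 : (e : ℂ)⁻¹ * e = 1 := inv_mul_cancel₀ h0
  push_cast at h1 h2
  rw [neg_smul, neg_neg] at h1
  unfold Fp55 Fm55
  refine ⟨?_, ?_, ?_, ?_⟩
  · rw [mul_smul_comm, mul_add, mul_smul_comm, h1, smul_smul, h5, one_smul]
    module
  · rw [mul_smul_comm, mul_sub, mul_smul_comm, h1, smul_smul, h5, one_smul, sub_self, smul_zero]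
  · rw [smul_mul_assoc, add_mul, smul_mul_assoc, h2, neg_smul, smul_neg, smul_smul, h5, one_smul, add_neg_cancel,
      smul_zero]
  · rw [smul_mul_assoc, sub_mul, smul_mul_assoc, h2, neg_smul, smul_neg, smul_smul, h5, one_smul]
    module

lemma Me55.Zp {u : Matrix n n ℂ} (hu : u ∈ Ze55 L h g e) :
    u * Fm55 E g e = u * E 0 ∧ u * Fp55 E g e = 0 ∧ Fm55 E g e * u = 0 ∧ Fp55 E g e * u = E 0 * u := by
  have h0 := M.ne D T
  obtain ⟨h1, h2⟩ := M.Ze D T hu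
  have h5 : (e : ℂ)⁻¹ * e = 1 := inv_mul_cancel₀ h0
  unfold Fp55 Fm55
  refine ⟨?_, ?_, ?_, ?_⟩
  · rw [mul_smul_comm, mul_sub, mul_smul_comm, h1, smul_neg, smul_smul, h5, one_smul]
    module
  · rw [mul_smul_comm, mul_add, mul_smul_comm, h1, smul_neg, smul_smul, h5, one_smul, add_neg_cancel, smul_zero]
  · rw [smul_mul_assoc, sub_mul, smul_mul_assoc, h2, smul_smul, h5, one_smul, sub_self, smul_zero]
  · rw [smul_mul_assoc, add_mul, smul_mul_assoc, h2, smul_smul, h5, one_smul]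
    module

/-- elements of degree zero that move the eigenspace of `-e` to the eigenspace of `e` -/
lemma Me55.Zc {y : Matrix n n ℂ} (hy : y ∈ Zc55 L h g (2 * e)) :
    Fp55 E g e * y = y ∧ y * Fm55 E g e = y ∧ y * E 1 = 0 ∧ E 1 * y = 0 ∧ y * E (-1) = 0 ∧ E (-1) * y = 0 := by
  have h0 := M.ne D T
  obtain ⟨h1, h2⟩ := M.gE D T
  have h3 := hy.2
  have h4 := M.sq' D T
  have he2 : ((2 * e : ℝ) : ℂ) ≠ 0 := by
    push_cast
    exact mul_ne_zero two_ne_zero h0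
  have c1 := D.Ld_comm_E98 hy.1 1
  have c2 := D.Ld_comm_E98 hy.1 (-1)
  have k1 : y * E 1 = 0 := by
    have e1 := congrArg (fun x => x * E 1) h3
    have e2 : g * y * E 1 = 0 := by rw [mul_assoc, ← c1, ← mul_assoc, M.md.right, zero_mul]
    rw [sub_mul, e2, mul_assoc y, M.md.right, mul_zero, sub_zero, smul_mul_assoc] at e1
    exact (smul_eq_zero.1 e1.symm).resolve_left he2
  have k2 : y * E (-1) = 0 := by
    have e1 := congrArg (fun x => x * E (-1)) h3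
    have e2 : g * y * E (-1) = 0 := by rw [mul_assoc, ← c2, ← mul_assoc, M.md.rightm, zero_mul]
    rw [sub_mul, e2, mul_assoc y, M.md.rightm, mul_zero, sub_zero, smul_mul_assoc] at e1
    exact (smul_eq_zero.1 e1.symm).resolve_left he2
  have k3 : y * E 0 = y := by
    have e1 : y * (E 1 + E 0 + E (-1)) = y := by rw [D.sum327 T, mul_one]
    rwa [mul_add, mul_add, k1, k2, zero_add, add_zero] at e1
  have k4 : E 0 * y = y := by rw [D.Ld_comm_E98 hy.1, k3]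
  push_cast at h3
  have h3' : g * y = y * g + (2 * (e : ℂ)) • y := by
    rw [← h3]
    abel
  have e1 : g * g * y = ((e : ℂ) * e) • y := by rw [h4, smul_mul_assoc, k4]
  have e2 : y * g * g = ((e : ℂ) * e) • y := by rw [mul_assoc, h4, mul_smul_comm, k3]
  have e3 : g * g * y = y * g * g + (4 * (e : ℂ)) • (y * g) + (4 * ((e : ℂ) * e)) • y := by
    rw [mul_assoc, h3', mul_add, ← mul_assoc, h3', mul_smul_comm, h3', add_mul, smul_mul_assoc]
    module
  rw [e1, e2] at e3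
  have e4 : (4 * (e : ℂ)) • (y * g + (e : ℂ) • y) = 0 := by
    have : (4 * (e : ℂ)) • (y * g + (e : ℂ) • y) = (((e : ℂ) * e) • y + (4 * (e : ℂ)) • (y * g) +
        (4 * ((e : ℂ) * e)) • y) - ((e : ℂ) * e) • y := by module
    rw [this, ← e3, sub_self]
  have e5 : y * g = -((e : ℂ) • y) :=
    eq_neg_of_add_eq_zero_left ((smul_eq_zero.1 e4).resolve_left (mul_ne_zero (by norm_num) h0))
  have e6 : g * y = (e : ℂ) • y := by
    rw [h3', e5]
    module
  have h5 : (e : ℂ)⁻¹ * e = 1 := inv_mul_cancel₀ h0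
  refine ⟨?_, ?_, k1, by rw [c1, k1], k2, by rw [c2, k2]⟩
  · unfold Fp55
    rw [smul_mul_assoc, add_mul, smul_mul_assoc, e6, k4, smul_smul, h5, one_smul]
    module
  · unfold Fm55
    rw [mul_smul_comm, mul_sub, mul_smul_comm, e5, k3, smul_neg, smul_smul, h5, one_smul]
    module

end

namespace Ct55

variable {X g : Matrix n n ℂ} {e : ℝ} (C : Ct55 L h E X) (D : Dat τ L h E Λ) (T : Three27 E) (M : Me55 L h E g e)
  (hsmp : ∀ K ≤ L, (∀ X ∈ L, ∀ Y ∈ K, X * Y - Y * X ∈ K) → K = ⊥ ∨ K = L) (h3 : 3 ≤ (E 1).rank)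
include C D T M hsmp h3

/-- `y yᴴ` is a multiple of the projection -/
lemma Zc_scalar {y : Matrix n n ℂ} (hy : y ∈ Zc55 L h g (2 * e)) :
    ∃ c : ℝ, 0 ≤ c ∧ y * yᴴ = (c : ℂ) • Fp55 E g e ∧ yᴴ * y = (c : ℂ) • Fm55 E g e := by
  obtain ⟨y1, y2, y3, y4, y5, y6⟩ := M.Zc D T hy
  obtain ⟨f1, f2, f3, f4⟩ := M.FF D T
  obtain ⟨s1, s2⟩ := M.starF D T
  have z1 : yᴴ * Fp55 E g e = yᴴ := by rw [← s1, ← conjTranspose_mul, y1]
  have z3 : E 1 * yᴴ = 0 := by rw [← D.spec.star 1, ← conjTranspose_mul, y3, conjTranspose_zero]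
  have z4 : yᴴ * E 1 = 0 := by rw [← D.spec.star 1, ← conjTranspose_mul, y4, conjTranspose_zero]
  have z5 : E (-1) * yᴴ = 0 := by rw [← D.spec.star (-1), ← conjTranspose_mul, y5, conjTranspose_zero]
  have z6 : yᴴ * E (-1) = 0 := by rw [← D.spec.star (-1), ← conjTranspose_mul, y6, conjTranspose_zero]
  have hyy : y * y = 0 := by
    calc y * y = y * Fm55 E g e * (Fp55 E g e * y) := by rw [y1, y2]
      _ = y * (Fm55 E g e * Fp55 E g e) * y := by simp only [mul_assoc]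
      _ = 0 := by rw [f4, mul_zero, zero_mul]
  have hzz : yᴴ * yᴴ = 0 := by rw [← conjTranspose_mul, hyy, conjTranspose_zero]
  have hyF : y * Fp55 E g e = 0 := by
    rw [← y2, mul_assoc, f4, mul_zero]
  have G' : Md55 L h E (y * yᴴ - yᴴ * y) := by
    refine ⟨?_, ?_, ?_, ?_, ?_, ?_⟩
    · have := Dat.Ld_bracket D.br hy.1 (D.star_zero55 hy.1)
      rwa [add_zero] at this
    · rw [conjTranspose_sub, conjTranspose_mul, conjTranspose_mul, conjTranspose_conjTranspose]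
    · rw [mul_sub, ← mul_assoc, ← mul_assoc, y4, z3, zero_mul, zero_mul, sub_zero]
    · rw [sub_mul, mul_assoc, mul_assoc, y3, z4, mul_zero, mul_zero, sub_zero]
    · rw [mul_sub, ← mul_assoc, ← mul_assoc, y6, z5, zero_mul, zero_mul, sub_zero]
    · rw [sub_mul, mul_assoc, mul_assoc, y5, z6, mul_zero, mul_zero, sub_zero]
  obtain ⟨c, hc, hsq⟩ := C.sq55 D T G' hsmp h3
  have e1 : (y * yᴴ - yᴴ * y) * (y * yᴴ - yᴴ * y) * Fp55 E g e = y * yᴴ * (y * yᴴ) := by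
    have g1 : (y * yᴴ - yᴴ * y) * (y * yᴴ - yᴴ * y) * Fp55 E g e = y * yᴴ * y * (yᴴ * Fp55 E g e) -
        y * (yᴴ * yᴴ) * y * Fp55 E g e - yᴴ * (y * y) * yᴴ * Fp55 E g e + yᴴ * y * yᴴ * (y * Fp55 E g e) := by
      noncomm_ring
    rw [g1, z1, hzz, hyy, hyF]
    simp only [mul_zero, zero_mul, sub_zero, add_zero, mul_assoc]
  rw [hsq, smul_mul_assoc, (M.EF D T).1] at e1
  have key := psd55 (P := Fp55 E g e) (T := y * yᴴ) s1 (by
      rw [conjTranspose_mul, conjTranspose_conjTranspose]) (by rw [mul_assoc, z1]) hc e1.symm (by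
      intro Y
      have e2 : Yᴴ * (y * yᴴ * Y) = (yᴴ * Y)ᴴ * (yᴴ * Y) := by
        rw [conjTranspose_mul, conjTranspose_conjTranspose]
        simp only [mul_assoc]
      rw [e2]
      exact trace_nonneg _)
  refine ⟨c, hc, key, ?_⟩
  have e2 := congrArg τ key
  have h2 : τ yᴴ = -yᴴ := D.sk _ (D.star_zero55 hy.1).1
  rw [D.inv.mul, h2, D.sk y hy.1.1, neg_mul_neg, map_smul, (M.tauF D T).1] at e2
  exact e2

/-- The elements of degree zero that move the eigenspace of `-e` to the eigenspace of `e` form at most a line. -/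
lemma Zc_le {p : ℕ} {y : Fin p → Matrix n n ℂ} (hy : ∀ j, y j ∈ Zc55 L h g (2 * e))
    (ho : ∀ i j, ((y i)ᴴ * y j).trace = if i = j then 1 else 0) : p ≤ 1 := by
  by_contra hcon
  obtain ⟨i, hi⟩ : ∃ i : Fin p, i = ⟨0, by omega⟩ := ⟨_, rfl⟩
  obtain ⟨j, hj⟩ : ∃ j : Fin p, j = ⟨1, by omega⟩ := ⟨_, rfl⟩
  have hij : i ≠ j := by
    rw [hi, hj]
    intro h
    simp at h
  obtain ⟨a, ha⟩ : ∃ a, a = y i := ⟨_, rfl⟩
  obtain ⟨b, hb⟩ : ∃ b, b = y j := ⟨_, rfl⟩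
  have haM : a ∈ Zc55 L h g (2 * e) := ha ▸ hy i
  have hbM : b ∈ Zc55 L h g (2 * e) := hb ▸ hy j
  have haa : (aᴴ * a).trace = 1 := by rw [ha, ho, if_pos rfl]
  have hbb : (bᴴ * b).trace = 1 := by rw [hb, ho, if_pos rfl]
  have hba : (bᴴ * a).trace = 0 := by rw [ha, hb, ho, if_neg hij.symm]
  obtain ⟨α, -, a1, a2⟩ := C.Zc_scalar D T M hsmp h3 haM
  obtain ⟨β, -, b1, b2⟩ := C.Zc_scalar D T M hsmp h3 hbM
  obtain ⟨γ, -, c1, -⟩ := C.Zc_scalar D T M hsmp h3 (add_mem haM hbM)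
  obtain ⟨δ, -, d1, -⟩ := C.Zc_scalar D T M hsmp h3 (add_mem haM (Submodule.smul_mem _ Complex.I hbM))
  have hI : star Complex.I = -Complex.I := Complex.conj_I
  have e1 : a * bᴴ + b * aᴴ = (((γ : ℂ) - α) - β) • Fp55 E g e := by
    have g1 : (a + b) * (a + b)ᴴ = a * aᴴ + b * bᴴ + (a * bᴴ + b * aᴴ) := by
      rw [conjTranspose_add]
      noncomm_ring
    rw [c1, a1, b1] at g1
    have : a * bᴴ + b * aᴴ = (α : ℂ) • Fp55 E g e + (β : ℂ) • Fp55 E g e + (a * bᴴ + b * aᴴ) -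
      ((α : ℂ) • Fp55 E g e + (β : ℂ) • Fp55 E g e) := by abel
    rw [this, ← g1]
    module
  have e2 : a * bᴴ - b * aᴴ = (Complex.I * (((δ : ℂ) - α) - β)) • Fp55 E g e := by
    have g1 : (a + Complex.I • b) * (a + Complex.I • b)ᴴ = a * aᴴ + b * bᴴ - Complex.I • (a * bᴴ - b * aᴴ) := by
      rw [conjTranspose_add, conjTranspose_smul, hI, add_mul, mul_add, mul_add, smul_mul_assoc, smul_mul_assoc,
        mul_smul_comm, mul_smul_comm, smul_smul, mul_neg, Complex.I_mul_I, neg_neg, one_smul]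
      module
    rw [d1, a1, b1] at g1
    have g2 : Complex.I • (a * bᴴ - b * aᴴ) = ((α : ℂ) + β - δ) • Fp55 E g e := by
      have : Complex.I • (a * bᴴ - b * aᴴ) = (α : ℂ) • Fp55 E g e + (β : ℂ) • Fp55 E g e -
        ((α : ℂ) • Fp55 E g e + (β : ℂ) • Fp55 E g e - Complex.I • (a * bᴴ - b * aᴴ)) := by abel
      rw [this, ← g1]
      module
    have g3 := congrArg (fun x => (-Complex.I) • x) g2
    simp only [smul_smul] at g3
    rw [neg_mul, Complex.I_mul_I, neg_neg, one_smul] at g3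
    rw [g3]
    congr 1
    ring
  obtain ⟨μ, hμ⟩ : ∃ μ : ℂ, a * bᴴ = μ • Fp55 E g e := by
    refine ⟨(1 / 2 : ℂ) * ((((γ : ℂ) - α) - β) + Complex.I * (((δ : ℂ) - α) - β)), ?_⟩
    have : a * bᴴ = (1 / 2 : ℂ) • ((a * bᴴ + b * aᴴ) + (a * bᴴ - b * aᴴ)) := by module
    rw [this, e1, e2]
    module
  have hF0 : Fp55 E g e ≠ 0 := by
    intro h0
    rw [h0, smul_zero] at a1
    have := haa
    rw [trace_mul_comm, a1, trace_zero] at this
    exact zero_ne_one this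
  obtain ⟨f1, f2, f3, f4⟩ := M.FF D T
  have hk : ((Fp55 E g e).rank : ℂ) ≠ 0 := by
    intro h0
    apply hF0
    apply eq_zero_of_trace
    rw [(M.starF D T).1, f1, ← rank_eq_trace f1, h0]
    rfl
  have hμ0 : μ = 0 := by
    have := congrArg Matrix.trace hμ
    rw [trace_mul_comm, hba, trace_smul, smul_eq_mul, ← rank_eq_trace f1] at this
    exact (mul_eq_zero.1 this.symm).resolve_right hk
  rw [hμ0, zero_smul] at hμ
  have h5 : b * aᴴ = 0 := by
    have := congrArg conjTranspose hμ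
    rwa [conjTranspose_mul, conjTranspose_conjTranspose, conjTranspose_zero] at this
  have h6 : (α : ℂ) • b = 0 := by
    have e3 : b * (aᴴ * a) = 0 := by rw [← mul_assoc, h5, zero_mul]
    rw [a2, mul_smul_comm, (M.Zc D T hbM).2.1] at e3
    exact e3
  rcases smul_eq_zero.1 h6 with h7 | h7
  · rw [h7, zero_smul] at a2
    rw [a2, trace_zero] at haa
    exact zero_ne_one haa
  · rw [h7, mul_zero, trace_zero] at hbb
    exact zero_ne_one hbb

end Ct55

end MH
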