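import Pool.Agent.Helper55.UT.HodgeT
import Pool.Agent.Helper98.TR.Num4

/-!
Project UT (MP_b8862a_ag): the trichotomy with all bounds, final form, both sides.
-/

set_option linter.unusedSectionVars false

open Matrix

namespace MH

variable {n : Type*} [Fintype n] [DecidableEq n]

/-- Case (C): the matrices `X = R a X R b` with the property `N` are the multiples of one matrix of rank
`s = rank (P a)`; `5 s ≤ 2 n`; `s` is even if `w` is even, and `s ≥ 3` is not prime if `w` is odd; if `s ≠ 2` at most four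
of the `P p` are not zero, and `rank (P c) ≤ s` for all `c` between `b` and `a` with `2 c ≠ w`. -/
def CaseC (w : ℤ) (P R : ℤ → Matrix n n ℂ) (a b : ℤ) (N : Matrix n n ℂ → Prop) : Prop :=
  (∃ X₀ : Matrix n n ℂ, X₀.rank = (P a).rank ∧ ∀ X : Matrix n n ℂ, (R a * X * R b = X ∧ N X) ↔ ∃ c : ℂ, X = c • X₀) ∧
  5 * (P a).rank ≤ 2 * Fintype.card n ∧ (Even w → Even (P a).rank) ∧
  (Odd w → 3 ≤ (P a).rank ∧ ¬ (P a).rank.Prime) ∧
  ((P a).rank ≠ 2 → {p | (P p).rank ≠ 0}.ncard ≤ 4 ∧ ∀ c, b < c → c < a → 2 * c ≠ w → (P c).rank ≤ (P a).rank)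

/-- Case (N): only `X = 0`; `s = rank (P a) ≤ rank (P c)` for some `c` between `b` and `a`; the list `ThreeList` for the
ranks `s, h, s`; and if `s` is an odd prime number and the Lie algebra `K` has no proper ideals: `s ^ 2 < 2 n`, and the
list `FourList` for the ranks `s, h, h, s` in odd weight. -/
def CaseN (w : ℤ) (P R : ℤ → Matrix n n ℂ) (a b : ℤ) (N : Matrix n n ℂ → Prop) (K : Submodule ℂ (Matrix n n ℂ)) :
    Prop :=
  (∀ X : Matrix n n ℂ, R a * X * R b = X → N X → X = 0) ∧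
  (∃ c, b < c ∧ c < a ∧ (P a).rank ≤ (P c).rank) ∧
  (∀ m : ℤ, w = 2 * m → (∀ p, p ≠ a → p ≠ m → p ≠ b → P p = 0) → ThreeList (P a).rank (P m).rank) ∧
  ((P a).rank.Prime → (P a).rank ≠ 2 → Smp K → (P a).rank ^ 2 < 2 * Fintype.card n ∧
    (Odd w → ∀ c, w < 2 * c → c < a → (∀ p, p ≠ a → p ≠ c → p ≠ w - c → p ≠ b → P p = 0) →
      FourList (P a).rank (P c).rank))

variable {w : ℤ} {Q : Matrix n n ℚ} {S : Finset ℤ} {P R : ℤ → Matrix n n ℂ} {Γ : Subgroup (GL n ℂ)}

open scoped ComplexOrder in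
/-- the Hodge numbers are symmetric -/
theorem IsHW.rank_refl55 (H : IsHW w Q S P) : ∀ p, (P (w - p)).rank = (P p).rank := by
  have hconj : ∀ A : Matrix n n ℂ, (A.map (starRingEnd ℂ)).rank = A.rank := by
    intro A
    have h1 : A.map (starRingEnd ℂ) = Aᴴᵀ := by
      ext i j
      rfl
    rw [h1, Matrix.rank_transpose, Matrix.rank_conjTranspose]
  exact fun p => by rw [← H.conj p, hconj]

/-- if the inner number is smaller than the extreme number, the numbers are indecomposable -/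
theorem indec_of_lt55 {a b : ℤ} (haw : a + b = w) (hs : (P a).rank ≠ 0) (htop : ∀ p, a < p → P p = 0) {c : ℤ}
    (hP : ∀ p, p ≠ a → p ≠ c → p ≠ w - c → p ≠ b → P p = 0) (hwc : (P (w - c)).rank = (P c).rank)
    (hlt : (P c).rank < (P a).rank) : NI.Indec w (fun p => (P p).rank) := by
  refine indec_top98 (a := a) hs (fun p hp => by simp only [htop p hp, Matrix.rank_zero]) fun p h1 h2 => ?_
  by_cases e1 : p = c
  · rw [e1]
    exact hlt
  · by_cases e2 : p = w - c
    · rw [e2, hwc]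
      exact hlt
    · rw [hP p (by omega) e1 e2 (by omega), Matrix.rank_zero]
      omega

namespace IsHW

/-- The trichotomy for the Lie algebra of the Mumford-Tate group. -/
theorem gapLH55b (H : IsHW w Q S P)
    (hEnd : ∀ A : Matrix n n ℚ, (∀ p, toC A * P p = P p * toC A) → ∃ c : ℚ, A = c • (1 : Matrix n n ℚ))
    (hnum : ∀ d k : ℕ, 2 ≤ d → 2 ≤ k → Fintype.card n = d ^ k → (∀ p, d ^ (k - 1) ∣ (P p).rank) → False)
    {a b : ℤ} (haw : a + b = w) (hab : b < a) (htop : ∀ p, a < p → P p = 0) {c : ℤ} (hbc : b < c) (hca : c < a)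
    (hPc : P c ≠ 0) :
    (∀ X : Matrix n n ℂ, Xᵀ * toC Q + toC Q * X = 0 → X ∈ LH Q S P) ∨ CaseC w P P a b (fun X => X ∈ LH Q S P) ∨
      CaseN w P P a b (fun X => X ∈ LH Q S P) (LH Q S P) := by
  by_cases hfull : ∀ X : Matrix n n ℂ, Xᵀ * toC Q + toC Q * X = 0 → X ∈ LH Q S P
  · exact Or.inl hfull
  have hr : ∀ p, (P (w - p)).rank = (P p).rank := H.rank_refl55
  rcases H.tri_LH55b hEnd hnum haw hab htop hbc hca hPc with ⟨h3, h4, h5⟩ | ⟨h3, h4, h5, h6, X₀, -, h7, h8⟩ | h3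
  · right; right
    refine ⟨h3, h4, fun m hwm hP => ?_, fun sp s2 hsL => ⟨h5 sp s2 hsL, fun hw c' hwc' hca' hP => ?_⟩⟩
    · rcases H.gapLH55 hEnd hnum haw hab htop hbc hca hPc with g1 | ⟨-, -, -, X₀, g2, g3⟩ | ⟨-, g1⟩
      · exact absurd g1 hfull
      · have g4 := (g3 X₀).2 ⟨1, (one_smul _ _).symm⟩
        have g5 := h3 X₀ g4.1 g4.2
        rw [g5, Matrix.rank_zero] at g2
        rw [← g2]
        exact ⟨Nat.zero_le _, fun h => absurd h Nat.not_prime_zero⟩
      · exact g1 m hwm hP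
    · have hk0 : 0 < (P c').rank := by
        rw [Nat.pos_iff_ne_zero]
        intro h0
        apply hPc
        by_cases e1 : c = c'
        · rw [e1]
          exact rank_zero_iff55.1 h0
        · by_cases e2 : c = w - c'
          · apply rank_zero_iff55.1
            rw [e2, hr]
            exact h0
          · exact hP c (by omega) e1 e2 (by omega)
      have hbe : b = w - a := by omega
      rcases H.four2 hEnd hw hwc' hca' (by rw [← hbe]; exact hP) rfl rfl sp s2 hk0 (fun hlt =>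
        indec_of_lt55 haw sp.ne_zero htop hP (hr c') hlt) with g1 | ⟨-, g1⟩ | g1
      · exact absurd g1 hfull
      · exact absurd hsL g1
      · exact g1
  · exact Or.inr (Or.inl ⟨⟨X₀, h7, h8⟩, h5, h3, h4, h6⟩)
  · exact absurd h3 hfull

end IsHW

namespace IsGalP

/-- **The gap theorem for the Lie algebra of the Galois group, with all bounds.** -/
theorem gap55b (H : IsHW w Q S P) (G : IsGalP w Q S P Γ R) (hirr : VIrr Γ)
    (hd : ∀ d : ℕ, (∀ p, d ∣ (P p).rank) → d = 1)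
    {a b : ℤ} (haw : a + b = w) (hab : b < a) (htop : ∀ p, a < p → P p = 0) {c : ℤ} (hbc : b < c) (hca : c < a)
    (hPc : P c ≠ 0) :
    (∀ X : Matrix n n ℂ, Xᵀ * toC Q + toC Q * X = 0 → X ∈ LG Γ) ∨ CaseC w P R a b (fun X => X ∈ LG Γ) ∨
      CaseN w P R a b (fun X => X ∈ LG Γ) (LS Q Γ) := by
  classical
  by_cases hfull : ∀ X : Matrix n n ℂ, Xᵀ * toC Q + toC Q * X = 0 → X ∈ LG Γ
  · exact Or.inl hfull
  have hn : Nonempty n := by
    by_contra hcon
    rw [not_nonempty_iff] at hcon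
    exact hPc (Subsingleton.elim _ _)
  have hr : ∀ p, (P (w - p)).rank = (P p).rank := H.rank_refl55
  obtain ⟨_, _, Qi, _, _, hQ1, hQ2, _⟩ := H.exists_basis
  obtain ⟨hh, hS⟩ := G.irr3 H hirr hd
  have hε : ((-1 : ℂ) ^ w) * ((-1 : ℂ) ^ w) = 1 := by
    rw [← mul_zpow]
    norm_num
  obtain ⟨t, htd⟩ : ∃ t : ℝ, t = ((2 * a - w : ℤ) : ℝ) := ⟨_, rfl⟩
  have ht : 0 < t := by
    rw [htd]
    have : (0 : ℤ) < 2 * a - w := by omega
    exact_mod_cast this
  have hEt : G.EP3 t = R a := by rw [htd, G.EP3_int]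
  have hEt' : G.EP3 (-t) = R b := by
    have e1 : -t = ((2 * b - w : ℤ) : ℝ) := by
      rw [htd]
      have : (2 * b - w : ℤ) = -(2 * a - w) := by omega
      rw [this]
      push_cast
      ring
    rw [e1, G.EP3_int]
  have hint : ∀ μ, G.EP3 μ ≠ 0 → ∃ p : ℤ, μ = ((2 * p - w : ℤ) : ℝ) := by
    intro μ hμ
    by_contra hne
    push Not at hne
    exact hμ (G.EP3_other fun p _ => (hne p).symm)
  have hint' : ∀ μ, G.EP3 μ ≠ 0 → ∃ p : ℤ, μ = ((2 * p - w : ℤ) : ℝ) ∧ p ≤ a := by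
    intro μ hμ
    obtain ⟨p, rfl⟩ := hint μ hμ
    refine ⟨p, rfl, ?_⟩
    by_contra hcon
    push Not at hcon
    rw [G.EP3_int] at hμ
    exact hμ (G.ne3.2 (htop p hcon))
  have htop' : ∀ μ, G.EP3 μ ≠ 0 → μ ≤ t := by
    intro μ hμ
    obtain ⟨p, rfl, h3⟩ := hint' μ hμ
    rw [htd]
    have : (2 * p - w : ℤ) ≤ 2 * a - w := by omega
    exact_mod_cast this
  have h0 : 1 - G.EP3 t - G.EP3 (-t) ≠ 0 := by
    rw [hEt, hEt']
    intro h1
    have h2 : (1 - R a - R b) * R c = R c := by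
      rw [sub_mul, sub_mul, one_mul, G.mul, G.mul, if_neg (by omega), if_neg (by omega), sub_zero, sub_zero]
    rw [h1, zero_mul] at h2
    exact hPc (G.ne3.1 h2.symm)
  have hrk : ∀ p : ℤ, (G.EP3 ((2 * p - w : ℤ) : ℝ)).rank = (P p).rank := fun p => by rw [G.EP3_int, G.rank]
  have hskh := (fun X (hX : X ∈ LS Q Γ) => hX.2)
  have key := tri_matrix55b hε H.Q_symm hQ1 hQ2 (L := LS Q Γ) (fun X hX Y hY => LS_br hX hY) hS (fun X hX => hX.2) hh
    G.sd3 (fun d h => G.div3 H hd d h) ht htop' h0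
  have hra : (G.EP3 t).rank = (P a).rank := by rw [hEt, G.rank]
  have hcard : 2 * (P a).rank < Fintype.card n := by
    have hEE : ∀ μ, G.EP3 μ * G.EP3 μ = G.EP3 μ := fun μ => by rw [G.sd3.mul, if_pos rfl]
    have g1 : (1 - G.EP3 t - G.EP3 (-t)) * (1 - G.EP3 t - G.EP3 (-t)) = 1 - G.EP3 t - G.EP3 (-t) := by
      have e1 : G.EP3 t * G.EP3 (-t) = 0 := by rw [G.sd3.mul, if_neg (by linarith)]
      have e2 : G.EP3 (-t) * G.EP3 t = 0 := by rw [G.sd3.mul, if_neg (by linarith)]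
      simp only [mul_sub, sub_mul, mul_one, one_mul, hEE, e1, e2]
      abel
    have g2 : ((1 - G.EP3 t - G.EP3 (-t)).rank : ℂ) = (Fintype.card n : ℂ) - (P a).rank - (P a).rank := by
      have g3 : (G.EP3 (-t)).rank = (P a).rank := by
        have : b = w - a := by omega
        rw [hEt', G.rank, this, hr]
      rw [rank_eq_trace g1, trace_sub, trace_sub, trace_one, ← rank_eq_trace (hEE t), ← rank_eq_trace (hEE (-t)),
        hra, g3]
    have g4 : (1 - G.EP3 t - G.EP3 (-t)).rank + 2 * (P a).rank = Fintype.card n := by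
      have : ((1 - G.EP3 t - G.EP3 (-t)).rank : ℂ) + 2 * (P a).rank = Fintype.card n := by
        rw [g2]
        ring
      exact_mod_cast this
    have g5 : (1 - G.EP3 t - G.EP3 (-t)).rank ≠ 0 := fun g6 => h0 (rank_zero_iff55.1 g6)
    omega
  rcases key with ⟨h1, e, he1, he2, he3⟩ | ⟨h1, h2, h2', h2'', X₀, h3, h4⟩ | h1
  · right; right
    rw [hEt, hEt'] at h1
    have hN : ∀ X : Matrix n n ℂ, R a * X * R b = X → X ∈ LG Γ → X = 0 :=
      fun X hX hL => h1 X (G.skew3 H (by omega) hX hL) hX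
    refine ⟨hN, clauseN55 (r := fun p => (P p).rank) haw hrk hint htd he1 he2 he3 hbc hca, fun m hwm hP => ?_,
      fun sp s2 hsL => ⟨?_, fun hw c' hwc' hca' hP => ?_⟩⟩
    · rcases G.gap55p H hirr hd haw hab htop hbc hca hPc with g1 | ⟨-, -, -, X₀, g2, g3⟩ | ⟨-, g1⟩
      · exact absurd g1 hfull
      · have g4 := (g3 X₀).2 ⟨1, (one_smul _ _).symm⟩
        have g5 := hN X₀ g4.1 g4.2
        rw [g5, Matrix.rank_zero] at g2
        rw [← g2]
        exact ⟨Nat.zero_le _, fun h => absurd h Nat.not_prime_zero⟩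
      · exact g1 m hwm hP
    · have hbot : ∀ μ, G.EP3 μ ≠ 0 → -t ≤ μ := by
        intro μ hμ
        have e1 : G.EP3 (-μ) ≠ 0 := by
          intro h5
          apply hμ
          have h6 := E_symm98 hQ1 hQ2 (hskh _ hh) G.sd3 (-μ)
          rw [h5, Matrix.transpose_zero, mul_zero, zero_mul, neg_neg] at h6
          exact h6
        have := htop' _ e1
        linarith
      have hLd : Ld (LS Q Γ) (∑ p ∈ S, ((2 * p - w : ℤ) : ℂ) • R p) (2 * t) = ⊥ := by
        rw [eq_bot_iff]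
        intro X hX
        obtain ⟨g1, g2⟩ := mem_Ld.1 hX
        have g3 := (G.sd3.top_iff2 htop' hbot).1 g2
        rw [hEt, hEt'] at g3
        rw [Submodule.mem_bot]
        exact h1 X g1 g3
      have e1 := ep_bot55 hQ1 hQ2 (L := LS Q Γ) (fun X hX Y hY => LS_br hX hY) hS (fun X hX => hX.2) hsL hh
        G.sd3 (w := w) (a := a) (by omega) hint' (by rw [hrk]; exact sp) (by rw [hrk]; exact s2)
        (by rw [hrk]; exact hcard) (by
          rw [← htd, hLd, finrank_bot]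
          exact Nat.zero_le _)
      rwa [hrk] at e1
    · have hk0 : 0 < (P c').rank := by
        rw [Nat.pos_iff_ne_zero]
        intro h0
        apply hPc
        by_cases e1 : c = c'
        · rw [e1]
          exact rank_zero_iff55.1 h0
        · by_cases e2 : c = w - c'
          · apply rank_zero_iff55.1
            rw [e2, hr]
            exact h0
          · exact hP c (by omega) e1 e2 (by omega)
      have hbe : b = w - a := by omega
      rcases IsGalP.four2 H G hirr hd hw hwc' hca' (by rw [← hbe]; exact hP) rfl rfl sp s2 hk0 (fun hlt =>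
        indec_of_lt55 haw sp.ne_zero htop hP (hr c') hlt) with g1 | ⟨-, g1⟩ | g1
      · exact absurd g1 hfull
      · exact absurd hsL g1
      · exact g1
  · rw [hra] at h1 h2 h2' h3
    rw [hEt, hEt'] at h4
    have hneg : ∀ μ, (G.EP3 (-μ)).rank = (G.EP3 μ).rank := by
      intro μ
      have u1 : IsUnit Qi := ⟨⟨Qi, toC Q, hQ2, hQ1⟩, rfl⟩
      have u2 : IsUnit (toC Q) := ⟨⟨toC Q, Qi, hQ1, hQ2⟩, rfl⟩
      rw [E_symm98 hQ1 hQ2 (hskh _ hh) G.sd3 μ,
        Matrix.rank_mul_eq_left_of_isUnit_det _ _ ((Matrix.isUnit_iff_isUnit_det _).1 u2),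
        Matrix.rank_mul_eq_right_of_isUnit_det _ _ ((Matrix.isUnit_iff_isUnit_det _).1 u1), Matrix.rank_transpose]
    have hcl : (P a).rank ≠ 2 → {p | (P p).rank ≠ 0}.ncard ≤ 4 ∧
        (∀ c, b < c → c < a → 2 * c ≠ w → (P c).rank ≤ (P a).rank) ∧ (Odd w → ¬ (P a).rank.Prime) := by
      intro hs2
      rcases h2'' with h8 | ⟨e, he, het, hlev, hle⟩
      · exact absurd (hra ▸ h8) hs2
      · exact clauseC55 (r := fun p => (P p).rank) haw hrk hneg htd he hlev hle hbc hca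
          (fun h9 => hPc (rank_zero_iff55.1 h9))
    refine Or.inr (Or.inl ⟨⟨X₀, h3, fun X => ?_⟩, h2', fun hw => h1 hw.neg_one_zpow, fun hw => ?_,
      fun hs2 => ⟨(hcl hs2).1, (hcl hs2).2.1⟩⟩)
    · rw [← h4 X]
      exact ⟨fun h => ⟨G.skew3 H (by omega) h.1 h.2, h.1⟩, fun h => ⟨h.2, h.1.1⟩⟩
    · have e3 := h2 hw.neg_one_zpow
      exact ⟨e3, (hcl (by omega)).2.2 hw⟩
  · exact absurd (fun X hX => (h1 X hX).1) hfull

end IsGalP

end MH
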