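import Pool.Agent.Helper55.UT.Kap

/-!
Project UT (MP_b8862a_ag): the contact case with four eigenvalues, the identity for the two multiplicities.
-/

set_option linter.unusedSectionVars false

open Matrix

namespace MH

variable {n : Type*} [Fintype n] [DecidableEq n]
variable {h : Matrix n n ℂ} {E : ℝ → Matrix n n ℂ} {Λ : Finset ℝ}
variable {τ : Matrix n n ℂ →ₗ[ℂ] Matrix n n ℂ} {L : Submodule ℂ (Matrix n n ℂ)}

/-- the trace of a double commutator -/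
lemma brk55 (u v : Matrix n n ℂ) : (vᴴ * ((u * uᴴ - uᴴ * u) * v - v * (u * uᴴ - uᴴ * u))).trace =
    ((uᴴ * v - v * uᴴ)ᴴ * (uᴴ * v - v * uᴴ)).trace - ((u * v - v * u)ᴴ * (u * v - v * u)).trace := by
  obtain ⟨w, hw⟩ : ∃ w, w = uᴴ * v - v * uᴴ := ⟨_, rfl⟩
  obtain ⟨z, hz⟩ : ∃ z, z = u * v - v * u := ⟨_, rfl⟩
  have h1 : vᴴ * ((u * uᴴ - uᴴ * u) * v - v * (u * uᴴ - uᴴ * u)) =
      (vᴴ * u * w - vᴴ * w * u) - (vᴴ * uᴴ * z - vᴴ * z * uᴴ) := by
    rw [hw, hz]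
    noncomm_ring
  have hws : wᴴ = vᴴ * u - u * vᴴ := by
    rw [hw, conjTranspose_sub, conjTranspose_mul, conjTranspose_mul, conjTranspose_conjTranspose]
  have hzs : zᴴ = vᴴ * uᴴ - uᴴ * vᴴ := by
    rw [hz, conjTranspose_sub, conjTranspose_mul, conjTranspose_mul]
  rw [← hw, ← hz, h1, hws, hzs, trace_sub, trace_sub, trace_sub, sub_mul, sub_mul, trace_sub, trace_sub]
  congr 2
  · rw [trace_mul_comm (vᴴ * w), ← mul_assoc]
  · rw [trace_mul_comm (vᴴ * z), ← mul_assoc]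

namespace Ct55

variable {X g : Matrix n n ℂ} {e : ℝ} (C : Ct55 L h E X) (D : Dat τ L h E Λ) (T : Three27 E) (M : Me55 L h E g e)
include C D T M

lemma traceX : (Xᴴ * X).trace = (E 1).rank := by
  have hEE : E 1 * E 1 = E 1 := by rw [D.spec.mul, if_pos rfl]
  rw [C.left, ← D.tauE, D.inv.tr, rank_eq_trace hEE]

/-- the commutator with an element of degree `-e` -/
lemma z_part {v : Matrix n n ℂ} (hv : v ∈ Ze55 L h g e) {d : ℕ} {u : Fin d → Matrix n n ℂ}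
    (hu : ∀ i, u i ∈ Ze55 L h g (-e)) (hsp : ∀ m ∈ Ze55 L h g (-e), m = ∑ i, ((u i)ᴴ * m).trace • u i)
    (hs0 : ((E 1).rank : ℂ) ≠ 0) :
    ∑ i, ((u i * v - v * u i)ᴴ * (u i * v - v * u i)).trace = (vᴴ * v).trace / (E 1).rank := by
  obtain ⟨q, hq⟩ : ∃ q, q = -th55 X v := ⟨_, rfl⟩
  have hqm : q ∈ Ze55 L h g (-e) := hq ▸ neg_mem (C.th_Ze D T M.md hv)
  have hvq : th55 X q = v := by
    have e1 := C.th_th D T hv.1
    have e2 : th55 X (-th55 X v) = -th55 X (th55 X v) := by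
      unfold th55
      simp only [conjTranspose_neg, mul_neg, neg_mul]
      abel
    rw [hq, e2, e1, neg_neg]
  have hqq : (qᴴ * q).trace = (vᴴ * v).trace := by
    rw [← C.th_iso D T hqm.1 hqm.1, hvq]
  rw [← hqq, ← pars55 hsp hqm, Finset.sum_div]
  refine Finset.sum_congr rfl fun i _ => ?_
  obtain ⟨ω, hω⟩ := C.br_one D T (hu i).1 hv.1
  have hs : (Xᴴ * X).trace = (E 1).rank := C.traceX D T M
  have e1 : ω * (E 1).rank = -(qᴴ * u i).trace := by
    have e2 : (Xᴴ * (u i * v - v * u i)).trace = ω * (E 1).rank := by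
      rw [hω, mul_smul_comm, trace_smul, smul_eq_mul, hs]
    rw [← e2, ← C.th_iso D T (hu i).1 hqm.1, hvq, th55_star, mul_sub, sub_mul, trace_sub, trace_sub]
    have e3 : (Xᴴ * (v * u i)).trace = (u i * Xᴴ * v).trace := by
      rw [← mul_assoc, trace_mul_comm, ← mul_assoc]
    rw [e3, ← mul_assoc]
    ring
  have e2 : star ω * (E 1).rank = -((u i)ᴴ * q).trace := by
    have e3 := congrArg star e1
    rw [star_mul', star_neg, ← trace_conjTranspose, conjTranspose_mul, conjTranspose_conjTranspose] at e3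
    have e4 : star ((E 1).rank : ℂ) = (E 1).rank := Complex.conj_natCast _
    rw [e4] at e3
    exact e3
  rw [hω, conjTranspose_smul, smul_mul_smul_comm, trace_smul, smul_eq_mul, hs]
  rw [eq_div_iff hs0]
  calc star ω * ω * (E 1).rank * (E 1).rank = (star ω * (E 1).rank) * (ω * (E 1).rank) := by ring
    _ = _ := by
      rw [e1, e2]
      ring

variable (hsmp : ∀ K ≤ L, (∀ X ∈ L, ∀ Y ∈ K, X * Y - Y * X ∈ K) → K = ⊥ ∨ K = L) (h3 : 3 ≤ (E 1).rank)
include hsmp h3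

/-- the commutator with the adjoint of an element of degree `-e` -/
lemma w_part {v : Matrix n n ℂ} (hv : v ∈ Ze55 L h g e) {d : ℕ} {u : Fin d → Matrix n n ℂ}
    (hu : ∀ i, u i ∈ Ze55 L h g (-e)) (hsp : ∀ m ∈ Ze55 L h g (-e), m = ∑ i, ((u i)ᴴ * m).trace • u i)
    {p : ℕ} {y : Fin p → Matrix n n ℂ} (hy : ∀ j, y j ∈ Zc55 L h g (2 * e))
    (hyo : ∀ i j, ((y i)ᴴ * y j).trace = if i = j then 1 else 0)
    (hysp : ∀ m ∈ Zc55 L h g (2 * e), m = ∑ i, ((y i)ᴴ * m).trace • y i)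
    (hk0 : ((Fp55 E g e).rank : ℂ) ≠ 0) :
    ∑ i, (((u i)ᴴ * v - v * (u i)ᴴ)ᴴ * ((u i)ᴴ * v - v * (u i)ᴴ)).trace =
      p * (vᴴ * v).trace / (Fp55 E g e).rank := by
  obtain ⟨f1, f2, f3, f4⟩ := M.FF D T
  obtain ⟨v1, v2, v3, v4, v5⟩ := shape55 D T hv.1
  obtain ⟨w1, w2, w3, w4⟩ := M.Zp D T hv
  have hwm : ∀ i, (u i)ᴴ * v - v * (u i)ᴴ ∈ Zc55 L h g (2 * e) := by
    intro i
    refine ⟨?_, ?_⟩
    · have e1 := neg_mem (D.br_zero55 hv.1 (hu i).1)
      rwa [neg_sub] at e1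
    · have e1 := congrArg conjTranspose (hu i).2
      have e2 : star ((-e : ℝ) : ℂ) = ((-e : ℝ) : ℂ) := Complex.conj_ofReal _
      rw [conjTranspose_sub, conjTranspose_mul, conjTranspose_mul, M.md.star, conjTranspose_smul, e2] at e1
      have e3 : g * (u i)ᴴ - (u i)ᴴ * g = (e : ℂ) • (u i)ᴴ := by
        rw [← neg_sub, e1]
        push_cast
        module
      have e4 : g * ((u i)ᴴ * v - v * (u i)ᴴ) - ((u i)ᴴ * v - v * (u i)ᴴ) * g =
          (g * (u i)ᴴ - (u i)ᴴ * g) * v - v * (g * (u i)ᴴ - (u i)ᴴ * g) + ((u i)ᴴ * (g * v - v * g) -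
            (g * v - v * g) * (u i)ᴴ) := by noncomm_ring
      rw [e4, e3, hv.2]
      simp only [smul_mul_assoc, mul_smul_comm]
      push_cast
      module
  have hqm : ∀ j, v * (y j)ᴴ - (y j)ᴴ * v ∈ Ze55 L h g (-e) := by
    intro j
    refine ⟨?_, ?_⟩
    · have e1 := neg_mem (D.br_one55 (D.star_zero55 (hy j).1) hv.1)
      rwa [neg_sub] at e1
    · have e1 := congrArg conjTranspose (hy j).2
      have e2 : star ((2 * e : ℝ) : ℂ) = ((2 * e : ℝ) : ℂ) := Complex.conj_ofReal _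
      rw [conjTranspose_sub, conjTranspose_mul, conjTranspose_mul, M.md.star, conjTranspose_smul, e2] at e1
      have e3 : g * (y j)ᴴ - (y j)ᴴ * g = -((2 * (e : ℂ)) • (y j)ᴴ) := by
        rw [← neg_sub, e1]
        push_cast
        module
      have e4 : g * (v * (y j)ᴴ - (y j)ᴴ * v) - (v * (y j)ᴴ - (y j)ᴴ * v) * g =
          (g * v - v * g) * (y j)ᴴ - (y j)ᴴ * (g * v - v * g) + (v * (g * (y j)ᴴ - (y j)ᴴ * g) -
            (g * (y j)ᴴ - (y j)ᴴ * g) * v) := by noncomm_ring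
      rw [e4, e3, hv.2]
      simp only [smul_mul_assoc, mul_smul_comm, mul_neg, neg_mul]
      push_cast
      module
  -- the norm of `q`
  have hqq : ∀ j, ((v * (y j)ᴴ - (y j)ᴴ * v)ᴴ * (v * (y j)ᴴ - (y j)ᴴ * v)).trace =
      (vᴴ * v).trace / (Fp55 E g e).rank := by
    intro j
    obtain ⟨γ, -, g1, g2⟩ := C.Zc_scalar D T M hsmp h3 (hy j)
    obtain ⟨y1, y2, -⟩ := M.Zc D T (hy j)
    have hγ : (γ : ℂ) * (Fp55 E g e).rank = 1 := by
      have e1 := hyo j j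
      rw [if_pos rfl, trace_mul_comm, g1, trace_smul, smul_eq_mul, ← rank_eq_trace f1] at e1
      exact e1
    have hyv : y j * v = 0 := by rw [← y2, mul_assoc, w3, mul_zero]
    have hyv' : vᴴ * (y j)ᴴ = 0 := by rw [← conjTranspose_mul, hyv, conjTranspose_zero]
    have e1 : (v * (y j)ᴴ - (y j)ᴴ * v)ᴴ * (v * (y j)ᴴ - (y j)ᴴ * v) =
        y j * (vᴴ * v) * (y j)ᴴ - y j * (vᴴ * (y j)ᴴ) * v - vᴴ * (y j * v) * (y j)ᴴ + vᴴ * (y j * (y j)ᴴ) * v := by
      rw [conjTranspose_sub, conjTranspose_mul, conjTranspose_mul, conjTranspose_conjTranspose]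
      noncomm_ring
    have e2 : (y j * (vᴴ * v) * (y j)ᴴ).trace = γ * (vᴴ * (v * E 0)).trace := by
      rw [trace_mul_comm, ← mul_assoc, trace_mul_comm, g2, mul_smul_comm, trace_smul, smul_eq_mul, mul_assoc, w1]
    have e3 : (vᴴ * (y j * (y j)ᴴ) * v).trace = γ * (vᴴ * (v * E (-1))).trace := by
      rw [g1, mul_smul_comm, smul_mul_assoc, trace_smul, smul_eq_mul, mul_assoc, w4, ← v4]
    have e4 : v = v * E 0 + v * E (-1) := by
      have : v * (E 1 + E 0 + E (-1)) = v := by rw [D.sum327 T, mul_one]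
      rw [mul_add, mul_add, v1, zero_add] at this
      exact this.symm
    have e5 : (vᴴ * v).trace = (vᴴ * (v * E 0)).trace + (vᴴ * (v * E (-1))).trace := by
      conv_lhs => arg 1; arg 2; rw [e4]
      rw [mul_add, trace_add]
    rw [e1, hyv, hyv', mul_zero, mul_zero, zero_mul, zero_mul, sub_zero, sub_zero, trace_add, e2, e3, ← mul_add, ← e5,
      eq_div_iff hk0]
    calc (γ : ℂ) * (vᴴ * v).trace * (Fp55 E g e).rank = γ * (Fp55 E g e).rank * (vᴴ * v).trace := by ring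
      _ = _ := by rw [hγ, one_mul]
  have hstep : ∀ i, (((u i)ᴴ * v - v * (u i)ᴴ)ᴴ * ((u i)ᴴ * v - v * (u i)ᴴ)).trace =
      ∑ j, ((v * (y j)ᴴ - (y j)ᴴ * v)ᴴ * u i).trace * ((u i)ᴴ * (v * (y j)ᴴ - (y j)ᴴ * v)).trace := by
    intro i
    rw [← pars55 hysp (hwm i)]
    refine Finset.sum_congr rfl fun j _ => ?_
    have e1 : ((y j)ᴴ * ((u i)ᴴ * v - v * (u i)ᴴ)).trace = ((u i)ᴴ * (v * (y j)ᴴ - (y j)ᴴ * v)).trace := by
      rw [mul_sub, mul_sub, trace_sub, trace_sub]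
      congr 1
      · rw [trace_mul_comm, mul_assoc]
      · rw [← mul_assoc, trace_mul_comm]
    have e2 : (((u i)ᴴ * v - v * (u i)ᴴ)ᴴ * y j).trace = ((v * (y j)ᴴ - (y j)ᴴ * v)ᴴ * u i).trace := by
      have e3 := congrArg star e1
      rw [← trace_conjTranspose, ← trace_conjTranspose, conjTranspose_mul, conjTranspose_mul,
        conjTranspose_conjTranspose, conjTranspose_conjTranspose] at e3
      exact e3
    rw [e1, e2]
  rw [Finset.sum_congr rfl fun i _ => hstep i, Finset.sum_comm]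
  have hfin : ∀ j, ∑ i, ((v * (y j)ᴴ - (y j)ᴴ * v)ᴴ * u i).trace * ((u i)ᴴ * (v * (y j)ᴴ - (y j)ᴴ * v)).trace =
      (vᴴ * v).trace / (Fp55 E g e).rank := fun j => by rw [pars55 hsp (hqm j), hqq j]
  rw [Finset.sum_congr rfl fun j _ => hfin j, Finset.sum_const, Finset.card_univ, Fintype.card_fin, nsmul_eq_mul,
    mul_div_assoc]

/-- **The identity for the two multiplicities.** -/
theorem four_id (hF : Fp55 E g e ≠ 0) :
    ∃ d p : ℕ, p ≤ 1 ∧ (d + 2) * (Fp55 E g e).rank = (d + 2 * p) * (E 1).rank := by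
  classical
  have hE1 : E 1 ≠ 0 := by
    intro h1
    rw [h1, Matrix.rank_zero] at h3
    omega
  have hs0 : ((E 1).rank : ℂ) ≠ 0 := by
    have : (E 1).rank ≠ 0 := by omega
    exact_mod_cast this
  obtain ⟨f1, f2, f3, f4⟩ := M.FF D T
  have hk0 : ((Fp55 E g e).rank : ℂ) ≠ 0 := by
    intro h0
    apply hF
    apply eq_zero_of_trace
    rw [(M.starF D T).1, f1, ← rank_eq_trace f1, h0]
    rfl
  -- an element of degree `e`
  obtain ⟨v, hv, hv0⟩ : ∃ v ∈ Ze55 L h g e, v ≠ 0 := by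
    by_contra hcon
    push Not at hcon
    apply hF
    refine D.eig_zero55 T M.md hE1 (F := Fp55 E g e) (e := e) (M.EF D T).1 (M.gF D T).1 ?_ ?_
    · rw [eq_bot_iff]
      intro v hv
      rw [Submodule.mem_bot]
      exact hcon v hv
    · rw [eq_bot_iff]
      intro v hv
      rw [Submodule.mem_bot]
      have e1 := C.th_Ze D T M.md hv
      rw [neg_neg] at e1
      have e2 := C.th_th D T hv.1
      rw [hcon _ e1] at e2
      have e3 : th55 X (0 : Matrix n n ℂ) = 0 := by simp [th55]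
      rw [e3] at e2
      exact neg_eq_zero.1 e2.symm
  have hV : (vᴴ * v).trace ≠ 0 := by
    intro h0
    apply hv0
    apply eq_zero_of_trace
    rw [h0]
    rfl
  obtain ⟨u, hu, ho, hsp⟩ := exists_onb98 (Ze55 L h g (-e))
  obtain ⟨y, hy, hyo, hysp⟩ := exists_onb98 (Zc55 L h g (2 * e))
  obtain ⟨κ, h1, h2⟩ := C.kapA D T M hu ho hsp
  obtain ⟨c, h4, h5, h6⟩ := C.kapM D T M hu ho hsp hsmp h3 h1 h2
  obtain ⟨t1, -⟩ := kap_tr' D T (fun i => (hu i).1) ho h1 h2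
  have hp := C.Zc_le D T M hsmp h3 hy hyo
  obtain ⟨d, hd⟩ : ∃ d, d = Module.finrank ℂ (Ze55 L h g (-e)) := ⟨_, rfl⟩
  obtain ⟨p, hpe⟩ : ∃ p, p = Module.finrank ℂ (Zc55 L h g (2 * e)) := ⟨_, rfl⟩
  rw [← hpe] at hp
  refine ⟨d, p, hp, ?_⟩
  -- the identity
  have k1 := C.kapV D T M hu ho hsp hsmp h3 h1 h2 h4 h5 hv
  have k2 := congrArg (fun x => (vᴴ * x).trace) k1
  simp only [mul_smul_comm, trace_smul, smul_eq_mul] at k2
  have k3 : (SA55 u - SB55 u) * v - v * (SA55 u - SB55 u) =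
      ∑ i, ((u i * (u i)ᴴ - (u i)ᴴ * u i) * v - v * (u i * (u i)ᴴ - (u i)ᴴ * u i)) := by
    rw [SA55, SB55, ← Finset.sum_sub_distrib, Finset.sum_mul, Finset.mul_sum, ← Finset.sum_sub_distrib]
  rw [k3, Finset.mul_sum, trace_sum, Finset.sum_congr rfl fun i _ => brk55 (u i) v, Finset.sum_sub_distrib,
    C.w_part D T M hsmp h3 hv hu hsp hy hyo hysp hk0, C.z_part D T M hv hu hsp hs0, ← hpe] at k2
  have k4 : (p : ℂ) / (Fp55 E g e).rank - 1 / (E 1).rank = κ - c := by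
    apply mul_right_cancel₀ hV
    rw [← k2]
    ring
  rw [← hd] at t1
  obtain ⟨s, hs⟩ : ∃ s : ℕ, s = (E 1).rank := ⟨_, rfl⟩
  obtain ⟨k, hk⟩ : ∃ k : ℕ, k = (Fp55 E g e).rank := ⟨_, rfl⟩
  rw [← hs] at t1 h6 hs0 k4 ⊢
  rw [← hk] at h6 hk0 k4 ⊢
  have k5 : (p : ℂ) * s - k = (κ - c) * k * s := by
    rw [← k4]
    field_simp
  have k6 : ((d : ℂ) + 2) * k = (d + 2 * p) * s := by
    linear_combination -((k : ℂ) - s) * t1 - 2 * k5 - 2 * (s : ℂ) * h6
  exact_mod_cast k6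

end Ct55

end MH
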