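import Pool.Agent.Helper55.UT.Cp

/-!
Project UT (MP_b8862a_ag): the contact case with four eigenvalues, the relation between the two multiplicities.
-/

set_option linter.unusedSectionVars false

open Matrix

namespace MH

variable {n : Type*} [Fintype n] [DecidableEq n]
variable {h : Matrix n n ℂ} {E : ℝ → Matrix n n ℂ} {Λ : Finset ℝ}
variable {τ : Matrix n n ℂ →ₗ[ℂ] Matrix n n ℂ} {L : Submodule ℂ (Matrix n n ℂ)}

/-- The Casimir element of a space of matrices commutes with what preserves the space. -/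
lemma cas_comm55 {M : Submodule ℂ (Matrix n n ℂ)} {d : ℕ} {u : Fin d → Matrix n n ℂ} (hu : ∀ i, u i ∈ M)
    (hsp : ∀ m ∈ M, m = ∑ i, ((u i)ᴴ * m).trace • u i) {z : Matrix n n ℂ} (hz1 : ∀ m ∈ M, z * m - m * z ∈ M)
    (hz2 : ∀ m ∈ M, zᴴ * m - m * zᴴ ∈ M) : SA55 u * z = z * SA55 u := by
  have h1 : ∀ i, z * u i - u i * z = ∑ j, ((u j)ᴴ * (z * u i - u i * z)).trace • u j :=
    fun i => hsp _ (hz1 _ (hu i))
  have h2 : ∀ i, z * (u i)ᴴ - (u i)ᴴ * z = -∑ j, ((u i)ᴴ * (z * u j - u j * z)).trace • (u j)ᴴ := by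
    intro i
    have h1 := hsp _ (hz2 _ (hu i))
    have h2 := congrArg conjTranspose h1
    rw [conjTranspose_sub, conjTranspose_mul, conjTranspose_mul, conjTranspose_conjTranspose,
      conjTranspose_sum] at h2
    rw [← neg_sub, h2]
    congr 1
    refine Finset.sum_congr rfl fun j _ => ?_
    rw [conjTranspose_smul]
    congr 1
    rw [← trace_conjTranspose, conjTranspose_mul, conjTranspose_conjTranspose, conjTranspose_sub, conjTranspose_mul,
      conjTranspose_mul, conjTranspose_conjTranspose, sub_mul, mul_sub, trace_sub, trace_sub]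
    congr 1
    · rw [mul_assoc]
    · rw [mul_assoc, trace_mul_comm z, mul_assoc]
  have h3 : z * SA55 u - SA55 u * z = ∑ i, ((z * u i - u i * z) * (u i)ᴴ + u i * (z * (u i)ᴴ - (u i)ᴴ * z)) := by
    rw [SA55, Finset.mul_sum, Finset.sum_mul, ← Finset.sum_sub_distrib]
    refine Finset.sum_congr rfl fun i _ => ?_
    noncomm_ring
  have h4 : z * SA55 u - SA55 u * z = 0 := by
    rw [h3, Finset.sum_add_distrib]
    have e1 : ∑ i, (z * u i - u i * z) * (u i)ᴴ =
        ∑ i, ∑ j, ((u j)ᴴ * (z * u i - u i * z)).trace • (u j * (u i)ᴴ) := by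
      refine Finset.sum_congr rfl fun i _ => ?_
      conv_lhs => rw [h1 i]
      rw [Finset.sum_mul]
      refine Finset.sum_congr rfl fun j _ => ?_
      rw [smul_mul_assoc]
    have e2 : ∑ i, u i * (z * (u i)ᴴ - (u i)ᴴ * z) =
        -∑ i, ∑ j, ((u i)ᴴ * (z * u j - u j * z)).trace • (u i * (u j)ᴴ) := by
      rw [← Finset.sum_neg_distrib]
      refine Finset.sum_congr rfl fun i _ => ?_
      rw [h2 i, mul_neg, Finset.mul_sum]
      congr 1
      refine Finset.sum_congr rfl fun j _ => ?_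
      rw [mul_smul_comm]
    rw [e1, e2, Finset.sum_comm, add_neg_cancel]
  exact (sub_eq_zero.1 h4).symm

/-- Parseval -/
lemma pars55 {M : Submodule ℂ (Matrix n n ℂ)} {d : ℕ} {u : Fin d → Matrix n n ℂ}
    (hsp : ∀ m ∈ M, m = ∑ i, ((u i)ᴴ * m).trace • u i) {w : Matrix n n ℂ} (hw : w ∈ M) :
    ∑ i, (wᴴ * u i).trace * ((u i)ᴴ * w).trace = (wᴴ * w).trace := by
  have h1 := congrArg (fun x => (wᴴ * x).trace) (hsp w hw)
  simp only [Finset.mul_sum, trace_sum, mul_smul_comm, trace_smul, smul_eq_mul] at h1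
  rw [h1]
  exact Finset.sum_congr rfl fun i _ => mul_comm _ _

section
variable (D : Dat τ L h E Λ) (T : Three27 E) {d : ℕ} {u : Fin d → Matrix n n ℂ} (hu : ∀ i, u i ∈ Ld L h 1)
include D hu

lemma SA_E' (μ : ℝ) : SA55 u * E μ = E μ * SA55 u := by
  rw [SA55, Finset.sum_mul, Finset.mul_sum]
  refine Finset.sum_congr rfl fun i _ => ?_
  have h1 := mulE55 D (D.star_one55 (hu i)) μ
  have h2 := mulE55 D (hu i) (μ + -1)
  rw [neg_add_cancel_right] at h2
  rw [mul_assoc, h1, ← mul_assoc, h2, mul_assoc]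

lemma SB_E' (μ : ℝ) : SB55 u * E μ = E μ * SB55 u := by
  rw [SB55, Finset.sum_mul, Finset.mul_sum]
  refine Finset.sum_congr rfl fun i _ => ?_
  have h1 := mulE55 D (hu i) μ
  have h2 := mulE55 D (D.star_one55 (hu i)) (μ + 1)
  rw [add_neg_cancel_right] at h2
  rw [mul_assoc, h1, ← mul_assoc, h2, mul_assoc]

lemma tau_SA' : τ (SA55 u) = SB55 u := by
  rw [SA55, SB55, map_sum]
  refine Finset.sum_congr rfl fun i _ => ?_
  rw [D.inv.mul, D.inv.star, D.sk _ (hu i).1, conjTranspose_neg, neg_mul_neg]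

lemma tau_SB' : τ (SB55 u) = SA55 u := by
  rw [← tau_SA' D hu, D.inv.inv]

include T

lemma SA_Em' : SA55 u * E (-1) = 0 := by
  rw [SA55, Finset.sum_mul]
  refine Finset.sum_eq_zero fun i _ => ?_
  have h1 := mulE55 D (D.star_one55 (hu i)) (-1)
  rw [show (-1 : ℝ) + -1 = -2 by norm_num, T (-2) (by norm_num) (by norm_num) (by norm_num), zero_mul] at h1
  rw [mul_assoc, h1, mul_zero]

lemma SB_E1' : SB55 u * E 1 = 0 := by
  rw [SB55, Finset.sum_mul]
  refine Finset.sum_eq_zero fun i _ => ?_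
  have h1 := mulE55 D (hu i) 1
  rw [show (1 : ℝ) + 1 = 2 by norm_num, T 2 (by norm_num) (by norm_num) (by norm_num), zero_mul] at h1
  rw [mul_assoc, h1, mul_zero]

/-- the traces -/
lemma kap_tr' (ho : ∀ i j, ((u i)ᴴ * u j).trace = if i = j then 1 else 0) {κ : ℂ} (h1 : SA55 u * E 1 = κ • E 1)
    (h2 : SB55 u * E (-1) = κ • E (-1)) :
    2 * κ * (E 1).rank = d ∧ (SB55 u * E 0).trace = κ * (E 1).rank := by
  have hEE : ∀ μ, E μ * E μ = E μ := fun μ => by rw [D.spec.mul, if_pos rfl]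
  have e1 : (SA55 u).trace = d := by
    rw [SA55, trace_sum]
    have : ∀ i, (u i * (u i)ᴴ).trace = 1 := fun i => by rw [trace_mul_comm, ho, if_pos rfl]
    simp [this]
  have e2 : (SA55 u * E 1).trace = κ * (E 1).rank := by
    rw [h1, trace_smul, smul_eq_mul, rank_eq_trace (hEE 1)]
  have e3 : (SA55 u * E 0).trace = (SB55 u * E (-1)).trace := by
    rw [SA55, SB55, Finset.sum_mul, Finset.sum_mul, trace_sum, trace_sum]
    refine Finset.sum_congr rfl fun i _ => ?_
    have h3 := mulE55 D (hu i) (-1)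
    rw [neg_add_cancel] at h3
    rw [mul_assoc ((u i)ᴴ), h3, trace_mul_comm ((u i)ᴴ), mul_assoc (E 0), trace_mul_comm (E 0)]
  have e4 : (SB55 u * E 0).trace = (SA55 u * E 1).trace := by
    rw [SA55, SB55, Finset.sum_mul, Finset.sum_mul, trace_sum, trace_sum]
    refine Finset.sum_congr rfl fun i _ => ?_
    have h3 := mulE55 D (hu i) 0
    rw [zero_add] at h3
    rw [mul_assoc ((u i)ᴴ), h3, trace_mul_comm ((u i)ᴴ), mul_assoc (E 1), trace_mul_comm (E 1)]
  have e5 : (SB55 u * E (-1)).trace = κ * (E 1).rank := by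
    rw [h2, trace_smul, smul_eq_mul, ← D.tauE, D.inv.tr, rank_eq_trace (hEE 1)]
  refine ⟨?_, by rw [e4, e2]⟩
  have e6 : SA55 u = SA55 u * E 1 + SA55 u * E 0 + SA55 u * E (-1) := by
    rw [← mul_add, ← mul_add, D.sum327 T, mul_one]
  rw [← e1, e6, trace_add, trace_add, e2, e3, e5, SA_Em' D T hu, trace_zero]
  ring

end

namespace Ct55

variable {X g : Matrix n n ℂ} {e : ℝ} (C : Ct55 L h E X) (D : Dat τ L h E Λ) (T : Three27 E) (M : Me55 L h E g e)
variable {d : ℕ} {u : Fin d → Matrix n n ℂ} (hu : ∀ i, u i ∈ Ze55 L h g (-e))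
  (ho : ∀ i j, ((u i)ᴴ * u j).trace = if i = j then 1 else 0)
  (hsp : ∀ m ∈ Ze55 L h g (-e), m = ∑ i, ((u i)ᴴ * m).trace • u i)
include C D T M hu ho hsp

/-- the Casimir element of the elements of degree `-e` is a scalar on the top eigenspace -/
lemma kapA : ∃ κ : ℂ, SA55 u * E 1 = κ • E 1 ∧ SB55 u * E (-1) = κ • E (-1) := by
  have hu1 : ∀ i, u i ∈ Ld L h 1 := fun i => (hu i).1
  have hEE : E 1 * E 1 = E 1 := by rw [D.spec.mul, if_pos rfl]
  have hcomm : ∀ x ∈ Ld L h 0, SA55 u * E 1 * x = x * (SA55 u * E 1) := by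
    intro x hx
    have hs := D.two_deg55 M.md.mem M.md.star hx
    induction hs using Submodule.span_induction with
    | mem v hv =>
      obtain ⟨hv1, f, hf⟩ := hv
      have hc := D.Ld_comm_E98 hv1 1
      by_cases hf0 : f = 0
      · subst hf0
        rw [Complex.ofReal_zero, zero_smul, sub_eq_zero] at hf
        have hf' : g * vᴴ = vᴴ * g := by
          have := congrArg conjTranspose hf
          rwa [conjTranspose_mul, conjTranspose_mul, M.md.star, eq_comm] at this
        have key : ∀ z, z ∈ Ld L h 0 → g * z = z * g → ∀ m ∈ Ze55 L h g (-e), z * m - m * z ∈ Ze55 L h g (-e) := by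
          intro z hz hgz m hm
          refine ⟨D.br_one55 hz hm.1, ?_⟩
          have e1 : g * (z * m - m * z) - (z * m - m * z) * g = z * (g * m - m * g) - (g * m - m * g) * z +
              ((g * z - z * g) * m - m * (g * z - z * g)) := by noncomm_ring
          rw [e1, hm.2, hgz, sub_self, zero_mul, mul_zero, sub_zero, add_zero, mul_smul_comm, smul_mul_assoc, smul_sub]
        have e2 := cas_comm55 hu hsp (key v hv1 hf) (key vᴴ (D.star_zero55 hv1) hf')
        rw [mul_assoc, hc, ← mul_assoc, e2, mul_assoc]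
      · have hf0' : (f : ℂ) ≠ 0 := by exact_mod_cast hf0
        have k1 : v * E 1 = 0 := by
          have e1 := congrArg (fun x => x * E 1) hf
          have e2 : g * v * E 1 = 0 := by rw [mul_assoc, ← hc, ← mul_assoc, M.md.right, zero_mul]
          rw [sub_mul, e2, mul_assoc v, M.md.right, mul_zero, sub_zero, smul_mul_assoc] at e1
          exact (smul_eq_zero.1 e1.symm).resolve_left hf0'
        rw [mul_assoc, hc, k1, mul_zero, SA_E' D hu1, ← mul_assoc, k1, zero_mul]
    | zero => rw [mul_zero, zero_mul]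
    | add v w hv' hw' hv hw =>
      have m1 : v ∈ Ld L h 0 := (Submodule.span_le.2 fun v hv => hv.1 : _ ≤ Ld L h 0) hv'
      have m2 : w ∈ Ld L h 0 := (Submodule.span_le.2 fun v hv => hv.1 : _ ≤ Ld L h 0) hw'
      rw [mul_add, add_mul, hv m1, hw m2]
    | smul c v hv' hv =>
      have m1 : v ∈ Ld L h 0 := (Submodule.span_le.2 fun v hv => hv.1 : _ ≤ Ld L h 0) hv'
      rw [mul_smul_comm, smul_mul_assoc, hv m1]
  obtain ⟨κ, hκ⟩ := D.top_scalar98 (t := 1) (top27_55 D T) (T := SA55 u * E 1)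
    (by rw [SA_E' D hu1, ← mul_assoc, hEE]) (by rw [mul_assoc, hEE]) hcomm
  refine ⟨κ, hκ, ?_⟩
  have h1 := congrArg τ hκ
  rw [D.inv.mul, D.tauE, tau_SA' D hu1, map_smul, D.tauE, ← SB_E' D hu1] at h1
  exact h1

variable (hsmp : ∀ K ≤ L, (∀ X ∈ L, ∀ Y ∈ K, X * Y - Y * X ∈ K) → K = ⊥ ∨ K = L) (h3 : 3 ≤ (E 1).rank)
include hsmp h3

/-- the Casimir element on the middle eigenspaces -/
lemma kapM {κ : ℂ} (h1 : SA55 u * E 1 = κ • E 1) (h2 : SB55 u * E (-1) = κ • E (-1)) :
    ∃ c : ℂ, SB55 u * E 0 = c • Fp55 E g e ∧ SA55 u * E 0 = c • Fm55 E g e ∧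
      κ * (E 1).rank = c * (Fp55 E g e).rank := by
  have hu1 : ∀ i, u i ∈ Ld L h 1 := fun i => (hu i).1
  obtain ⟨t1, t2⟩ := kap_tr' D T hu1 ho h1 h2
  obtain ⟨f1, f2, f3, f4⟩ := M.FF D T
  obtain ⟨s1, s2⟩ := M.starF D T
  obtain ⟨q1, q2, q3, q4⟩ := M.EF D T
  have hs0 : ((E 1).rank : ℂ) ≠ 0 := by
    have : (E 1).rank ≠ 0 := by omega
    exact_mod_cast this
  have hκ : star κ = κ := by
    have e1 : κ = ((d / (2 * (E 1).rank) : ℝ) : ℂ) := by
      push_cast
      rw [eq_div_iff (mul_ne_zero two_ne_zero hs0), ← t1]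
      ring
    rw [e1]
    exact Complex.conj_ofReal _
  -- the products with the projections
  have p1 : SB55 u * Fm55 E g e = 0 := by
    rw [SB55, Finset.sum_mul]
    exact Finset.sum_eq_zero fun i _ => by rw [mul_assoc, (M.Zn D T (hu i)).2.1, mul_zero]
  have p2 : SA55 u * Fp55 E g e = 0 := by
    rw [SA55, Finset.sum_mul]
    refine Finset.sum_eq_zero fun i _ => ?_
    have : (u i)ᴴ * Fp55 E g e = 0 := by
      rw [← s1, ← conjTranspose_mul, (M.Zn D T (hu i)).2.2.1, conjTranspose_zero]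
    rw [mul_assoc, this, mul_zero]
  have p3 : SB55 u * E 0 = SB55 u * Fp55 E g e := by rw [← M.sum D T, mul_add, p1, add_zero]
  have p4 : SB55 u * Fp55 E g e = Fp55 E g e * SB55 u := by
    have e1 := congrArg conjTranspose p1
    rw [conjTranspose_mul, s2, SB_star55, conjTranspose_zero] at e1
    rw [← p3, SB_E' D hu1, ← M.sum D T, add_mul, e1, add_zero]
  have hh0 : h * E 0 = 0 := by rw [D.spec.h_mul, Complex.ofReal_zero, zero_smul]
  -- the element of the middle
  obtain ⟨g', hg'⟩ : ∃ g', g' = SA55 u - SB55 u - κ • h := ⟨_, rfl⟩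
  have hstar : g'ᴴ = g' := by
    rw [hg', conjTranspose_sub, conjTranspose_sub, SA_star55, SB_star55, conjTranspose_smul, D.spec.hh, hκ]
  have r1 : g' * E 1 = 0 := by
    rw [hg', sub_mul, sub_mul, h1, SB_E1' D T hu1, smul_mul_assoc, D.spec.h_mul]
    simp
  have r2 : g' * E (-1) = 0 := by
    rw [hg', sub_mul, sub_mul, h2, SA_Em' D T hu1, smul_mul_assoc, D.spec.h_mul]
    simp
  have G' : Md55 L h E g' := by
    refine ⟨?_, hstar, ?_, r1, ?_, r2⟩
    · rw [hg']
      refine Submodule.sub_mem _ ?_ (Submodule.smul_mem _ _ ⟨D.mem, by simp⟩)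
      rw [SA55, SB55, ← Finset.sum_sub_distrib]
      exact Submodule.sum_mem _ fun i _ => D.br_zero55 (hu1 i) (hu1 i)
    · have := congrArg conjTranspose r1
      rwa [conjTranspose_mul, D.spec.star, hstar, conjTranspose_zero] at this
    · have := congrArg conjTranspose r2
      rwa [conjTranspose_mul, D.spec.star, hstar, conjTranspose_zero] at this
  obtain ⟨c, hc, hsq⟩ := C.sq55 D T G' hsmp h3
  have p5 : g' * Fp55 E g e = -(SB55 u * Fp55 E g e) := by
    have e1 : h * Fp55 E g e = 0 := by rw [← q1, ← mul_assoc, hh0, zero_mul]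
    rw [hg', sub_mul, sub_mul, p2, smul_mul_assoc, e1, smul_zero, sub_zero, zero_sub]
  have p6 : SB55 u * Fp55 E g e * (SB55 u * Fp55 E g e) = ((c ^ 2 : ℝ) : ℂ) • Fp55 E g e := by
    have e1 : g' * g' * Fp55 E g e = SB55 u * Fp55 E g e * (SB55 u * Fp55 E g e) := by
      calc g' * g' * Fp55 E g e = g' * (g' * Fp55 E g e) := by rw [mul_assoc]
        _ = -(g' * (SB55 u * Fp55 E g e)) := by rw [p5, mul_neg]
        _ = -(g' * (Fp55 E g e * SB55 u)) := by rw [p4]
        _ = -(g' * Fp55 E g e * SB55 u) := by rw [mul_assoc]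
        _ = SB55 u * Fp55 E g e * SB55 u := by rw [p5, neg_mul, neg_neg]
        _ = SB55 u * (Fp55 E g e * Fp55 E g e) * SB55 u := by rw [f1]
        _ = SB55 u * Fp55 E g e * (Fp55 E g e * SB55 u) := by simp only [mul_assoc]
        _ = _ := by rw [← p4]
    rw [← e1, hsq, smul_mul_assoc, q1]
  have key := psd55 (P := Fp55 E g e) (T := SB55 u * Fp55 E g e) s1 (by
      rw [conjTranspose_mul, s1, SB_star55, ← p4]) (by rw [mul_assoc, f1]) hc p6 (by
      intro Y
      have e2 : Yᴴ * (SB55 u * Fp55 E g e * Y) = ∑ i, (u i * (Fp55 E g e * Y))ᴴ * (u i * (Fp55 E g e * Y)) := by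
        have e3 : SB55 u * Fp55 E g e = Fp55 E g e * SB55 u * Fp55 E g e := by
          rw [← p4, mul_assoc, f1]
        rw [e3, SB55, Finset.mul_sum, Finset.sum_mul, Finset.sum_mul, Finset.mul_sum]
        refine Finset.sum_congr rfl fun i _ => ?_
        rw [conjTranspose_mul, conjTranspose_mul, s1]
        simp only [mul_assoc]
      rw [e2, trace_sum, Complex.re_sum]
      exact Finset.sum_nonneg fun i _ => trace_nonneg _)
  have k1 : SB55 u * E 0 = (c : ℂ) • Fp55 E g e := by rw [p3, key]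
  refine ⟨c, k1, ?_, ?_⟩
  · have e1 := congrArg τ k1
    rw [D.inv.mul, D.tauE0, tau_SB' D hu1, map_smul, (M.tauF D T).1, ← SA_E' D hu1] at e1
    exact e1
  · rw [← t2, k1, trace_smul, smul_eq_mul, ← rank_eq_trace f1]

/-- the action of the Casimir element on the elements of degree `e` -/
lemma kapV {κ c : ℂ} (h1 : SA55 u * E 1 = κ • E 1) (h2 : SB55 u * E (-1) = κ • E (-1))
    (h4 : SB55 u * E 0 = c • Fp55 E g e) (h5 : SA55 u * E 0 = c • Fm55 E g e) {v : Matrix n n ℂ}
    (hv : v ∈ Ze55 L h g e) :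
    (SA55 u - SB55 u) * v - v * (SA55 u - SB55 u) = (κ - c) • v := by
  have hu1 : ∀ i, u i ∈ Ld L h 1 := fun i => (hu i).1
  obtain ⟨v1, v2, v3, v4, v5⟩ := shape55 D T hv.1
  obtain ⟨w1, w2, w3, w4⟩ := M.Zp D T hv
  have hone : ∀ x : Matrix n n ℂ, x = x * E 1 + x * E 0 + x * E (-1) := by
    intro x
    rw [← mul_add, ← mul_add, D.sum327 T, mul_one]
  have hone' : ∀ x : Matrix n n ℂ, x = E 1 * x + E 0 * x + E (-1) * x := by
    intro x
    rw [← add_mul, ← add_mul, D.sum327 T, one_mul]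
  have a1 : SA55 u * v = κ • (E 1 * v) := by
    conv_lhs => rw [hone' v, v2, add_zero, mul_add, ← mul_assoc, ← mul_assoc, h1, h5]
    rw [smul_mul_assoc, smul_mul_assoc, w3, smul_zero, add_zero]
  have a2 : SB55 u * v = c • (E 0 * v) := by
    conv_lhs => rw [hone' v, v2, add_zero, mul_add, ← mul_assoc, ← mul_assoc, SB_E1' D T hu1, h4]
    rw [smul_mul_assoc, w4, zero_mul, zero_add]
  have a3 : v * SA55 u = c • (v * E 0) := by
    have e0 : SA55 u = κ • E 1 + c • Fm55 E g e := by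
      rw [hone (SA55 u), h1, h5, SA_Em' D T hu1, add_zero]
    conv_lhs => rw [e0]
    rw [mul_add, mul_smul_comm, mul_smul_comm, v1, smul_zero, zero_add, w1]
  have a4 : v * SB55 u = κ • (v * E (-1)) := by
    have e0 : SB55 u = c • Fp55 E g e + κ • E (-1) := by
      rw [hone (SB55 u), SB_E1' D T hu1, h4, h2, zero_add]
    conv_lhs => rw [e0]
    rw [mul_add, mul_smul_comm, mul_smul_comm, w2, smul_zero, zero_add]
  rw [sub_mul, mul_sub, a1, a2, a3, a4]
  have e1 : (κ - c) • v = (κ - c) • (E 1 * v + v * E (-1)) := by rw [v5]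
  rw [e1, v3, ← v4]
  module

end Ct55

end MH
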