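import Pool.Agent.Helper55.UT.Bb5
import Pool.Agent.Helper55.UG.Tri

/-!
Project UT (MP_b8862a_ag): the contact case has at most four eigenvalues.
-/

set_option linter.unusedSectionVars false

open Matrix

namespace MH

variable {n : Type*} [Fintype n] [DecidableEq n]
variable {h : Matrix n n ℂ} {E : ℝ → Matrix n n ℂ} {Λ : Finset ℝ}
variable {τ : Matrix n n ℂ →ₗ[ℂ] Matrix n n ℂ} {L : Submodule ℂ (Matrix n n ℂ)}

namespace Dat

variable (D : Dat τ L h E Λ) (T : Three27 E)
include D T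

/-- an eigenspace of `g` in the middle that is moved by no element of degree one or minus one is zero -/
theorem eig_zero55 {g : Matrix n n ℂ} (G : Md55 L h E g) (hE1 : E 1 ≠ 0) {F : Matrix n n ℂ} {e : ℝ}
    (hF : E 0 * F = F) (hgF : g * F = (e : ℂ) • F) (h1 : Ze55 L h g e = ⊥) (h2 : Ze55 L h g (-e) = ⊥) : F = 0 := by
  classical
  -- the elements of degree one kill `F`
  have key : ∀ u ∈ Ld L h 1, u * F = 0 ∧ uᴴ * F = 0 := by
    intro u hu
    have hsp := D.two_deg55 G.mem G.star hu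
    induction hsp using Submodule.span_induction with
    | mem v hv =>
      obtain ⟨hv1, f, hf⟩ := hv
      constructor
      · by_cases hfe : f + e = 0
        · have h3 : v ∈ Ze55 L h g (-e) := ⟨hv1, by rw [hf]; congr 2; linarith⟩
          rw [h2, Submodule.mem_bot] at h3
          rw [h3, zero_mul]
        · have e1 : E 1 * (v * F) = v * F := by
            have := mulE55 D hv1 0
            rw [zero_add] at this
            rw [← mul_assoc, ← this, mul_assoc, hF]
          have e2 : g * (v * F) = 0 := by rw [← e1, ← mul_assoc, G.right, zero_mul]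
          have e3 := congrArg (fun x => x * F) hf
          rw [sub_mul, mul_assoc, e2, mul_assoc, hgF, mul_smul_comm, zero_sub, smul_mul_assoc] at e3
          have e4 : (((f + e : ℝ)) : ℂ) • (v * F) = 0 := by
            push_cast
            rw [add_smul, ← e3]
            abel
          have e5 : ((f + e : ℝ) : ℂ) ≠ 0 := by exact_mod_cast hfe
          exact (smul_eq_zero.1 e4).resolve_left e5
      · by_cases hfe : e - f = 0
        · have h3 : v ∈ Ze55 L h g e := ⟨hv1, by rw [hf]; congr 2; linarith⟩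
          rw [h1, Submodule.mem_bot] at h3
          rw [h3, conjTranspose_zero, zero_mul]
        · have e1 : E (-1) * (vᴴ * F) = vᴴ * F := by
            have := mulE55 D (D.star_one55 hv1) 0
            rw [zero_add] at this
            rw [← mul_assoc, ← this, mul_assoc, hF]
          have e2 : g * (vᴴ * F) = 0 := by rw [← e1, ← mul_assoc, G.rightm, zero_mul]
          have e3 := congrArg (fun x => xᴴ * F) hf
          have hst : star (f : ℂ) = f := Complex.conj_ofReal f
          rw [conjTranspose_sub, conjTranspose_mul, conjTranspose_mul, G.star, conjTranspose_smul, hst, sub_mul,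
            mul_assoc g, e2, sub_zero, mul_assoc, hgF, mul_smul_comm, smul_mul_assoc] at e3
          have e4 : (((e - f : ℝ)) : ℂ) • (vᴴ * F) = 0 := by
            push_cast
            rw [sub_smul, e3, sub_self]
          have e5 : ((e - f : ℝ) : ℂ) ≠ 0 := by exact_mod_cast hfe
          exact (smul_eq_zero.1 e4).resolve_left e5
    | zero => simp
    | add v w hv' hw' hv hw =>
      have m1 : v ∈ Ld L h 1 := (Submodule.span_le.2 fun v hv => hv.1 : _ ≤ Ld L h 1) hv'
      have m2 : w ∈ Ld L h 1 := (Submodule.span_le.2 fun v hv => hv.1 : _ ≤ Ld L h 1) hw'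
      obtain ⟨a1, a2⟩ := hv m1
      obtain ⟨b1, b2⟩ := hw m2
      constructor
      · rw [add_mul, a1, b1, add_zero]
      · rw [conjTranspose_add, add_mul, a2, b2, add_zero]
    | smul c v hv' hv =>
      have m1 : v ∈ Ld L h 1 := (Submodule.span_le.2 fun v hv => hv.1 : _ ≤ Ld L h 1) hv'
      obtain ⟨a1, a2⟩ := hv m1
      constructor
      · rw [smul_mul_assoc, a1, smul_zero]
      · rw [conjTranspose_smul, smul_mul_assoc, a2, smul_zero]
  -- the stable subspace
  let W : Submodule ℂ (n → ℂ) :=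
    { carrier := {v | E 0 *ᵥ v = v ∧ ∀ u ∈ Ld L h 1, u *ᵥ v = 0 ∧ uᴴ *ᵥ v = 0}
      add_mem' := fun {a b} ha hb => by
        refine ⟨by rw [mulVec_add, ha.1, hb.1], fun u hu => ?_⟩
        rw [mulVec_add, mulVec_add, (ha.2 u hu).1, (ha.2 u hu).2, (hb.2 u hu).1, (hb.2 u hu).2, add_zero]
        exact ⟨rfl, rfl⟩
      zero_mem' := ⟨mulVec_zero _, fun u _ => ⟨mulVec_zero _, mulVec_zero _⟩⟩
      smul_mem' := fun c a ha => by
        refine ⟨by rw [mulVec_smul, ha.1], fun u hu => ?_⟩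
        rw [mulVec_smul, mulVec_smul, (ha.2 u hu).1, (ha.2 u hu).2, smul_zero]
        exact ⟨rfl, rfl⟩ }
  have hW : ∀ x ∈ L, ∀ v ∈ W, x *ᵥ v ∈ W := by
    intro x hx v hv
    have e1 : x *ᵥ v = ∑ ν ∈ (Λ ×ˢ Λ).image (fun p => p.1 - p.2), cmp E Λ ν x *ᵥ v := by
      conv_lhs => rw [D.spec.sum_cmp x]
      rw [Matrix.sum_mulVec]
    rw [e1]
    refine Submodule.sum_mem _ fun ν _ => ?_
    have hc := D.cmp_mem_Ld hx ν
    obtain ⟨c, hce⟩ : ∃ c, c = cmp E Λ ν x := ⟨_, rfl⟩
    rw [← hce] at hc ⊢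
    have hcv : c *ᵥ v = E ν *ᵥ (c *ᵥ v) := by
      have := mulE55 D hc 0
      rw [zero_add] at this
      rw [mulVec_mulVec, ← this, ← mulVec_mulVec, hv.1]
    by_cases n1 : ν = 1
    · subst n1
      rw [(hv.2 c hc).1]
      exact zero_mem _
    by_cases n2 : ν = -1
    · subst n2
      have := (hv.2 cᴴ (D.star_mone55 hc)).2
      rw [conjTranspose_conjTranspose] at this
      rw [this]
      exact zero_mem _
    by_cases n3 : ν = 0
    · subst n3
      refine ⟨hcv.symm, fun u hu => ?_⟩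
      constructor
      · have e2 := D.br_one55 hc hu
        have e3 : u *ᵥ (c *ᵥ v) = c *ᵥ (u *ᵥ v) - (c * u - u * c) *ᵥ v := by
          rw [sub_mulVec, ← mulVec_mulVec, ← mulVec_mulVec]
          abel
        rw [e3, (hv.2 u hu).1, (hv.2 _ e2).1, mulVec_zero, sub_zero]
      · have e2 := D.br_one55 (D.star_zero55 hc) hu
        have e3 : uᴴ *ᵥ (c *ᵥ v) = c *ᵥ (uᴴ *ᵥ v) + (cᴴ * u - u * cᴴ)ᴴ *ᵥ v := by
          rw [conjTranspose_sub, conjTranspose_mul, conjTranspose_mul, conjTranspose_conjTranspose, sub_mulVec,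
            ← mulVec_mulVec, ← mulVec_mulVec]
          abel
        rw [e3, (hv.2 u hu).2, (hv.2 _ e2).2, mulVec_zero, add_zero]
    · rw [hcv, T ν n1 n3 n2, zero_mulVec]
      exact zero_mem _
  rcases D.stable W hW with h3 | h3
  · ext i j
    have h4 : (fun i => F i j) ∈ W := by
      have hcol : ∀ A : Matrix n n ℂ, A *ᵥ (fun i => F i j) = fun i => (A * F) i j := by
        intro A
        funext i
        rw [Matrix.mul_apply]
        rfl
      refine ⟨?_, fun u hu => ?_⟩
      · rw [hcol, hF]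
      · obtain ⟨a1, a2⟩ := key u hu
        rw [hcol, hcol, a1, a2]
        exact ⟨rfl, rfl⟩
    rw [h3, Submodule.mem_bot] at h4
    exact congrFun h4 i
  · exfalso
    apply hE1
    apply Matrix.toLin'.injective
    apply LinearMap.ext
    intro v
    have h4 : v ∈ W := by rw [h3]; exact Submodule.mem_top
    have h5 : E 1 *ᵥ v = 0 := by
      rw [← h4.1, mulVec_mulVec, D.spec.mul, if_neg (by norm_num), zero_mulVec]
    rw [Matrix.toLin'_apply, h5, map_zero, LinearMap.zero_apply]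

end Dat

namespace Dat

variable (D : Dat τ L h E Λ) {t : ℝ}
include D

/-- **The contact case has at most four eigenvalues.** -/
theorem four55 (hsmp : ∀ K ≤ L, (∀ X ∈ L, ∀ Y ∈ K, X * Y - Y * X ∈ K) → K = ⊥ ∨ K = L)
    (ht : 0 < t) (htop : ∀ μ, E μ ≠ 0 → μ ≤ t) (hone : Module.finrank ℂ (Ld L h (2 * t)) = 1)
    (h3 : 3 ≤ (E t).rank) : ∃ e : ℝ, 0 ≤ e ∧ ∀ μ, E μ ≠ 0 → μ = t ∨ μ = -t ∨ μ = e ∨ μ = -e := by
  classical
  have hEE : ∀ μ, E μ * E μ = E μ := fun μ => by rw [D.spec.mul, if_pos rfl]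
  have htt : t ≠ -t := by linarith
  have e1 : E t * E (-t) = 0 := by rw [D.spec.mul, if_neg htt]
  have e2 : E (-t) * E t = 0 := by rw [D.spec.mul, if_neg htt.symm]
  have hne : Ld L h (2 * t) ≠ ⊥ := by
    intro h1
    rw [h1, finrank_bot] at hone
    exact zero_ne_one hone
  have hy := D.ext98 ht htop hne
  have D' := D.dat3_55 ht hy
  have T' := E3_three (E t) (E (-t))
  have hLd := D.ld3_55 ht htop
  obtain ⟨⟨x, hx⟩, hx0, hx1⟩ := finrank_eq_one_iff'.1 hone
  have hx0' : x ≠ 0 := fun h => hx0 (Subtype.ext h)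
  rw [← hLd] at hx
  have hEt : E t ≠ 0 := by
    intro h1
    rw [h1, Matrix.rank_zero] at h3
    omega
  have hE1 : E3 (E t) (E (-t)) 1 ≠ 0 := by
    rw [E3_one]
    exact hEt
  obtain ⟨X, C⟩ := exists_ct55 D' T' hE1 hx hx0' (by
    intro y hy'
    rw [hLd] at hy'
    obtain ⟨c, hc⟩ := hx1 ⟨y, hy'⟩
    exact ⟨c, (congrArg Subtype.val hc).symm⟩)
  -- the middle part of `h`
  obtain ⟨g, hg⟩ : ∃ g, g = h - (t : ℂ) • (E t - E (-t)) := ⟨_, rfl⟩
  have hcast : ((-t : ℝ) : ℂ) = -(t : ℂ) := by push_cast; rfl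
  have gt1 : g * E t = 0 := by
    rw [hg, sub_mul, D.spec.h_mul, smul_mul_assoc, sub_mul, hEE, e2, sub_zero, sub_self]
  have gt2 : E t * g = 0 := by
    rw [hg, mul_sub, D.spec.mul_h, mul_smul_comm, mul_sub, hEE, e1, sub_zero, sub_self]
  have gt3 : g * E (-t) = 0 := by
    rw [hg, sub_mul, D.spec.h_mul, smul_mul_assoc, sub_mul, hEE, e1, zero_sub, hcast, neg_smul, smul_neg,
      sub_neg_eq_add, neg_add_cancel]
  have gt4 : E (-t) * g = 0 := by
    rw [hg, mul_sub, D.spec.mul_h, mul_smul_comm, mul_sub, hEE, e2, zero_sub, hcast, neg_smul, smul_neg,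
      sub_neg_eq_add, neg_add_cancel]
  have gs : gᴴ = g := by
    have : star (t : ℂ) = t := Complex.conj_ofReal t
    rw [hg, conjTranspose_sub, conjTranspose_smul, conjTranspose_sub, D.spec.star, D.spec.star, this, D.spec.hh]
  have G : Md55 L (E t - E (-t)) (E3 (E t) (E (-t))) g := by
    refine ⟨⟨?_, ?_⟩, gs, ?_, ?_, ?_, ?_⟩
    · rw [hg]
      exact L.sub_mem D.mem (L.smul_mem _ hy)
    · rw [sub_mul, mul_sub, gt1, gt2, gt3, gt4]
      simp
    · rw [E3_one, gt2]
    · rw [E3_one, gt1]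
    · rw [E3_neg, gt4]
    · rw [E3_neg, gt3]
  -- a middle eigenspace gives elements of degree one
  have hmid : ∀ e : ℝ, e ≠ t → e ≠ -t → E e ≠ 0 →
      ∃ f, (f = e ∨ f = -e) ∧ Ze55 L (E t - E (-t)) g f ≠ ⊥ := by
    intro e he1 he2 hEe
    by_contra hcon
    push Not at hcon
    apply hEe
    have f1 : E t * E e = 0 := by rw [D.spec.mul, if_neg he1.symm]
    have f2 : E (-t) * E e = 0 := by rw [D.spec.mul, if_neg he2.symm]
    refine D'.eig_zero55 T' G hE1 (F := E e) (e := e) ?_ ?_ (hcon e (Or.inl rfl)) (hcon (-e) (Or.inr rfl))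
    · rw [E3_zero, sub_mul, sub_mul, one_mul, f1, f2, sub_zero, sub_zero]
    · rw [hg, sub_mul, D.spec.h_mul, smul_mul_assoc, sub_mul, f1, f2, sub_zero, smul_zero, sub_zero]
  by_cases hex : ∃ e : ℝ, e ≠ t ∧ e ≠ -t ∧ E e ≠ 0
  swap
  · push Not at hex
    refine ⟨t, ht.le, fun μ hμ => ?_⟩
    by_contra hcon
    push Not at hcon
    exact hμ (hex μ hcon.1 hcon.2.1)
  obtain ⟨e, he1, he2, hEe⟩ := hex
  refine ⟨|e|, abs_nonneg e, fun μ hμ => ?_⟩
  by_contra hcon
  push Not at hcon
  obtain ⟨m1, m2, m3, m4⟩ := hcon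
  obtain ⟨f, hf, hf'⟩ := hmid e he1 he2 hEe
  obtain ⟨f2, hf2, hf2'⟩ := hmid μ m1 m2 hμ
  have hab : μ ≠ e ∧ μ ≠ -e := by
    rcases abs_choice e with h4 | h4
    · rw [h4] at m3 m4
      exact ⟨m3, m4⟩
    · rw [h4] at m3 m4
      rw [neg_neg] at m4
      exact ⟨m4, m3⟩
  have n1 : f + f2 ≠ 0 := by
    intro h4
    rcases hf with rfl | rfl <;> rcases hf2 with rfl | rfl
    · exact hab.2 (by linarith)
    · exact hab.1 (by linarith)
    · exact hab.1 (by linarith)
    · exact hab.2 (by linarith)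
  have n2 : f - f2 ≠ 0 := by
    intro h4
    rcases hf with rfl | rfl <;> rcases hf2 with rfl | rfl
    · exact hab.1 (by linarith)
    · exact hab.2 (by linarith)
    · exact hab.2 (by linarith)
    · exact hab.1 (by linarith)
  have h5 := C.rank_two D' T' hsmp hE1 fun x hx y hy y' hy' => C.left_all55 D' T' G hf' hf2' n1 n2 hx hy hy'
  rw [E3_one] at h5
  omega

end Dat

end MH
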