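import Pool.Agent.Helper55.UT.Tri2
import Pool.Agent.Helper55.UG.Fin

/-!
Project UT (MP_b8862a_ag): from eigenvalues to Hodge numbers; the trichotomy in matrix form.
-/

set_option linter.unusedSectionVars false

open Matrix

namespace MH

variable {n : Type*} [Fintype n] [DecidableEq n]

/-- the contact case in terms of Hodge numbers -/
theorem clauseC55 {E : ℝ → Matrix n n ℂ} {r : ℤ → ℕ} {w a b : ℤ} (haw : a + b = w)
    (h1 : ∀ p : ℤ, (E ((2 * p - w : ℤ) : ℝ)).rank = r p) (hneg : ∀ μ, (E (-μ)).rank = (E μ).rank) {e t : ℝ}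
    (htd : t = ((2 * a - w : ℤ) : ℝ)) (he : 0 ≤ e) (hlev : ∀ μ, E μ ≠ 0 → μ = t ∨ μ = -t ∨ μ = e ∨ μ = -e)
    (hle : 0 < e → (E e).rank ≤ (E t).rank ∧ ¬ (E t).rank.Prime) {c : ℤ} (hbc : b < c) (hca : c < a)
    (hc : r c ≠ 0) :
    {p | r p ≠ 0}.ncard ≤ 4 ∧ (∀ c, b < c → c < a → 2 * c ≠ w → r c ≤ r a) ∧ (Odd w → ¬ (r a).Prime) := by
  have hta : (E t).rank = r a := by rw [htd, h1]
  rw [hta] at hle
  have key : ∀ p, r p ≠ 0 → p = a ∨ p = b ∨ ((2 * p - w : ℤ) : ℝ) = e ∨ ((2 * p - w : ℤ) : ℝ) = -e := by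
    intro p hp
    have h2 : E ((2 * p - w : ℤ) : ℝ) ≠ 0 := by
      intro h3
      apply hp
      rw [← h1, h3, Matrix.rank_zero]
    rcases hlev _ h2 with h3 | h3 | h3 | h3
    · left
      rw [htd] at h3
      have : 2 * p - w = 2 * a - w := by exact_mod_cast h3
      omega
    · right; left
      rw [htd] at h3
      have : 2 * p - w = -(2 * a - w) := by exact_mod_cast h3
      omega
    · exact Or.inr (Or.inr (Or.inl h3))
    · exact Or.inr (Or.inr (Or.inr h3))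
  refine ⟨?_, ?_, ?_⟩
  · have hsub : {p | r p ≠ 0} ⊆ (({a, b, c, w - c} : Finset ℤ) : Set ℤ) := by
      intro p hp
      have hc' := key c hc
      have hp' := key p hp
      rw [Finset.mem_coe, Finset.mem_insert, Finset.mem_insert, Finset.mem_insert, Finset.mem_singleton]
      rcases hp' with h3 | h3 | h3
      · exact Or.inl h3
      · exact Or.inr (Or.inl h3)
      · rcases hc' with h4 | h4 | h4
        · omega
        · omega
        · have h5 : ((2 * p - w : ℤ) : ℝ) = ((2 * c - w : ℤ) : ℝ) ∨ ((2 * p - w : ℤ) : ℝ) = -((2 * c - w : ℤ) : ℝ) := by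
            rcases h3 with h3 | h3 <;> rcases h4 with h4 | h4 <;> rw [h3, h4]
            · exact Or.inl rfl
            · exact Or.inr (neg_neg e).symm
            · exact Or.inr rfl
            · exact Or.inl rfl
          rcases h5 with h5 | h5
          · have : 2 * p - w = 2 * c - w := by exact_mod_cast h5
            omega
          · have : 2 * p - w = -(2 * c - w) := by exact_mod_cast h5
            omega
    calc {p | r p ≠ 0}.ncard ≤ (({a, b, c, w - c} : Finset ℤ) : Set ℤ).ncard :=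
          Set.ncard_le_ncard hsub (Finset.finite_toSet _)
      _ = ({a, b, c, w - c} : Finset ℤ).card := Set.ncard_coe_finset _
      _ ≤ 4 := Finset.card_le_four
  · intro c' hb ha h2c
    by_cases h0 : r c' = 0
    · omega
    rcases key c' h0 with h3 | h3 | h3
    · omega
    · omega
    have hcr : ((2 * c' - w : ℤ) : ℝ) ≠ 0 := by
      have : 2 * c' - w ≠ 0 := by omega
      exact_mod_cast this
    have he0 : 0 < e := by
      rcases h3 with h3 | h3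
      · exact lt_of_le_of_ne he fun h4 => hcr (by rw [h3, ← h4])
      · exact lt_of_le_of_ne he fun h4 => hcr (by rw [h3, ← h4, neg_zero])
    have h4 := (hle he0).1
    rcases h3 with h3 | h3
    · rwa [← h3, h1] at h4
    · have h5 := h1 c'
      rw [h3, hneg] at h5
      rwa [h5] at h4
  · intro hw
    have he0 : 0 < e := by
      rcases key c hc with h3 | h3 | h3
      · omega
      · omega
      have hcr : ((2 * c - w : ℤ) : ℝ) ≠ 0 := by
        have : 2 * c - w ≠ 0 := by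
          rcases hw with ⟨x, hx⟩
          omega
        exact_mod_cast this
      rcases h3 with h3 | h3
      · exact lt_of_le_of_ne he fun h4 => hcr (by rw [h3, ← h4])
      · exact lt_of_le_of_ne he fun h4 => hcr (by rw [h3, ← h4, neg_zero])
    exact (hle he0).2

/-- the case without elements of extreme degree in terms of Hodge numbers -/
theorem clauseN55 {E : ℝ → Matrix n n ℂ} {r : ℤ → ℕ} {w a b : ℤ} (haw : a + b = w)
    (h1 : ∀ p : ℤ, (E ((2 * p - w : ℤ) : ℝ)).rank = r p)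
    (hint : ∀ μ, E μ ≠ 0 → ∃ p : ℤ, μ = ((2 * p - w : ℤ) : ℝ)) {e t : ℝ}
    (htd : t = ((2 * a - w : ℤ) : ℝ)) (he1 : -t < e) (he2 : e < t) (hle : (E t).rank ≤ (E e).rank) {c : ℤ} (hbc : b < c)
    (hca : c < a) : ∃ c, b < c ∧ c < a ∧ r a ≤ r c := by
  rw [htd, h1] at hle
  by_cases h0 : E e = 0
  · rw [h0, Matrix.rank_zero] at hle
    exact ⟨c, hbc, hca, by omega⟩
  · obtain ⟨p, hp⟩ := hint e h0
    rw [hp, h1] at hle
    rw [hp, htd] at he1 he2
    have e1 : -(2 * a - w) < 2 * p - w := by exact_mod_cast he1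
    have e2 : 2 * p - w < 2 * a - w := by exact_mod_cast he2
    exact ⟨p, by omega, by omega, hle⟩

/-- **The gap theorem in matrix form, with all bounds.** -/
theorem tri_matrix55b [Nonempty n] {ε : ℂ} (hε : ε * ε = 1) {Q' Qi : Matrix n n ℂ} (hQs : Q'ᵀ = ε • Q')
    (hQ1 : Q' * Qi = 1) (hQ2 : Qi * Q' = 1)
    {L : Submodule ℂ (Matrix n n ℂ)} (hbr : ∀ X ∈ L, ∀ Y ∈ L, X * Y - Y * X ∈ L)
    (hirr : ∀ W : Submodule ℂ (n → ℂ), (∀ X ∈ L, ∀ w ∈ W, X *ᵥ w ∈ W) → W = ⊥ ∨ W = ⊤)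
    (hsk : ∀ X ∈ L, Xᵀ * Q' + Q' * X = 0) {h : Matrix n n ℂ} (hh : h ∈ L)
    {E : ℝ → Matrix n n ℂ} {Λ : Finset ℝ} (hE : SD h E Λ)
    (hd : ∀ d : ℕ, (∀ μ ∈ Λ, d ∣ (E μ).rank) → d = 1) {t : ℝ} (ht : 0 < t) (htop : ∀ μ, E μ ≠ 0 → μ ≤ t)
    (h0 : 1 - E t - E (-t) ≠ 0) :
    ((∀ X ∈ L, E t * X * E (-t) = X → X = 0) ∧ ∃ e, -t < e ∧ e < t ∧ (E t).rank ≤ (E e).rank) ∨
    ((ε = 1 → Even (E t).rank) ∧ (ε = -1 → 3 ≤ (E t).rank) ∧ 5 * (E t).rank ≤ 2 * Fintype.card n ∧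
      ((E t).rank = 2 ∨ ∃ e : ℝ, 0 ≤ e ∧ e < t ∧ (∀ μ, E μ ≠ 0 → μ = t ∨ μ = -t ∨ μ = e ∨ μ = -e) ∧
          (0 < e → (E e).rank ≤ (E t).rank ∧ ¬ (E t).rank.Prime)) ∧
      ∃ X₀ : Matrix n n ℂ, X₀.rank = (E t).rank ∧
      ∀ X : Matrix n n ℂ, (X ∈ L ∧ E t * X * E (-t) = X) ↔ ∃ c : ℂ, X = c • X₀) ∨
    ∀ X : Matrix n n ℂ, Xᵀ * Q' + Q' * X = 0 → X ∈ L := by
  classical
  obtain ⟨B, Bi, h1, h2, h3, h4⟩ := exists_herm L hbr hirr (fun X hX => tr_of_skew98 hQ1 hQ2 (hsk X hX)) hh hE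
  have D := dat_irr98 hε hQs hQ1 hQ2 hbr hirr hsk hh hE h1 h2 h3 h4
  have b1 : Bᵀ * Biᵀ = 1 := by rw [← Matrix.transpose_mul, h2, Matrix.transpose_one]
  have b2 : Biᵀ * Bᵀ = 1 := by rw [← Matrix.transpose_mul, h1, Matrix.transpose_one]
  have hGiG : B * Qi * Bᵀ * (Biᵀ * Q' * Bi) = 1 := by
    calc B * Qi * Bᵀ * (Biᵀ * Q' * Bi) = B * Qi * (Bᵀ * Biᵀ) * Q' * Bi := by simp only [mul_assoc]
      _ = B * (Qi * Q') * Bi := by rw [b1, mul_one]; simp only [mul_assoc]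
      _ = 1 := by rw [hQ2, mul_one, h1]
  have hGGi : Biᵀ * Q' * Bi * (B * Qi * Bᵀ) = 1 := by
    calc Biᵀ * Q' * Bi * (B * Qi * Bᵀ) = Biᵀ * Q' * (Bi * B) * Qi * Bᵀ := by simp only [mul_assoc]
      _ = Biᵀ * (Q' * Qi) * Bᵀ := by rw [h2, mul_one]; simp only [mul_assoc]
      _ = 1 := by rw [hQ1, mul_one, b2]
  have hF : (Biᵀ * Q' * Bi)ᵀ = ε • (Biᵀ * Q' * Bi) := by
    rw [Matrix.transpose_mul, Matrix.transpose_mul, Matrix.transpose_transpose, hQs, smul_mul_assoc, mul_smul_comm,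
      ← mul_assoc]
  -- skew matrices in the new basis
  have hskc : ∀ X : Matrix n n ℂ, Xᵀ * Q' + Q' * X = 0 →
      (cj B Bi X)ᵀ * (Biᵀ * Q' * Bi) + (Biᵀ * Q' * Bi) * cj B Bi X = 0 := by
    intro X hX
    have e1 : (cj B Bi X)ᵀ * (Biᵀ * Q' * Bi) = Biᵀ * (Xᵀ * Q') * Bi := by
      unfold cj
      rw [Matrix.transpose_mul, Matrix.transpose_mul]
      calc Biᵀ * (Xᵀ * Bᵀ) * (Biᵀ * Q' * Bi) = Biᵀ * Xᵀ * (Bᵀ * Biᵀ) * Q' * Bi := by simp only [mul_assoc]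
        _ = _ := by rw [b1, mul_one]; simp only [mul_assoc]
    have e2 : (Biᵀ * Q' * Bi) * cj B Bi X = Biᵀ * (Q' * X) * Bi := by
      unfold cj
      calc Biᵀ * Q' * Bi * (B * X * Bi) = Biᵀ * Q' * (Bi * B) * X * Bi := by simp only [mul_assoc]
        _ = _ := by rw [h2, mul_one]; simp only [mul_assoc]
    rw [e1, e2, ← Matrix.add_mul, ← Matrix.mul_add, hX, mul_zero, zero_mul]
  have hEE : ∀ μ, E μ * E μ = E μ := fun μ => by rw [hE.mul, if_pos rfl]
  have r1 : ∀ μ, (cj B Bi (E μ)).rank = (E μ).rank := fun μ => rank_cj h1 h2 (hEE μ)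
  have hne0 : ∀ μ, cj B Bi (E μ) ≠ 0 ↔ E μ ≠ 0 := by
    intro μ
    constructor
    · exact fun h hE0 => h (by rw [hE0, cj_zero])
    · intro h hE0
      apply h
      have := congrArg (cj Bi B) hE0
      rwa [cj_cj h2, cj_zero] at this
  have htop' : ∀ μ, cj B Bi (E μ) ≠ 0 → μ ≤ t := fun μ hμ => htop μ fun h => hμ (by rw [h, cj_zero])
  have hsmp : (∀ K : Submodule ℂ (Matrix n n ℂ), IsI (LBB27 L B Bi) K → cj B Bi h ∈ K ∨
      cj B Bi h ∈ pp (LBB27 L B Bi) K) → Smp (LBB27 L B Bi) := fun hor =>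
    D.smp_of_or hor (by
      intro d hdd
      refine hd d fun μ hμ => ?_
      rw [← r1 μ]
      exact hdd μ hμ)
  have h0' : 1 - cj B Bi (E t) - cj B Bi (E (-t)) ≠ 0 := by
    intro h5
    apply h0
    have h6 := congrArg (cj Bi B) h5
    rw [← cj_one (B := B) (Bi := Bi) h1, ← cj_sub, ← cj_sub, cj_cj h2, cj_zero] at h6
    exact h6
  have hbot : ∀ μ, E μ ≠ 0 → -t ≤ μ := by
    intro μ hμ
    have e1 : E (-μ) ≠ 0 := by
      intro h5
      apply hμ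
      have h6 := E_symm98 hQ1 hQ2 (hsk h hh) hE (-μ)
      rw [h5, Matrix.transpose_zero, mul_zero, zero_mul, neg_neg] at h6
      exact h6
    have := htop _ e1
    linarith
  have hLd : ∀ X : Matrix n n ℂ, (X ∈ L ∧ E t * X * E (-t) = X) ↔
      cj B Bi X ∈ Ld (LBB27 L B Bi) (cj B Bi h) (2 * t) := by
    intro X
    rw [← hE.top_iff2 htop hbot, mem_Ld, mem_LBB27, cj_cj h2, cj_mul h2, cj_mul h2, ← cj_sub, ← cj_smul]
    refine and_congr_right fun _ => ⟨fun e1 => by rw [e1], fun e1 => ?_⟩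
    have e2 := congrArg (cj Bi B) e1
    rwa [cj_cj h2, cj_cj h2] at e2
  rcases D.tri55b hGGi hGiG hε hF (by
      intro X hX
      have e1 := hskc _ (hsk _ (mem_LBB27.1 hX))
      rwa [cj_cj h1] at e1) ht htop' h0' hsmp with ⟨h5, e, he1, he2, he3⟩ | ⟨h5, h6, h7, h7', h8⟩ | h5
  · left
    refine ⟨?_, e, he1, he2, by rwa [r1, r1] at he3⟩
    intro X hX hX'
    have e1 := (hLd X).1 ⟨hX, hX'⟩
    rw [h5, Submodule.mem_bot] at e1
    have e2 := congrArg (cj Bi B) e1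
    rwa [cj_cj h2, cj_zero] at e2
  · right; left
    rw [r1] at h6 h7 h7'
    refine ⟨h6, h7, h7', ?_, ?_⟩
    · rcases h8 with h8 | ⟨e, he, het, hlev, hle⟩
      · left
        rwa [r1] at h8
      · right
        rw [r1, r1] at hle
        exact ⟨e, he, het, fun μ hμ => hlev μ ((hne0 μ).2 hμ), hle⟩
    · obtain ⟨⟨Y, hY⟩, hY0, hYs⟩ := finrank_eq_one_iff'.1 h5
      have hrk := D.rank_ext2 htop' h5 hY (fun h8 => hY0 (Subtype.ext h8))
      refine ⟨cj Bi B Y, ?_, ?_⟩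
      · rw [← r1 t, ← hrk]
        unfold cj
        apply le_antisymm
        · exact (Matrix.rank_mul_le_left _ _).trans (Matrix.rank_mul_le_right _ _)
        · have e2 : Y = B * (Bi * Y * B) * Bi := by
            calc Y = (B * Bi) * Y * (B * Bi) := by rw [h1, one_mul, mul_one]
              _ = _ := by simp only [mul_assoc]
          conv_lhs => rw [e2]
          exact (Matrix.rank_mul_le_left _ _).trans (Matrix.rank_mul_le_right _ _)
      · intro X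
        rw [hLd]
        constructor
        · intro hX
          obtain ⟨c, hc⟩ := hYs ⟨_, hX⟩
          refine ⟨c, ?_⟩
          have h8 : c • Y = cj B Bi X := congrArg Subtype.val hc
          rw [← cj_smul, h8, cj_cj h2]
        · rintro ⟨c, hc⟩
          rw [hc, cj_smul, cj_cj h1]
          exact Submodule.smul_mem _ _ hY
  · right; right
    intro X hX
    have h6 := h5 _ (hskc X hX)
    rwa [mem_LBB27, cj_cj h2] at h6

/-- The bound for an odd prime without elements of extreme degree, matrix form. -/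
theorem ep_bot55 [Nonempty n] {Q' Qi : Matrix n n ℂ} (hQ1 : Q' * Qi = 1) (hQ2 : Qi * Q' = 1)
    {L : Submodule ℂ (Matrix n n ℂ)} (hbr : ∀ X ∈ L, ∀ Y ∈ L, X * Y - Y * X ∈ L)
    (hirr : ∀ W : Submodule ℂ (n → ℂ), (∀ X ∈ L, ∀ w ∈ W, X *ᵥ w ∈ W) → W = ⊥ ∨ W = ⊤)
    (hsk : ∀ X ∈ L, Xᵀ * Q' + Q' * X = 0) (hsmp : Smp L) {h : Matrix n n ℂ} (hh : h ∈ L)
    {E : ℝ → Matrix n n ℂ} {Λ : Finset ℝ} (hE : SD h E Λ) {w a : ℤ} (hwa : w < 2 * a)
    (hint : ∀ μ, E μ ≠ 0 → ∃ p : ℤ, μ = ((2 * p - w : ℤ) : ℝ) ∧ p ≤ a)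
    (sp : (E ((2 * a - w : ℤ) : ℝ)).rank.Prime) (s2 : (E ((2 * a - w : ℤ) : ℝ)).rank ≠ 2)
    (hn : 2 * (E ((2 * a - w : ℤ) : ℝ)).rank < Fintype.card n)
    (hle : Module.finrank ℂ (Ld L h (2 * ((2 * a - w : ℤ) : ℝ))) ≤ 1) :
    (E ((2 * a - w : ℤ) : ℝ)).rank ^ 2 < 2 * Fintype.card n := by
  by_contra hcon
  have ht0 : (0 : ℝ) < ((2 * a - w : ℤ) : ℝ) := by
    have : 0 < 2 * a - w := by omega
    exact_mod_cast this
  refine ep_two98 hQ1 hQ2 hbr hirr hsk hsmp hh hE ht0 rfl ?_ rfl sp ?_ hn (by omega) hle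
  · intro μ hμ
    obtain ⟨p, rfl, hp⟩ := hint μ hμ
    refine ⟨(a - p).toNat, ?_⟩
    have h10 : (((a - p).toNat : ℤ) : ℝ) = ((a - p : ℤ) : ℝ) := by rw [Int.toNat_of_nonneg (by omega)]
    push_cast at h10 ⊢
    rw [h10]
    ring
  · have := sp.two_le
    omega

end MH
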