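import Pool.Agent.Helper98.MH.Spc
import Pool.Agent.Helper98.PG.Ext
import Pool.Agent.Helper55.UG.Small2

/-!
Project UT (MP_b8862a_ag): the largest eigenvalue on a space of matrices, and the vectors killed by all elements of
positive degree.
-/

set_option linter.unusedSectionVars false

open Matrix

namespace MH

variable {n : Type*} [Fintype n] [DecidableEq n]

/-- **The largest eigenvalue.** A hermitian matrix has a largest eigenvalue on a space of matrices that it preserves. -/
theorem max55 {S : Matrix n n ℂ} (hS : Sᴴ = S) (Y : Submodule ℂ (Matrix n n ℂ)) (hY : ∀ y ∈ Y, S * y ∈ Y)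
    (hne : Y ≠ ⊥) : ∃ a : ℝ, ∃ X ∈ Y, X ≠ 0 ∧ S * X = (a : ℂ) • X ∧
      ∀ y ∈ Y, (yᴴ * (S * y)).trace.re ≤ a * (yᴴ * y).trace.re := by
  classical
  obtain ⟨F, Λ, hF, hadj⟩ := exists_spec98 hS
  have hst : ∀ T ∈ Algebra.adjoin ℂ ({S} : Set (Matrix n n ℂ)), ∀ y ∈ Y, T * y ∈ Y := by
    intro T hT
    induction hT using Algebra.adjoin_induction with
    | mem x hx =>
      rw [Set.mem_singleton_iff] at hx
      rw [hx]
      exact hY
    | algebraMap r =>
      intro y hy
      rw [Algebra.algebraMap_eq_smul_one, smul_mul_assoc, one_mul]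
      exact Y.smul_mem _ hy
    | add x y _ _ hx hy =>
      intro z hz
      rw [add_mul]
      exact Y.add_mem (hx z hz) (hy z hz)
    | mul x y _ _ hx hy =>
      intro z hz
      rw [mul_assoc]
      exact hx _ (hy z hz)
  obtain ⟨y0, hy0, hy0n⟩ := Submodule.exists_mem_ne_zero_of_ne_bot hne
  have hnonempty : (Λ.filter fun μ => ∃ y ∈ Y, F μ * y ≠ 0).Nonempty := by
    by_contra hcon
    rw [Finset.not_nonempty_iff_eq_empty, Finset.filter_eq_empty_iff] at hcon
    apply hy0n
    rw [← one_mul y0, ← hF.sum, Finset.sum_mul]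
    refine Finset.sum_eq_zero fun μ hμ => ?_
    have h1 := hcon hμ
    push Not at h1
    exact h1 y0 hy0
  obtain ⟨a, ha⟩ : ∃ a, a = (Λ.filter fun μ => ∃ y ∈ Y, F μ * y ≠ 0).max' hnonempty := ⟨_, rfl⟩
  have ha1 := (Λ.filter fun μ => ∃ y ∈ Y, F μ * y ≠ 0).max'_mem hnonempty
  rw [← ha, Finset.mem_filter] at ha1
  obtain ⟨haΛ, y1, hy1, hy1n⟩ := ha1
  refine ⟨a, F a * y1, hst _ (hadj a) _ hy1, hy1n, ?_, ?_⟩
  · rw [← mul_assoc, hF.h_mul, smul_mul_assoc]
  · intro y hy
    have hzero : ∀ μ ∈ Λ, a < μ → F μ * y = 0 := by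
      intro μ hμ hlt
      by_contra hcon
      have h1 := (Λ.filter fun μ => ∃ y ∈ Y, F μ * y ≠ 0).le_max' μ
        (Finset.mem_filter.2 ⟨hμ, y, hy, hcon⟩)
      rw [← ha] at h1
      linarith
    have e1 : (yᴴ * (S * y)).trace.re = ∑ μ ∈ Λ, μ * ((F μ * y)ᴴ * (F μ * y)).trace.re := by
      conv_lhs => rw [hF.eq]
      rw [Finset.sum_mul, Finset.mul_sum, trace_sum, Complex.re_sum]
      refine Finset.sum_congr rfl fun μ _ => ?_
      rw [smul_mul_assoc, mul_smul_comm, trace_smul, smul_eq_mul, Complex.re_ofReal_mul]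
      congr 3
      rw [conjTranspose_mul, hF.star, mul_assoc, ← mul_assoc (F μ) (F μ), hF.mul, if_pos rfl]
    have e2 : (yᴴ * y).trace.re = ∑ μ ∈ Λ, ((F μ * y)ᴴ * (F μ * y)).trace.re := by
      have e3 : yᴴ * y = ∑ μ ∈ Λ, yᴴ * (F μ * y) := by
        rw [← Finset.mul_sum, ← Finset.sum_mul, hF.sum, one_mul]
      rw [e3, trace_sum, Complex.re_sum]
      refine Finset.sum_congr rfl fun μ _ => ?_
      congr 2
      rw [conjTranspose_mul, hF.star, mul_assoc, ← mul_assoc (F μ) (F μ), hF.mul, if_pos rfl]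
    rw [e1, e2, Finset.mul_sum]
    refine Finset.sum_le_sum fun μ hμ => ?_
    rcases le_or_gt μ a with h1 | h1
    · exact mul_le_mul_of_nonneg_right h1 (trace_nonneg _)
    · rw [hzero μ hμ h1]
      simp

variable {h : Matrix n n ℂ} {E : ℝ → Matrix n n ℂ} {Λ : Finset ℝ}
variable {τ : Matrix n n ℂ →ₗ[ℂ] Matrix n n ℂ} {L : Submodule ℂ (Matrix n n ℂ)}

/-- the products of `r` elements of `L` -/
lemma pow_comm55 (hbr : ∀ x ∈ L, ∀ y ∈ L, x * y - y * x ∈ L) (r : ℕ) : ∀ w ∈ L ^ r, ∀ z ∈ L, w * z - z * w ∈ L ^ r := by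
  induction r with
  | zero =>
    intro w hw z _
    rw [pow_zero, Submodule.mem_one] at hw
    obtain ⟨c, rfl⟩ := hw
    rw [Algebra.algebraMap_eq_smul_one, smul_mul_assoc, mul_smul_comm, one_mul, mul_one, sub_self]
    exact zero_mem _
  | succ r ih =>
    intro w hw z hz
    rw [pow_succ'] at hw
    induction hw using Submodule.mul_induction_on' with
    | mem_mul_mem x hx y hy =>
      have e1 : x * y * z - z * (x * y) = x * (y * z - z * y) + (x * z - z * x) * y := by noncomm_ring
      rw [e1, pow_succ']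
      exact add_mem (Submodule.mul_mem_mul hx (ih y hy z hz)) (Submodule.mul_mem_mul (hbr x hx z hz) hy)
    | add x _ y _ hx hy =>
      have e1 : (x + y) * z - z * (x + y) = (x * z - z * x) + (y * z - z * y) := by noncomm_ring
      rw [e1]
      exact add_mem hx hy

namespace Dat

variable (D : Dat τ L h E Λ)
include D

/-- **Vectors killed by all elements of positive degree** lie in the top eigenspace. -/
theorem sing55 {t : ℝ} (htop : ∀ μ, E μ ≠ 0 → μ ≤ t) (ht : E t ≠ 0) {μ : ℝ} (hμ : μ ≠ t) {X : Matrix n n ℂ}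
    (hX : E μ * X = X) (hk : ∀ ν : ℝ, 0 < ν → ∀ z ∈ Ld L h ν, z * X = 0) : X = 0 := by
  classical
  -- the claim for products
  have key : ∀ r : ℕ, ∀ w ∈ L ^ r, ∀ X : Matrix n n ℂ, E μ * X = X →
      (∀ ν : ℝ, 0 < ν → ∀ z ∈ Ld L h ν, z * X = 0) → E t * (w * X) = 0 := by
    intro r
    induction r with
    | zero =>
      intro w hw X hX _
      rw [pow_zero, Submodule.mem_one] at hw
      obtain ⟨c, rfl⟩ := hw
      rw [Algebra.algebraMap_eq_smul_one, smul_mul_assoc, one_mul, mul_smul_comm, ← hX, ← mul_assoc, D.spec.mul,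
        if_neg (Ne.symm hμ), zero_mul, smul_zero]
    | succ r ih =>
      intro w hw X hX hk
      rw [pow_succ] at hw
      induction hw using Submodule.mul_induction_on' with
      | mem_mul_mem y hy z hz =>
        have e1 : E t * (y * z * X) = ∑ ν ∈ (Λ ×ˢ Λ).image (fun p => p.1 - p.2), E t * (y * cmp E Λ ν z * X) := by
          conv_lhs => rw [D.spec.sum_cmp z]
          rw [Finset.mul_sum, Finset.sum_mul, Finset.mul_sum]
        rw [e1]
        refine Finset.sum_eq_zero fun ν _ => ?_
        have hc := D.cmp_mem_Ld hz ν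
        obtain ⟨c, hce⟩ : ∃ c, c = cmp E Λ ν z := ⟨_, rfl⟩
        rw [← hce] at hc ⊢
        rcases lt_trichotomy ν 0 with h1 | h1 | h1
        · have e2 : E t * (y * c * X) = E t * c * (y * X) + E t * ((y * c - c * y) * X) := by noncomm_ring
          rw [e2, D.E_neg98 htop h1 hc, zero_mul, zero_add]
          exact ih _ (pow_comm55 D.br r y hy c hc.1) X hX hk
        · subst h1
          rw [mul_assoc y]
          refine ih y hy (c * X) ?_ ?_
          · rw [← mul_assoc, D.Ld_comm_E98 hc, mul_assoc, hX]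
          · intro ν hν z' hz'
            have e2 : z' * (c * X) = (z' * c - c * z') * X + c * (z' * X) := by noncomm_ring
            have e3 := Ld_bracket D.br hz' hc
            rw [add_zero] at e3
            rw [e2, hk ν hν _ e3, hk ν hν _ hz', mul_zero, add_zero]
        · rw [mul_assoc y, hk ν h1 c hc, mul_zero, mul_zero]
      | add x _ y _ hx hy =>
        rw [add_mul, mul_add, hx, hy, add_zero]
  -- the stable subspace
  let W : Submodule ℂ (n → ℂ) :=
    { carrier := {v | ∀ r : ℕ, ∀ w ∈ L ^ r, (E t * w) *ᵥ v = 0}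
      add_mem' := fun {a b} ha hb r w hw => by rw [mulVec_add, ha r w hw, hb r w hw, add_zero]
      zero_mem' := fun r w _ => by rw [mulVec_zero]
      smul_mem' := fun c a ha r w hw => by rw [mulVec_smul, ha r w hw, smul_zero] }
  have hW : ∀ x ∈ L, ∀ v ∈ W, x *ᵥ v ∈ W := by
    intro x hx v hv r w hw
    rw [mulVec_mulVec, mul_assoc]
    exact hv (r + 1) (w * x) (by rw [pow_succ]; exact Submodule.mul_mem_mul hw hx)
  rcases D.stable W hW with h1 | h1
  · ext i j
    have h2 : (fun i => X i j) ∈ W := by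
      intro r w hw
      have h3 := key r w hw X hX hk
      rw [← mul_assoc] at h3
      funext i
      have h5 := congrFun (congrFun h3 i) j
      rw [Matrix.mul_apply] at h5
      simpa [Matrix.mulVec, dotProduct] using h5
    rw [h1, Submodule.mem_bot] at h2
    exact congrFun h2 i
  · exfalso
    apply ht
    apply Matrix.toLin'.injective
    apply LinearMap.ext
    intro v
    have h2 : v ∈ W := by rw [h1]; exact Submodule.mem_top
    have h3 := h2 0 1 (by rw [pow_zero]; exact Submodule.mem_one.2 ⟨1, map_one _⟩)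
    rw [mul_one] at h3
    rw [Matrix.toLin'_apply, h3, map_zero, LinearMap.zero_apply]

end Dat

end MH
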