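import Pool.Agent.Helper55.UT.Lev

/-!
Project UT (MP_b8862a_ag): the contact case, elements that live on the middle eigenspace.
-/

set_option linter.unusedSectionVars false

open Matrix

namespace MH

variable {n : Type*} [Fintype n] [DecidableEq n]
variable {h : Matrix n n ℂ} {E : ℝ → Matrix n n ℂ} {Λ : Finset ℝ}
variable {τ : Matrix n n ℂ →ₗ[ℂ] Matrix n n ℂ} {L : Submodule ℂ (Matrix n n ℂ)}

/-- a positive matrix whose square is a multiple of a projection -/
lemma psd55 {P T : Matrix n n ℂ} (hPs : Pᴴ = P) (hT : Tᴴ = T) (hTP : T * P = T) {c : ℝ}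
    (hc : 0 ≤ c) (hTT : T * T = ((c ^ 2 : ℝ) : ℂ) • P) (hpos : ∀ Y : Matrix n n ℂ, 0 ≤ (Yᴴ * (T * Y)).trace.re) :
    T = (c : ℂ) • P := by
  rcases hc.eq_or_lt with rfl | hc
  · have h1 : T = 0 := by
      apply eq_zero_of_trace
      rw [hT, hTT]
      simp
    rw [h1]
    simp
  have hPT : P * T = T := by
    have := congrArg conjTranspose hTP
    rwa [conjTranspose_mul, hPs, hT] at this
  obtain ⟨Y, hY⟩ : ∃ Y, Y = T - (c : ℂ) • P := ⟨_, rfl⟩
  have hstar : star (c : ℂ) = c := Complex.conj_ofReal c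
  have hYs : Yᴴ = Y := by rw [hY, conjTranspose_sub, conjTranspose_smul, hT, hPs, hstar]
  have h1 : T * Y = -((c : ℂ) • Y) := by
    rw [hY, mul_sub, mul_smul_comm, hTT, hTP, smul_sub, smul_smul, neg_sub]
    push_cast
    rw [sq]
  have h2 : (Yᴴ * (T * Y)).trace.re = -(c * (Yᴴ * Y).trace.re) := by
    rw [h1, mul_neg, mul_smul_comm, trace_neg, trace_smul, smul_eq_mul, Complex.neg_re, Complex.re_ofReal_mul]
  have h3 := hpos Y
  rw [h2] at h3
  have h4 : 0 ≤ (Yᴴ * Y).trace.re := trace_nonneg Y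
  have h5 : (Yᴴ * Y).trace.re = 0 := by nlinarith
  have h6 : Y = 0 := by
    apply eq_zero_of_trace
    exact h5
  rw [hY, sub_eq_zero] at h6
  exact h6

namespace Ct55

variable {X g : Matrix n n ℂ} (C : Ct55 L h E X) (D : Dat τ L h E Λ) (T : Three27 E)
include C D T

/-- **The square of an element of the middle is a multiple of the projection.** -/
theorem sq55 (G : Md55 L h E g) (hsmp : ∀ K ≤ L, (∀ X ∈ L, ∀ Y ∈ K, X * Y - Y * X ∈ K) → K = ⊥ ∨ K = L)
    (h3 : 3 ≤ (E 1).rank) : ∃ e : ℝ, 0 ≤ e ∧ g * g = ((e ^ 2 : ℝ) : ℂ) • E 0 := by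
  classical
  have hE1 : E 1 ≠ 0 := by
    intro h1
    rw [h1, Matrix.rank_zero] at h3
    omega
  obtain ⟨F, ΛT, hF, hadj⟩ := exists_spec98 G.star
  have hgE : g * E 0 = g := by
    have h1 : g * (E 1 + E 0 + E (-1)) = g := by rw [D.sum327 T, mul_one]
    rwa [mul_add, mul_add, G.right, G.rightm, zero_add, add_zero] at h1
  have hEg : E 0 * g = g := by
    have := congrArg conjTranspose hgE
    rwa [conjTranspose_mul, D.spec.star, G.star] at this
  have hFE : ∀ μ, E 0 * F μ = F μ * E 0 := by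
    intro μ
    have key : ∀ a ∈ Algebra.adjoin ℂ ({g} : Set (Matrix n n ℂ)), E 0 * a = a * E 0 := by
      intro a ha
      induction ha using Algebra.adjoin_induction with
      | mem x hx =>
        rw [Set.mem_singleton_iff] at hx
        rw [hx, hgE, hEg]
      | algebraMap r =>
        rw [Algebra.algebraMap_eq_smul_one]
        simp
      | add x y _ _ hx hy => rw [mul_add, add_mul, hx, hy]
      | mul x y _ _ hx hy => rw [← mul_assoc, hx, mul_assoc, hy, mul_assoc]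
    exact key _ (hadj μ)
  have hmid : ∀ μ : ℝ, F μ * E 0 ≠ 0 → ∃ f, (f = μ ∨ f = -μ) ∧ Ze55 L h g f ≠ ⊥ := by
    intro μ hμ
    by_contra hcon
    push Not at hcon
    apply hμ
    refine D.eig_zero55 T G hE1 (F := F μ * E 0) (e := μ) ?_ ?_ (hcon μ (Or.inl rfl)) (hcon (-μ) (Or.inr rfl))
    · rw [← mul_assoc, hFE, mul_assoc, D.E00]
    · rw [← mul_assoc, hF.h_mul, smul_mul_assoc]
  have hsame : ∀ e μ : ℝ, F e * E 0 ≠ 0 → F μ * E 0 ≠ 0 → μ ^ 2 = e ^ 2 := by
    intro e μ he hμ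
    obtain ⟨f, hf, hf'⟩ := hmid e he
    obtain ⟨f2, hf2, hf2'⟩ := hmid μ hμ
    have hq1 : f ^ 2 = e ^ 2 := by rcases hf with rfl | rfl <;> ring
    have hq2 : f2 ^ 2 = μ ^ 2 := by rcases hf2 with rfl | rfl <;> ring
    by_contra hne
    have n1 : f + f2 ≠ 0 := by
      intro h4
      apply hne
      rw [← hq1, ← hq2]
      have : f2 = -f := by linarith
      rw [this]
      ring
    have n2 : f - f2 ≠ 0 := by
      intro h4
      apply hne
      rw [← hq1, ← hq2]
      have : f2 = f := by linarith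
      rw [this]
    have h5 := C.rank_two D T hsmp hE1 fun x hx y hy y' hy' => C.left_all55 D T G hf' hf2' n1 n2 hx hy hy'
    omega
  by_cases hex : ∃ e : ℝ, F e * E 0 ≠ 0
  · obtain ⟨e, he⟩ := hex
    refine ⟨|e|, abs_nonneg e, ?_⟩
    rw [sq_abs]
    have h1 : ∀ μ, g * g * (F μ * E 0) = ((e ^ 2 : ℝ) : ℂ) • (F μ * E 0) := by
      intro μ
      by_cases hμ : F μ * E 0 = 0
      · rw [hμ, mul_zero, smul_zero]
      · rw [mul_assoc, ← mul_assoc g (F μ), hF.h_mul, smul_mul_assoc, mul_smul_comm, ← mul_assoc, hF.h_mul,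
          smul_mul_assoc, smul_smul, ← hsame e μ he hμ]
        congr 1
        push_cast
        ring
    calc g * g = g * g * ((∑ μ ∈ ΛT, F μ) * E 0) := by rw [hF.sum, one_mul, mul_assoc, hgE]
      _ = ∑ μ ∈ ΛT, g * g * (F μ * E 0) := by rw [Finset.sum_mul, Finset.mul_sum]
      _ = ∑ μ ∈ ΛT, ((e ^ 2 : ℝ) : ℂ) • (F μ * E 0) := Finset.sum_congr rfl fun μ _ => h1 μ
      _ = ((e ^ 2 : ℝ) : ℂ) • ((∑ μ ∈ ΛT, F μ) * E 0) := by rw [← Finset.smul_sum, Finset.sum_mul]
      _ = _ := by rw [hF.sum, one_mul]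
  · push Not at hex
    refine ⟨0, le_rfl, ?_⟩
    have h1 : E 0 = 0 := by
      calc E 0 = (∑ μ ∈ ΛT, F μ) * E 0 := by rw [hF.sum, one_mul]
        _ = 0 := by
          rw [Finset.sum_mul]
          exact Finset.sum_eq_zero fun μ _ => hex μ
    rw [h1, smul_zero]
    have : g = 0 := by rw [← hgE, h1, mul_zero]
    rw [this, mul_zero]

end Ct55

end MH
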