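import Pool.Agent.Helper55.UT.Sing

/-!
Project UT (MP_b8862a_ag): spaces of elements of the top degree, the element `T = ∑ [u, uᴴ]`.
-/

set_option linter.unusedSectionVars false

open Matrix

namespace MH

variable {n : Type*} [Fintype n] [DecidableEq n]
variable {h : Matrix n n ℂ} {E : ℝ → Matrix n n ℂ} {Λ : Finset ℝ}
variable {τ : Matrix n n ℂ →ₗ[ℂ] Matrix n n ℂ} {L : Submodule ℂ (Matrix n n ℂ)}

/-- `u` is an orthonormal basis of `M`, a space of elements of degree `δ` that is stable under the elements of degree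
zero and commutes with all elements of positive degree. -/
structure Tb55 (L : Submodule ℂ (Matrix n n ℂ)) (h : Matrix n n ℂ) (δ : ℝ) (M : Submodule ℂ (Matrix n n ℂ)) {d : ℕ}
    (u : Fin d → Matrix n n ℂ) : Prop where
  le : M ≤ Ld L h δ
  st : ∀ z ∈ Ld L h 0, ∀ m ∈ M, z * m - m * z ∈ M
  mem : ∀ i, u i ∈ M
  orth : ∀ i j, ((u i)ᴴ * u j).trace = if i = j then 1 else 0
  span : ∀ m ∈ M, m = ∑ i, ((u i)ᴴ * m).trace • u i
  pos : 0 < δ
  comm : ∀ ν : ℝ, 0 < ν → ∀ x ∈ Ld L h ν, ∀ m ∈ M, m * x = x * m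

/-- `T = ∑ (u uᴴ - uᴴ u)` -/
def TT55 {d : ℕ} (u : Fin d → Matrix n n ℂ) : Matrix n n ℂ := SA55 u - SB55 u

lemma TT_star55 {d : ℕ} (u : Fin d → Matrix n n ℂ) : (TT55 u)ᴴ = TT55 u := by
  rw [TT55, conjTranspose_sub, SA_star55, SB_star55]

section
variable {δ : ℝ} {M : Submodule ℂ (Matrix n n ℂ)} {d : ℕ} {u : Fin d → Matrix n n ℂ}
variable (D : Dat τ L h E Λ) (U : Tb55 L h δ M u)
include D

lemma mulE2_55 {ν : ℝ} {x : Matrix n n ℂ} (hx : x ∈ Ld L h ν) (μ : ℝ) : x * E μ = E (μ + ν) * x := by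
  have h1 := D.Ld_mul_E hx μ
  have h2 := D.Ld_mul_E (D.Ld_star27 hx) (μ + ν)
  have h3 := congrArg conjTranspose h2
  rw [conjTranspose_mul, conjTranspose_mul, conjTranspose_mul, D.spec.star, D.spec.star,
    conjTranspose_conjTranspose, add_neg_cancel_right, ← mul_assoc] at h3
  rw [h3, ← h1]

include U

lemma Tb_star55 (i : Fin d) : (u i)ᴴ ∈ Ld L h (-δ) := D.Ld_star27 (U.le (U.mem i))

lemma tau_SA2_55 : τ (SA55 u) = SB55 u := by
  rw [SA55, SB55, map_sum]
  refine Finset.sum_congr rfl fun i _ => ?_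
  rw [D.inv.mul, D.inv.star, D.sk _ (U.le (U.mem i)).1, conjTranspose_neg, neg_mul_neg]

lemma tau_SB2_55 : τ (SB55 u) = SA55 u := by
  rw [← tau_SA2_55 D U, D.inv.inv]

lemma act2_55 {z : Matrix n n ℂ} (hz : z ∈ Ld L h 0) :
    (∀ i, z * u i - u i * z = ∑ j, ((u j)ᴴ * (z * u i - u i * z)).trace • u j) ∧
    ∀ i, z * (u i)ᴴ - (u i)ᴴ * z = -∑ j, ((u i)ᴴ * (z * u j - u j * z)).trace • (u j)ᴴ := by
  refine ⟨fun i => U.span _ (U.st z hz _ (U.mem i)), fun i => ?_⟩
  have h1 := U.span _ (U.st _ (D.star_zero55 hz) _ (U.mem i))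
  have h2 := congrArg conjTranspose h1
  rw [conjTranspose_sub, conjTranspose_mul, conjTranspose_mul, conjTranspose_conjTranspose, conjTranspose_sum] at h2
  rw [← neg_sub, h2]
  congr 1
  refine Finset.sum_congr rfl fun j _ => ?_
  rw [conjTranspose_smul]
  congr 1
  rw [← trace_conjTranspose, conjTranspose_mul, conjTranspose_conjTranspose, conjTranspose_sub, conjTranspose_mul,
    conjTranspose_mul, conjTranspose_conjTranspose, sub_mul, mul_sub, trace_sub, trace_sub]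
  congr 1
  · rw [mul_assoc]
  · rw [mul_assoc, trace_mul_comm z, mul_assoc]

/-- `∑ u uᴴ` commutes with the elements of degree zero -/
lemma SA_comm2_55 {z : Matrix n n ℂ} (hz : z ∈ Ld L h 0) : SA55 u * z = z * SA55 u := by
  obtain ⟨h1, h2⟩ := act2_55 D U hz
  have h3 : z * SA55 u - SA55 u * z = ∑ i, ((z * u i - u i * z) * (u i)ᴴ + u i * (z * (u i)ᴴ - (u i)ᴴ * z)) := by
    rw [SA55, Finset.mul_sum, Finset.sum_mul, ← Finset.sum_sub_distrib]
    refine Finset.sum_congr rfl fun i _ => ?_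
    noncomm_ring
  have h4 : z * SA55 u - SA55 u * z = 0 := by
    rw [h3, Finset.sum_add_distrib]
    have e1 : ∑ i, (z * u i - u i * z) * (u i)ᴴ =
        ∑ i, ∑ j, ((u j)ᴴ * (z * u i - u i * z)).trace • (u j * (u i)ᴴ) := by
      refine Finset.sum_congr rfl fun i _ => ?_
      conv_lhs => rw [h1 i]
      rw [Finset.sum_mul]
      refine Finset.sum_congr rfl fun j _ => ?_
      rw [smul_mul_assoc]
    have e2 : ∑ i, u i * (z * (u i)ᴴ - (u i)ᴴ * z) =
        -∑ i, ∑ j, ((u i)ᴴ * (z * u j - u j * z)).trace • (u i * (u j)ᴴ) := by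
      rw [← Finset.sum_neg_distrib]
      refine Finset.sum_congr rfl fun i _ => ?_
      rw [h2 i, mul_neg, Finset.mul_sum]
      congr 1
      refine Finset.sum_congr rfl fun j _ => ?_
      rw [mul_smul_comm]
    rw [e1, e2, Finset.sum_comm, add_neg_cancel]
  exact (sub_eq_zero.1 h4).symm

lemma SB_comm2_55 {z : Matrix n n ℂ} (hz : z ∈ Ld L h 0) : SB55 u * z = z * SB55 u := by
  have h1 := congrArg τ (SA_comm2_55 D U hz)
  rw [D.inv.mul, D.inv.mul, tau_SA2_55 D U, D.sk z hz.1, neg_mul, mul_neg] at h1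
  exact (neg_inj.1 h1).symm

lemma SA_E2_55 (μ : ℝ) : SA55 u * E μ = E μ * SA55 u := by
  rw [SA55, Finset.sum_mul, Finset.mul_sum]
  refine Finset.sum_congr rfl fun i _ => ?_
  have h1 := mulE2_55 D (Tb_star55 D U i) μ
  have h2 := mulE2_55 D (U.le (U.mem i)) (μ + -δ)
  rw [neg_add_cancel_right] at h2
  rw [mul_assoc, h1, ← mul_assoc, h2, mul_assoc]

lemma SB_E2_55 (μ : ℝ) : SB55 u * E μ = E μ * SB55 u := by
  rw [SB55, Finset.sum_mul, Finset.mul_sum]
  refine Finset.sum_congr rfl fun i _ => ?_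
  have h1 := mulE2_55 D (U.le (U.mem i)) μ
  have h2 := mulE2_55 D (Tb_star55 D U i) (μ + δ)
  rw [add_neg_cancel_right] at h2
  rw [mul_assoc, h1, ← mul_assoc, h2, mul_assoc]

lemma TT_zero55 : TT55 u ∈ Ld L h 0 := by
  rw [TT55, SA55, SB55, ← Finset.sum_sub_distrib]
  refine Submodule.sum_mem _ fun i _ => ?_
  have h1 := Dat.Ld_bracket D.br (U.le (U.mem i)) (Tb_star55 D U i)
  rwa [add_neg_cancel] at h1

lemma TT_comm55 {z : Matrix n n ℂ} (hz : z ∈ Ld L h 0) : TT55 u * z = z * TT55 u := by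
  rw [TT55, sub_mul, mul_sub, SA_comm2_55 D U hz, SB_comm2_55 D U hz]

lemma tau_TT55 : τ (TT55 u) = -TT55 u := D.sk _ (TT_zero55 D U).1

/-- `T` acts on `M` as a scalar, if `M` is minimal. -/
theorem nu55 (hne : M ≠ ⊥) (hmin : ∀ M' ≤ M, M' ≠ ⊥ → (∀ z ∈ Ld L h 0, ∀ m ∈ M', z * m - m * z ∈ M') → M' = M) :
    ∃ ν : ℝ, ∀ m ∈ M, TT55 u * m - m * TT55 u = (ν : ℂ) • m := by
  have hT0 := TT_zero55 D U
  have hst : ∀ x ∈ M, ad55 (TT55 u) x ∈ M := fun x hx => U.st _ hT0 x hx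
  have : Nontrivial M := by
    rw [Submodule.nontrivial_iff_ne_bot]
    exact hne
  obtain ⟨ζ, hζ⟩ := Module.End.exists_eigenvalue ((ad55 (TT55 u)).restrict hst)
  obtain ⟨v, hv⟩ := hζ.exists_hasEigenvector
  have hv1 : ad55 (TT55 u) (v : Matrix n n ℂ) = ζ • (v : Matrix n n ℂ) := by
    have h3 := hv.apply_eq_smul
    have h4 := congrArg Subtype.val h3
    simpa using h4
  have hMe : M ⊓ Module.End.eigenspace (ad55 (TT55 u)) ζ = M := by
    apply hmin _ inf_le_left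
    · intro h3
      apply hv.2
      have h4 : (v : Matrix n n ℂ) ∈ M ⊓ Module.End.eigenspace (ad55 (TT55 u)) ζ := by
        rw [Submodule.mem_inf, Module.End.mem_eigenspace_iff]
        exact ⟨v.2, hv1⟩
      rw [h3, Submodule.mem_bot] at h4
      exact Subtype.ext h4
    · intro z hz m hm
      rw [Submodule.mem_inf, Module.End.mem_eigenspace_iff] at hm ⊢
      refine ⟨U.st z hz m hm.1, ?_⟩
      change ad55 (TT55 u) (ad55 z m) = ζ • ad55 z m
      rw [ad55_jac, hm.2, map_smul]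
      have e1 : ad55 (TT55 u) z = 0 := by rw [ad55_apply, TT_comm55 D U hz, sub_self]
      rw [e1]
      simp [ad55_apply]
  have hall : ∀ x ∈ M, TT55 u * x - x * TT55 u = ζ • x := by
    intro x hx
    rw [← hMe, Submodule.mem_inf, Module.End.mem_eigenspace_iff] at hx
    exact hx.2
  have hζr : star ζ = ζ := by
    obtain ⟨x, hx, hx0⟩ := Submodule.exists_mem_ne_zero_of_ne_bot hne
    have e1 := hall x hx
    have e2 : (xᴴ * (TT55 u * x - x * TT55 u)).trace = ζ * (xᴴ * x).trace := by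
      rw [e1, mul_smul_comm, trace_smul, smul_eq_mul]
    have e3 : star (xᴴ * (TT55 u * x - x * TT55 u)).trace = (xᴴ * (TT55 u * x - x * TT55 u)).trace := by
      rw [← trace_conjTranspose, conjTranspose_mul, conjTranspose_conjTranspose, conjTranspose_sub,
        conjTranspose_mul, conjTranspose_mul, TT_star55, sub_mul, mul_sub, trace_sub, trace_sub]
      congr 1
      · rw [mul_assoc]
      · rw [mul_assoc, trace_mul_comm (TT55 u), mul_assoc]
    have e4 : star (xᴴ * x).trace = (xᴴ * x).trace := by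
      rw [← trace_conjTranspose, conjTranspose_mul, conjTranspose_conjTranspose]
    rw [e2, star_mul', e4] at e3
    have e5 : (xᴴ * x).trace ≠ 0 := by
      intro h3
      have := trace_pos hx0
      rw [h3] at this
      simp at this
    exact mul_right_cancel₀ e5 e3
  refine ⟨ζ.re, fun m hm => ?_⟩
  rw [hall m hm]
  congr 1
  exact (Complex.conj_eq_iff_re.1 hζr).symm

/-- `T` is not negative on the elements of positive degree. -/
theorem TT_pos55 {ν : ℝ} (hν : 0 < ν) {x : Matrix n n ℂ} (hx : x ∈ Ld L h ν) :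
    0 ≤ (xᴴ * (TT55 u * x - x * TT55 u)).trace.re := by
  have e1 : xᴴ * (TT55 u * x - x * TT55 u) =
      ∑ i, (xᴴ * u i * ((u i)ᴴ * x - x * (u i)ᴴ) - xᴴ * ((u i)ᴴ * x - x * (u i)ᴴ) * u i) := by
    rw [TT55, SA55, SB55, ← Finset.sum_sub_distrib, Finset.sum_mul, Finset.mul_sum, ← Finset.sum_sub_distrib,
      Finset.mul_sum]
    refine Finset.sum_congr rfl fun i _ => ?_
    have e2 := U.comm ν hν x hx (u i) (U.mem i)
    have e3 : (u i)ᴴ * x * u i = (u i)ᴴ * u i * x := by rw [mul_assoc, ← e2, mul_assoc]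
    have e4 : u i * x * (u i)ᴴ = x * u i * (u i)ᴴ := by rw [e2]
    have e5 : (u i * (u i)ᴴ - (u i)ᴴ * u i) * x - x * (u i * (u i)ᴴ - (u i)ᴴ * u i) =
        u i * (u i)ᴴ * x - (u i)ᴴ * u i * x - x * u i * (u i)ᴴ + x * (u i)ᴴ * u i := by noncomm_ring
    have e6 : xᴴ * u i * ((u i)ᴴ * x - x * (u i)ᴴ) - xᴴ * ((u i)ᴴ * x - x * (u i)ᴴ) * u i =
        xᴴ * (u i * (u i)ᴴ * x - u i * x * (u i)ᴴ - (u i)ᴴ * x * u i + x * (u i)ᴴ * u i) := by noncomm_ring
    rw [e5, e6, e3, e4]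
    congr 1
    abel
  rw [e1, trace_sum, Complex.re_sum]
  refine Finset.sum_nonneg fun i _ => ?_
  have e2 : (xᴴ * u i * ((u i)ᴴ * x - x * (u i)ᴴ) - xᴴ * ((u i)ᴴ * x - x * (u i)ᴴ) * u i).trace =
      (((u i)ᴴ * x - x * (u i)ᴴ)ᴴ * ((u i)ᴴ * x - x * (u i)ᴴ)).trace := by
    rw [trace_sub, trace_mul_comm (xᴴ * ((u i)ᴴ * x - x * (u i)ᴴ)) (u i), ← mul_assoc (u i) xᴴ,
      ← trace_sub, ← sub_mul, conjTranspose_sub, conjTranspose_mul, conjTranspose_mul, conjTranspose_conjTranspose]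
  rw [e2]
  exact trace_nonneg _

end

end MH
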