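import Pool.Agent.Helper55.UT.Idn
import Pool.Agent.Helper55.UT.Big
import Pool.Agent.Helper2.TR.FourFin
import Pool.Agent.Helper98.EP.Core

/-!
Project UT (MP_b8862a_ag): the trichotomy with all bounds.
-/

set_option linter.unusedSectionVars false

open Matrix

namespace MH

variable {n : Type*} [Fintype n] [DecidableEq n]
variable {h : Matrix n n ℂ} {E : ℝ → Matrix n n ℂ} {Λ : Finset ℝ}
variable {τ : Matrix n n ℂ →ₗ[ℂ] Matrix n n ℂ} {L : Submodule ℂ (Matrix n n ℂ)}

namespace Dat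

variable (D : Dat τ L h E Λ) {t : ℝ}
include D

/-- **The contact case has at most four eigenvalues**, and if there are four, the inner multiplicity is at most the
extreme multiplicity. -/
theorem four_all55 (hsmp : ∀ K ≤ L, (∀ X ∈ L, ∀ Y ∈ K, X * Y - Y * X ∈ K) → K = ⊥ ∨ K = L)
    (ht : 0 < t) (htop : ∀ μ, E μ ≠ 0 → μ ≤ t) (hone : Module.finrank ℂ (Ld L h (2 * t)) = 1)
    (h3 : 3 ≤ (E t).rank) : ∃ e : ℝ, 0 ≤ e ∧ (∀ μ, E μ ≠ 0 → μ = t ∨ μ = -t ∨ μ = e ∨ μ = -e) ∧
      (0 < e → e ≠ t → (E e).rank ≤ (E t).rank) := by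
  classical
  have hEE : ∀ μ, E μ * E μ = E μ := fun μ => by rw [D.spec.mul, if_pos rfl]
  have htt : t ≠ -t := by linarith
  have e1 : E t * E (-t) = 0 := by rw [D.spec.mul, if_neg htt]
  have e2 : E (-t) * E t = 0 := by rw [D.spec.mul, if_neg htt.symm]
  have hne : Ld L h (2 * t) ≠ ⊥ := by
    intro h1
    rw [h1, finrank_bot] at hone
    exact zero_ne_one hone
  have hy := D.ext98 ht htop hne
  have D' := D.dat3_55 ht hy
  have T' := E3_three (E t) (E (-t))
  have hLd := D.ld3_55 ht htop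
  obtain ⟨⟨x, hx⟩, hx0, hx1⟩ := finrank_eq_one_iff'.1 hone
  have hx0' : x ≠ 0 := fun h => hx0 (Subtype.ext h)
  rw [← hLd] at hx
  have hEt : E t ≠ 0 := by
    intro h1
    rw [h1, Matrix.rank_zero] at h3
    omega
  have hE1 : E3 (E t) (E (-t)) 1 ≠ 0 := by
    rw [E3_one]
    exact hEt
  obtain ⟨X, C⟩ := exists_ct55 D' T' hE1 hx hx0' (by
    intro y hy'
    rw [hLd] at hy'
    obtain ⟨c, hc⟩ := hx1 ⟨y, hy'⟩
    exact ⟨c, (congrArg Subtype.val hc).symm⟩)
  -- the middle part of `h`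
  obtain ⟨g, hg⟩ : ∃ g, g = h - (t : ℂ) • (E t - E (-t)) := ⟨_, rfl⟩
  have hcast : ((-t : ℝ) : ℂ) = -(t : ℂ) := by push_cast; rfl
  have gt1 : g * E t = 0 := by
    rw [hg, sub_mul, D.spec.h_mul, smul_mul_assoc, sub_mul, hEE, e2, sub_zero, sub_self]
  have gt2 : E t * g = 0 := by
    rw [hg, mul_sub, D.spec.mul_h, mul_smul_comm, mul_sub, hEE, e1, sub_zero, sub_self]
  have gt3 : g * E (-t) = 0 := by
    rw [hg, sub_mul, D.spec.h_mul, smul_mul_assoc, sub_mul, hEE, e1, zero_sub, hcast, neg_smul, smul_neg,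
      sub_neg_eq_add, neg_add_cancel]
  have gt4 : E (-t) * g = 0 := by
    rw [hg, mul_sub, D.spec.mul_h, mul_smul_comm, mul_sub, hEE, e2, zero_sub, hcast, neg_smul, smul_neg,
      sub_neg_eq_add, neg_add_cancel]
  have gs : gᴴ = g := by
    have : star (t : ℂ) = t := Complex.conj_ofReal t
    rw [hg, conjTranspose_sub, conjTranspose_smul, conjTranspose_sub, D.spec.star, D.spec.star, this, D.spec.hh]
  have G : Md55 L (E t - E (-t)) (E3 (E t) (E (-t))) g := by
    refine ⟨⟨?_, ?_⟩, gs, ?_, ?_, ?_, ?_⟩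
    · rw [hg]
      exact L.sub_mem D.mem (L.smul_mem _ hy)
    · rw [sub_mul, mul_sub, gt1, gt2, gt3, gt4]
      simp
    · rw [E3_one, gt2]
    · rw [E3_one, gt1]
    · rw [E3_neg, gt4]
    · rw [E3_neg, gt3]
  have h3' : 3 ≤ (E3 (E t) (E (-t)) 1).rank := by rw [E3_one]; exact h3
  obtain ⟨e, he, hsq⟩ := C.sq55 D' T' G hsmp h3'
  have hgE : ∀ μ, μ ≠ t → μ ≠ -t → g * E μ = (μ : ℂ) • E μ ∧ E3 (E t) (E (-t)) 0 * E μ = E μ := by
    intro μ m1 m2
    have f1 : E t * E μ = 0 := by rw [D.spec.mul, if_neg m1.symm]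
    have f2 : E (-t) * E μ = 0 := by rw [D.spec.mul, if_neg m2.symm]
    constructor
    · rw [hg, sub_mul, D.spec.h_mul, smul_mul_assoc, sub_mul, f1, f2, sub_zero, smul_zero, sub_zero]
    · rw [E3_zero, sub_mul, sub_mul, one_mul, f1, f2, sub_zero, sub_zero]
  have hlev : ∀ μ, E μ ≠ 0 → μ = t ∨ μ = -t ∨ μ = e ∨ μ = -e := by
    intro μ hμ
    by_contra hcon
    push Not at hcon
    obtain ⟨m1, m2, m3, m4⟩ := hcon
    obtain ⟨k1, k2⟩ := hgE μ m1 m2
    have h4 : g * g * E μ = ((μ : ℂ) * μ) • E μ := by rw [mul_assoc, k1, mul_smul_comm, k1, smul_smul]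
    rw [hsq, smul_mul_assoc, k2] at h4
    have h5 : (((e ^ 2 - μ ^ 2 : ℝ)) : ℂ) • E μ = 0 := by
      push_cast at h4 ⊢
      rw [sub_smul, h4, sq, sub_self]
    have h6 : ((e ^ 2 - μ ^ 2 : ℝ) : ℂ) = 0 := (smul_eq_zero.1 h5).resolve_right hμ
    have h7 : e ^ 2 - μ ^ 2 = 0 := by exact_mod_cast h6
    have h8 : (μ - e) * (μ + e) = 0 := by linarith
    rcases mul_eq_zero.1 h8 with h9 | h9
    · exact m3 (by linarith)
    · exact m4 (by linarith)
  refine ⟨e, he, hlev, fun he0 het => ?_⟩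
  have M : Me55 L (E t - E (-t)) (E3 (E t) (E (-t))) g e := ⟨G, he0, hsq⟩
  by_cases hEe : E e = 0
  · rw [hEe, Matrix.rank_zero]
    exact Nat.zero_le _
  have het' : e ≠ -t := by linarith
  have hF : Fp55 (E3 (E t) (E (-t))) g e = E e := by
    have f0 : ∀ μ, Fp55 (E3 (E t) (E (-t))) g e * E μ = if μ = e then E e else 0 := by
      intro μ
      have he0' : (e : ℂ) ≠ 0 := by exact_mod_cast he0.ne'
      by_cases m0 : E μ = 0
      · rw [m0, mul_zero]
        split_ifs with m1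
        · rw [← m1, m0]
        · rfl
      by_cases m1 : μ = t
      · subst m1
        rw [if_neg het.symm]
        unfold Fp55
        rw [E3_zero, smul_mul_assoc, add_mul, smul_mul_assoc, gt1, sub_mul, sub_mul, one_mul, hEE, e2]
        simp
      by_cases m2 : μ = -t
      · subst m2
        rw [if_neg het'.symm]
        unfold Fp55
        rw [E3_zero, smul_mul_assoc, add_mul, smul_mul_assoc, gt3, sub_mul, sub_mul, one_mul, hEE, e1]
        simp
      obtain ⟨k1, k2⟩ := hgE μ m1 m2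
      unfold Fp55
      rw [smul_mul_assoc, add_mul, smul_mul_assoc, k1, k2, smul_smul]
      rcases hlev μ m0 with r | r | r | r
      · exact absurd r m1
      · exact absurd r m2
      · subst r
        rw [if_pos rfl, inv_mul_cancel₀ he0', one_smul]
        module
      · rw [if_neg (by rw [r]; linarith), r]
        push_cast
        rw [mul_neg, inv_mul_cancel₀ he0', neg_smul, one_smul, add_neg_cancel, smul_zero]
    calc Fp55 (E3 (E t) (E (-t))) g e = Fp55 (E3 (E t) (E (-t))) g e * ∑ μ ∈ Λ, E μ := by rw [D.spec.sum, mul_one]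
      _ = ∑ μ ∈ Λ, if μ = e then E e else 0 := by rw [Finset.mul_sum]; exact Finset.sum_congr rfl fun μ _ => f0 μ
      _ = E e := by
        rw [Finset.sum_ite_eq' Λ e]
        split_ifs with m1
        · rfl
        · exact (D.spec.supp e m1).symm
  obtain ⟨d, p, hp, hid⟩ := C.four_id D' T' M hsmp h3' (by rw [hF]; exact hEe)
  rw [hF, E3_one] at hid
  have h4 : (d + 2) * (E e).rank ≤ (d + 2) * (E t).rank := by
    rw [hid]
    exact Nat.mul_le_mul_right _ (by omega)
  exact Nat.le_of_mul_le_mul_left h4 (by omega)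

/-- **The trichotomy with all bounds.** -/
theorem tri55b [Nonempty n] {F Fi : Matrix n n ℂ}
    (f1 : F * Fi = 1) (f2 : Fi * F = 1) {c : ℂ} (hc : c * c = 1) (hF : Fᵀ = c • F)
    (hsk : ∀ X ∈ L, Xᵀ * F + F * X = 0) (ht : 0 < t) (htop : ∀ μ, E μ ≠ 0 → μ ≤ t)
    (h0 : 1 - E t - E (-t) ≠ 0)
    (hs : (∀ K : Submodule ℂ (Matrix n n ℂ), IsI L K → h ∈ K ∨ h ∈ pp L K) → Smp L) :
    (Ld L h (2 * t) = ⊥ ∧ ∃ e, -t < e ∧ e < t ∧ (E t).rank ≤ (E e).rank) ∨
    (Module.finrank ℂ (Ld L h (2 * t)) = 1 ∧ (c = 1 → Even (E t).rank) ∧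
      (c = -1 → 3 ≤ (E t).rank) ∧ 5 * (E t).rank ≤ 2 * Fintype.card n ∧ ((E t).rank = 2 ∨
        ∃ e : ℝ, 0 ≤ e ∧ e < t ∧ (∀ μ, E μ ≠ 0 → μ = t ∨ μ = -t ∨ μ = e ∨ μ = -e) ∧
          (0 < e → (E e).rank ≤ (E t).rank ∧ ¬ (E t).rank.Prime))) ∨
      ∀ X : Matrix n n ℂ, Xᵀ * F + F * X = 0 → X ∈ L := by
  classical
  rcases D.tri_L2 f1 f2 hc hF hsk ht htop h0 (fun hne => hs fun K hK => D.h_mem_or_ext98 ht htop hne hK) with
    h1 | ⟨h1, h2, h3⟩ | h1
  · have hEt : E t = 0 ∨ E t ≠ 0 := em _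
    rcases hEt with hEt | hEt
    · left
      refine ⟨h1, 0, by linarith, ht, ?_⟩
      rw [hEt, Matrix.rank_zero]
      exact Nat.zero_le _
    · exact Or.inl ⟨h1, D.big55 ht htop hEt h1⟩
  swap
  · exact Or.inr (Or.inr h1)
  have hne : Ld L h (2 * t) ≠ ⊥ := by
    intro h4
    rw [h4, finrank_bot] at h1
    exact zero_ne_one h1
  have hsmp : Smp L := hs fun K hK => D.h_mem_or_ext98 ht htop hne hK
  have hEt : E t ≠ 0 := by
    intro h4
    apply hne
    rw [eq_bot_iff]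
    intro x hx
    have hEE : ∀ μ, E μ * E μ = E μ := fun μ => by rw [D.spec.mul, if_pos rfl]
    have D' := D.dat3_55 ht (D.ext98 ht htop hne)
    have T' := E3_three (E t) (E (-t))
    have hLd := D.ld3_55 ht htop
    rw [← hLd] at hx
    rw [Submodule.mem_bot, ← D'.Ld227 T' hx, E3_one, h4, zero_mul, zero_mul]
  have hr0 : (E t).rank ≠ 0 := fun h4 => hEt (rank_zero_iff55.1 h4)
  have hcc : c = 1 ∨ c = -1 := by
    have h4 : (c - 1) * (c + 1) = 0 := by linear_combination hc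
    rcases mul_eq_zero.1 h4 with h5 | h5
    · exact Or.inl (by linear_combination h5)
    · exact Or.inr (by linear_combination h5)
  -- a middle eigenvalue
  obtain ⟨ν, hν, hν1, hν2⟩ : ∃ ν, E ν ≠ 0 ∧ ν ≠ t ∧ ν ≠ -t := by
    by_contra hcon
    push Not at hcon
    apply h0
    have f3 : ∀ μ, (1 - E t - E (-t)) * E μ = 0 := by
      intro μ
      by_cases m0 : E μ = 0
      · rw [m0, mul_zero]
      by_cases m1 : μ = t
      · subst m1
        rw [sub_mul, sub_mul, one_mul, D.spec.mul, D.spec.mul, if_pos rfl, if_neg (by linarith), sub_zero, sub_self]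
      · have m2 := hcon μ m0 m1
        subst m2
        rw [sub_mul, sub_mul, one_mul, D.spec.mul, D.spec.mul, if_pos rfl, if_neg (by linarith), sub_zero, sub_self]
    calc 1 - E t - E (-t) = (1 - E t - E (-t)) * ∑ μ ∈ Λ, E μ := by rw [D.spec.sum, mul_one]
      _ = 0 := by
        rw [Finset.mul_sum]
        exact Finset.sum_eq_zero fun μ _ => f3 μ
  by_cases hr2 : (E t).rank = 2
  · exact Or.inr (Or.inl ⟨h1, h2, h3, D.contact_lev55 ht htop h0 h1, Or.inl hr2⟩)
  have hr3 : 3 ≤ (E t).rank := by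
    rcases hcc with h4 | h4
    · have := h2 h4
      rcases this with ⟨x, hx⟩
      omega
    · exact h3 h4
  obtain ⟨e, he, hlev, hle⟩ := D.four_all55 hsmp ht htop h1 hr3
  -- `e < t` and `E e ≠ 0`
  have hEe : E e ≠ 0 ∧ e ≠ t := by
    rcases hlev ν hν with r | r | r | r
    · exact absurd r hν1
    · exact absurd r hν2
    · subst r
      exact ⟨hν, hν1⟩
    · have h4 : E e ≠ 0 := by
        intro h5
        apply hν
        rw [r, ← D.tauE, h5, map_zero]
      exact ⟨h4, fun h5 => hν2 (by rw [r, h5])⟩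
  have het : e < t := lt_of_le_of_ne (htop e hEe.1) hEe.2
  by_cases hp : 0 < e ∧ (E t).rank.Prime
  · obtain ⟨he0, sp⟩ := hp
    have hk := hle he0 hEe.2
    have hc1 : c = -1 := by
      rcases hcc with h4 | h4
      · exfalso
        exact hr2 ((Nat.Prime.even_iff sp).1 (h2 h4))
      · exact h4
    have hlist : ¬ FourList (E t).rank (E e).rank := by
      unfold FourList
      omega
    have hk0 : 0 < (E e).rank := by
      rw [Nat.pos_iff_ne_zero]
      intro h4
      exact hEe.1 (rank_zero_iff55.1 h4)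
    right; right
    intro X hX
    exact four_of2 (core_four2 sp hr2 hk0 hlist) (by rw [hF, hc1, neg_one_smul]) f1 f2 D.br
      (fun W hW => D.stable W hW) hsk hsmp D.mem (SD.mk D.spec.mul D.spec.sum D.spec.eq) he0 het (by
        intro μ hμ
        rcases hlev μ hμ with r | r | r | r
        · exact Or.inl r
        · exact Or.inr (Or.inr (Or.inr r))
        · exact Or.inr (Or.inl r)
        · exact Or.inr (Or.inr (Or.inl r))) rfl rfl (by omega) hk0 hX
  · refine Or.inr (Or.inl ⟨h1, h2, h3, D.contact_lev55 ht htop h0 h1, Or.inr ⟨e, he, het, hlev, fun he0 => ?_⟩⟩)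
    exact ⟨hle he0 hEe.2, fun sp => hp ⟨he0, sp⟩⟩

end Dat

end MH
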